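import Pool.Agent.HDG.Lor
import Pool.Agent.LLC.LinA

/-!
# HDG BND: the growth of the powers of `A`

`bnd_K`: `{u ∈ K | ‖u‖ = 1}` is compact, `T(1,1,u) > 0` there (`lor_pos`), continuous (`tri_cont`): it is
`≥ m > 0`; `|u i| ≤ ‖u‖ ≤ T(1,1,u) / m`.
`bnd`: `e i ᵥ* A ^ n ∈ K` is the row `i` of `A ^ n`, and `(fun _ => 1) ᵥ* A ^ n` is the sum of the rows; by `nn`
`T(1,1,e i ᵥ* A ^ n) ≤ T(1,1,1 ᵥ* A ^ n)`; `bnd_K`.
`spec_le`: for an eigenvalue `z` of `A` (over `ℂ`) there is a vector `v ≠ 0` with `v ᵥ* A = z v`, so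
`|z| ^ n |v i| ≤ (∑ j, |v j|) max |A ^ n| ≤ C' T(1 ᵥ* A ^ n,1,1)`; take `n`-th roots, `n → ∞`
(`C' ^ (1 / n) → 1`).
`spec_ge`: if all eigenvalues satisfy `‖z‖ < δ`, then `‖z‖ ≤ r` for an `r` with `0 < r < δ`, and
`|A ^ n i j| ≤ C (1 + n) ^ C r ^ n` (`LLC.lin_up` in LLC/LinA for the complex matrix: see how it is used in
KST/Reg.lean and KST/Spec.lean; it needs `1 ≤ r`, so rescale or use `spectralRadius`/Gelfand's formula; or
choose `r ≥ 1` as `1 < δ`), so `T(1 ᵥ* A ^ n,1,1) ≤ C' (1 + n) ^ C r ^ n` (`tri_bound`), whose `n`-th root has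
limit `≤ r < δ`. So there is an eigenvalue with `‖z‖ = δ` (`spec_le`), and
`T(1 ᵥ* A ^ n,1,1) ≥ c δ ^ n` by the first estimate.
-/

open Filter Topology Matrix

namespace Pool.Agent.HDG

open Pool.Agent.KST

variable {ι : Type*} [Fintype ι] [DecidableEq ι] {A B : Matrix ι ι ℝ} {t : ι → ι → ι → ℝ}
  {K : Set (ι → ℝ)}

/-- The degrees of the powers of `A` grow like `δ ^ n`. -/
def Grt (A : Matrix ι ι ℝ) (t : ι → ι → ι → ℝ) (δ : ℝ) : Prop :=
  Tendsto (fun n : ℕ => (Tri t ((fun _ => 1) ᵥ* (A ^ n)) (fun _ => 1) (fun _ => 1)) ^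
    ((1 : ℝ) / n)) atTop (𝓝 δ)

theorem bnd_swap (H : Hdg A B t K) (u v w : ι → ℝ) : Tri t u v w = Tri t v u w :=
  tri_swap₁ t H.s₁ u v w

theorem bnd_rot (H : Hdg A B t K) (u : ι → ℝ) :
    Tri t (fun _ => 1) (fun _ => 1) u = Tri t u (fun _ => 1) (fun _ => 1) := by
  rw [tri_swap₂ t H.s₂ (fun _ => 1) (fun _ => 1) u, tri_swap₁ t H.s₁ (fun _ => 1) u]

theorem bnd_smul (H : Hdg A B t K) (r : ℝ) (u : ι → ℝ) :
    Tri t (fun _ => 1) (fun _ => 1) (r • u) = r * Tri t (fun _ => 1) (fun _ => 1) u := by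
  rw [bnd_rot H, bnd_rot H, tri_smul₁]

theorem bnd_K (H : Hdg A B t K) : ∃ C : ℝ, 0 ≤ C ∧ ∀ u ∈ K, ∀ i,
    |u i| ≤ C * Tri t (fun _ => 1) (fun _ => 1) u := by
  set S : Set (ι → ℝ) := K ∩ Metric.sphere 0 1 with hS
  have hcomp : IsCompact S := (isCompact_sphere (0 : ι → ℝ) 1).inter_left H.cl
  have hcont : Continuous fun u : ι → ℝ => Tri t (fun _ => 1) (fun _ => 1) u := by
    have := tri_cont t
    exact this.comp (by fun_prop : Continuous fun u : ι → ℝ =>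
      ((fun _ => (1 : ℝ) : ι → ℝ), (fun _ => (1 : ℝ) : ι → ℝ), u))
  have hscale : ∀ u ∈ K, u ≠ 0 → (‖u‖⁻¹ • u) ∈ S := by
    intro u hu h0
    have hn : 0 < ‖u‖ := norm_pos_iff.2 h0
    refine ⟨H.smul u hu _ (by positivity), ?_⟩
    rw [mem_sphere_zero_iff_norm, norm_smul, norm_inv, norm_norm, inv_mul_cancel₀ hn.ne']
  rcases S.eq_empty_or_nonempty with hE | hN
  · refine ⟨0, le_rfl, fun u hu i => ?_⟩
    by_cases h0 : u = 0
    · rw [h0]; simp
    · have := hscale u hu h0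
      rw [hE] at this
      exact absurd this (Set.notMem_empty _)
  · obtain ⟨u₀, hu₀, hmin⟩ := hcomp.exists_isMinOn hN hcont.continuousOn
    have hu0ne : u₀ ≠ 0 := by
      intro h
      have := hu₀.2
      rw [mem_sphere_zero_iff_norm, h, norm_zero] at this
      exact zero_ne_one this
    have hm : 0 < Tri t (fun _ => 1) (fun _ => 1) u₀ := lor_pos H u₀ hu₀.1 hu0ne
    set m := Tri t (fun _ => 1) (fun _ => 1) u₀ with hmdef
    refine ⟨m⁻¹, by positivity, fun u hu i => ?_⟩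
    by_cases h0 : u = 0
    · rw [h0]
      have : Tri t (fun _ => 1) (fun _ => 1) (0 : ι → ℝ) = 0 := by
        have := bnd_smul H 0 (0 : ι → ℝ)
        rw [zero_smul, zero_mul] at this
        exact this
      rw [this]; simp
    · have hn : 0 < ‖u‖ := norm_pos_iff.2 h0
      have h1 : m ≤ Tri t (fun _ => 1) (fun _ => 1) (‖u‖⁻¹ • u) := hmin (hscale u hu h0)
      rw [bnd_smul H] at h1
      have h2 : m * ‖u‖ ≤ Tri t (fun _ => 1) (fun _ => 1) u := by
        have := mul_le_mul_of_nonneg_right h1 hn.le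
        rwa [mul_comm (‖u‖⁻¹), mul_assoc, inv_mul_cancel₀ hn.ne', mul_one] at this
      have h3 : |u i| ≤ ‖u‖ := norm_le_pi_norm u i
      rw [inv_mul_eq_div, le_div_iff₀ hm]
      calc |u i| * m ≤ ‖u‖ * m := mul_le_mul_of_nonneg_right h3 hm.le
        _ ≤ _ := by rw [mul_comm]; exact h2

theorem bnd_row (H : Hdg A B t K) (n : ℕ) (u : ι → ℝ) (hu : u ∈ K) : u ᵥ* (A ^ n) ∈ K := by
  induction n with
  | zero => rwa [pow_zero, vecMul_one]
  | succ n ih => rw [pow_succ, ← vecMul_vecMul]; exact H.ma _ ih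

theorem bnd_one_sum (n : ℕ) : (fun _ => (1 : ℝ)) ᵥ* (A ^ n) =
    ∑ i : ι, (Pi.single i (1 : ℝ) : ι → ℝ) ᵥ* (A ^ n) := by
  rw [← sum_vecMul]
  congr 1
  funext j
  rw [Finset.sum_apply]
  simp [Pi.single_apply]

theorem bnd_T0 (H : Hdg A B t K) (n : ℕ) :
    0 ≤ Tri t ((fun _ => 1) ᵥ* (A ^ n)) (fun _ => 1) (fun _ => 1) :=
  H.nn _ (bnd_row H n _ (hdg_one H)) _ (hdg_one H) _ (hdg_one H)

theorem bnd (H : Hdg A B t K) : ∃ C : ℝ, 0 ≤ C ∧ ∀ (n : ℕ) (i j : ι),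
    |(A ^ n) i j| ≤ C * Tri t ((fun _ => 1) ᵥ* (A ^ n)) (fun _ => 1) (fun _ => 1) := by
  obtain ⟨C, hC, hb⟩ := bnd_K H
  refine ⟨C, hC, fun n i j => ?_⟩
  have hmem : ∀ i, (Pi.single i (1 : ℝ) : ι → ℝ) ᵥ* (A ^ n) ∈ K := fun i =>
    bnd_row H n _ (H.e i)
  have h1 : (A ^ n) i j = ((Pi.single i (1 : ℝ) : ι → ℝ) ᵥ* (A ^ n)) j := by
    rw [single_one_vecMul]
    rfl
  have h2 := hb _ (hmem i) j
  rw [← h1, bnd_rot H] at h2
  refine h2.trans (mul_le_mul_of_nonneg_left ?_ hC)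
  rw [bnd_one_sum, tri_sum₁]
  refine Finset.single_le_sum (f := fun i => Tri t ((Pi.single i (1 : ℝ) : ι → ℝ) ᵥ* (A ^ n))
    (fun _ => 1) (fun _ => 1)) (fun i _ => ?_) (Finset.mem_univ i)
  exact H.nn _ (hmem i) _ (hdg_one H) _ (hdg_one H)

/-- A left eigenvector. -/
theorem bnd_eig {M : Matrix ι ι ℂ} {z : ℂ} (hz : z ∈ M.charpoly.roots) :
    ∃ v : ι → ℂ, v ≠ 0 ∧ v ᵥ* M = z • v := by
  have h1 : M.charpoly.eval z = 0 := (Polynomial.mem_roots'.1 hz).2
  rw [Matrix.eval_charpoly] at h1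
  obtain ⟨v, hv, h2⟩ := exists_vecMul_eq_zero_iff.2 h1
  refine ⟨v, hv, ?_⟩
  rw [vecMul_sub, sub_eq_zero] at h2
  rw [← h2]
  funext i
  rw [scalar_apply, vecMul_diagonal, Pi.smul_apply, smul_eq_mul, mul_comm]

theorem bnd_eig_pow {M : Matrix ι ι ℂ} {z : ℂ} {v : ι → ℂ} (h : v ᵥ* M = z • v) (n : ℕ) :
    v ᵥ* (M ^ n) = z ^ n • v := by
  induction n with
  | zero => rw [pow_zero, pow_zero, vecMul_one, one_smul]
  | succ n ih => rw [pow_succ, ← vecMul_vecMul, ih, smul_vecMul, h, smul_smul, pow_succ]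

theorem bnd_map_pow (n : ℕ) (i j : ι) :
    ((A.map (algebraMap ℝ ℂ)) ^ n) i j = ((A ^ n) i j : ℂ) := by
  rw [← Matrix.map_pow]
  rfl

theorem bnd_low (H : Hdg A B t K) {z : ℂ} (hz : z ∈ (A.map (algebraMap ℝ ℂ)).charpoly.roots) :
    ∃ C : ℝ, 0 < C ∧ ∀ n : ℕ,
      ‖z‖ ^ n ≤ C * Tri t ((fun _ => 1) ᵥ* (A ^ n)) (fun _ => 1) (fun _ => 1) := by
  obtain ⟨v, hv, he⟩ := bnd_eig hz
  obtain ⟨C, hC, hb⟩ := bnd H
  obtain ⟨i, hi⟩ : ∃ i, v i ≠ 0 := by
    by_contra h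
    push Not at h
    exact hv (funext h)
  have hvi : 0 < ‖v i‖ := norm_pos_iff.2 hi
  refine ⟨(∑ j, ‖v j‖) * C / ‖v i‖ + 1, by positivity, fun n => ?_⟩
  set T := Tri t ((fun _ => 1) ᵥ* (A ^ n)) (fun _ => 1) (fun _ => 1) with hT
  have hT0 : 0 ≤ T := bnd_T0 H n
  have h1 := congrFun (bnd_eig_pow he n) i
  have h2 : ‖z‖ ^ n * ‖v i‖ ≤ (∑ j, ‖v j‖) * (C * T) := by
    have e1 : ‖z‖ ^ n * ‖v i‖ = ‖(z ^ n • v) i‖ := by
      rw [Pi.smul_apply, smul_eq_mul, norm_mul, norm_pow]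
    rw [e1, ← h1, vecMul, dotProduct, Finset.sum_mul]
    refine (norm_sum_le _ _).trans (Finset.sum_le_sum fun j _ => ?_)
    rw [norm_mul]
    refine mul_le_mul_of_nonneg_left ?_ (norm_nonneg _)
    rw [bnd_map_pow, Complex.norm_real, Real.norm_eq_abs]
    exact hb n j i
  have h3 : ‖z‖ ^ n ≤ (∑ j, ‖v j‖) * (C * T) / ‖v i‖ := by
    rw [le_div_iff₀ hvi]; exact h2
  refine h3.trans ?_
  have : (∑ j, ‖v j‖) * (C * T) / ‖v i‖ = (∑ j, ‖v j‖) * C / ‖v i‖ * T := by ring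
  rw [this]
  nlinarith

/-- limit of `n`-th roots of a constant -/
theorem bnd_root {C : ℝ} (hC : 0 < C) :
    Tendsto (fun n : ℕ => C ^ ((1 : ℝ) / n)) atTop (𝓝 1) := by
  have h1 : Tendsto (fun n : ℕ => (1 : ℝ) / n) atTop (𝓝 0) := tendsto_one_div_atTop_nhds_zero_nat
  have h2 := (Real.continuousAt_const_rpow (b := 0) hC.ne').tendsto.comp h1
  rw [Real.rpow_zero] at h2
  exact h2

theorem bnd_pow_root {x : ℝ} (hx : 0 ≤ x) {n : ℕ} (hn : n ≠ 0) : (x ^ n) ^ ((1 : ℝ) / n) = x := by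
  rw [one_div]
  exact Real.pow_rpow_inv_natCast hx hn

theorem spec_le (H : Hdg A B t K) (δ : ℝ) (hδ : 0 < δ) (hg : Grt A t δ) :
    ∀ z ∈ (A.map (algebraMap ℝ ℂ)).charpoly.roots, ‖z‖ ≤ δ := by
  intro z hz
  obtain ⟨C, hC, hb⟩ := bnd_low H hz
  have h1 := (bnd_root hC).mul hg
  rw [one_mul] at h1
  refine ge_of_tendsto h1 ?_
  filter_upwards [eventually_gt_atTop 0] with n hn
  have h2 := Real.rpow_le_rpow (by positivity) (hb n) (show 0 ≤ (1 : ℝ) / n by positivity)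
  rw [bnd_pow_root (norm_nonneg z) hn.ne', Real.mul_rpow hC.le (bnd_T0 H n)] at h2
  exact h2

private theorem spec_cons (B : Matrix ι ι ℂ) (s : Multiset ℂ) (z : ℂ) (v : ι → ℂ) :
    (Polynomial.aeval B (LLC.rts (z ::ₘ s))).mulVec v =
      (Polynomial.aeval B (LLC.rts s)).mulVec (B.mulVec v - z • v) := by
  have h1 : LLC.rts (z ::ₘ s) = LLC.rts s * (Polynomial.X - Polynomial.C z) := by
    rw [LLC.rts, Multiset.map_cons, Multiset.prod_cons, mul_comm, LLC.rts]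
  have h2 : (Polynomial.aeval B (Polynomial.X - Polynomial.C z)).mulVec v =
      B.mulVec v - z • v := by
    rw [map_sub, Polynomial.aeval_X, Polynomial.aeval_C, Matrix.sub_mulVec,
      Algebra.algebraMap_eq_smul_one, Matrix.smul_mulVec, Matrix.one_mulVec]
  rw [h1, map_mul, ← Matrix.mulVec_mulVec, h2]

/-- vectors killed by a polynomial with roots of modulus `< r` grow at most like `r ^ n` -/
theorem bnd_up (B : Matrix ι ι ℂ) (r : ℝ) (hr : 0 < r) (s : Multiset ℂ) :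
    (∀ z ∈ s, ‖z‖ < r) → ∀ v : ι → ℂ, (Polynomial.aeval B (LLC.rts s)).mulVec v = 0 →
      ∃ K : ℝ, 0 ≤ K ∧ ∀ n : ℕ, ‖(B ^ n).mulVec v‖ ≤ K * r ^ n := by
  induction s using Multiset.induction_on with
  | empty =>
    intro _ v hv
    have h1 : LLC.rts (0 : Multiset ℂ) = 1 := by
      rw [LLC.rts, Multiset.map_zero, Multiset.prod_zero]
    rw [h1, map_one, Matrix.one_mulVec] at hv
    refine ⟨0, le_rfl, fun n => ?_⟩
    rw [hv, Matrix.mulVec_zero, norm_zero, zero_mul]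
  | cons z s ih =>
    intro hs v hv
    have hz : ‖z‖ < r := hs z (Multiset.mem_cons_self z s)
    rw [spec_cons] at hv
    obtain ⟨K, hK, hb⟩ := ih (fun y hy => hs y (Multiset.mem_cons_of_mem hy)) _ hv
    set w := B.mulVec v - z • v with hw
    have hBv : B.mulVec v = w + z • v := by rw [hw]; abel
    have hd : 0 < r - ‖z‖ := by linarith
    refine ⟨max ‖v‖ (K / (r - ‖z‖)), le_max_of_le_left (norm_nonneg _), fun n => ?_⟩
    set M := max ‖v‖ (K / (r - ‖z‖)) with hM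
    have hKM : K ≤ M * (r - ‖z‖) := by
      rw [← div_le_iff₀ hd]
      exact le_max_right _ _
    induction n with
    | zero =>
      rw [pow_zero, pow_zero, Matrix.one_mulVec, mul_one]
      exact le_max_left _ _
    | succ n ihn =>
      have e1 : (B ^ (n + 1)).mulVec v = (B ^ n).mulVec w + z • (B ^ n).mulVec v := by
        rw [pow_succ, ← Matrix.mulVec_mulVec, hBv, Matrix.mulVec_add, Matrix.mulVec_smul]
      have hrn : 0 ≤ r ^ n := by positivity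
      calc ‖(B ^ (n + 1)).mulVec v‖ ≤ ‖(B ^ n).mulVec w‖ + ‖z • (B ^ n).mulVec v‖ := by
            rw [e1]; exact norm_add_le _ _
        _ ≤ K * r ^ n + ‖z‖ * (M * r ^ n) := by
            rw [norm_smul]
            exact add_le_add (hb n) (mul_le_mul_of_nonneg_left ihn (norm_nonneg _))
        _ ≤ M * (r - ‖z‖) * r ^ n + ‖z‖ * (M * r ^ n) := by
            have := mul_le_mul_of_nonneg_right hKM hrn
            linarith
        _ = M * r ^ (n + 1) := by ring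

/-- the entries of the powers of a matrix, all eigenvalues of modulus `< r` -/
theorem bnd_entries (M : Matrix ι ι ℂ) (r : ℝ) (hr : 0 < r)
    (h : ∀ z ∈ M.charpoly.roots, ‖z‖ < r) :
    ∃ C : ℝ, 0 ≤ C ∧ ∀ (n : ℕ) (i j : ι), ‖(M ^ n) i j‖ ≤ C * r ^ n := by
  have hchar : LLC.rts M.charpoly.roots = M.charpoly := by
    have h3 := (IsAlgClosed.splits M.charpoly).eq_prod_roots_of_monic M.charpoly_monic
    rw [LLC.rts]
    exact h3.symm
  have hk : ∀ j : ι, ∃ K : ℝ, 0 ≤ K ∧ ∀ n : ℕ,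
      ‖(M ^ n).mulVec (Pi.single j 1)‖ ≤ K * r ^ n := fun j => by
    refine bnd_up M r hr _ h _ ?_
    rw [hchar, Matrix.aeval_self_charpoly, Matrix.zero_mulVec]
  choose K hK hb using hk
  refine ⟨∑ j, K j, Finset.sum_nonneg fun j _ => hK j, fun n i j => ?_⟩
  have h1 : (M ^ n) i j = ((M ^ n).mulVec (Pi.single j 1)) i := by
    rw [mulVec_single_one]
    rfl
  rw [h1]
  refine (norm_le_pi_norm _ i).trans ((hb j n).trans ?_)
  refine mul_le_mul_of_nonneg_right ?_ (by positivity)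
  exact Finset.single_le_sum (fun j _ => hK j) (Finset.mem_univ j)

theorem spec_ge (H : Hdg A B t K) (δ : ℝ) (hδ : 1 < δ) (hg : Grt A t δ) :
    ∃ c : ℝ, 0 < c ∧ ∀ n : ℕ,
      c * δ ^ n ≤ Tri t ((fun _ => 1) ᵥ* (A ^ n)) (fun _ => 1) (fun _ => 1) := by
  by_cases hall : ∀ z ∈ (A.map (algebraMap ℝ ℂ)).charpoly.roots, ‖z‖ < δ
  · exfalso
    -- a radius r < δ
    obtain ⟨r, hr0, hrδ, hr⟩ : ∃ r : ℝ, 0 < r ∧ r < δ ∧
        ∀ z ∈ (A.map (algebraMap ℝ ℂ)).charpoly.roots, ‖z‖ < r := by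
      generalize (A.map (algebraMap ℝ ℂ)).charpoly.roots = s at hall
      induction s using Multiset.induction_on with
      | empty => exact ⟨1, one_pos, hδ, fun z hz => absurd hz (Multiset.notMem_zero z)⟩
      | cons w s ih =>
        obtain ⟨r, h1, h2, h3⟩ := ih fun z hz => hall z (Multiset.mem_cons_of_mem hz)
        have hw := hall w (Multiset.mem_cons_self w s)
        refine ⟨max r ((‖w‖ + δ) / 2), lt_max_of_lt_left h1, max_lt h2 (by linarith), ?_⟩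
        intro z hz
        rcases Multiset.mem_cons.1 hz with h | h
        · rw [h]; exact lt_max_of_lt_right (by linarith)
        · exact lt_max_of_lt_left (h3 z h)
    obtain ⟨C, hC, hb⟩ := bnd_entries _ r hr0 hr
    obtain ⟨Ct, hCt, hbt⟩ := tri_bound t
    -- the bound of T
    have hT : ∀ n : ℕ, Tri t ((fun _ => 1) ᵥ* (A ^ n)) (fun _ => 1) (fun _ => 1) ≤
        (Ct * (Fintype.card ι * C) + 1) * r ^ n := by
      intro n
      have h1 : ∀ i, |((fun _ => (1 : ℝ)) ᵥ* (A ^ n)) i| ≤ Fintype.card ι * (C * r ^ n) := by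
        intro i
        rw [vecMul, dotProduct]
        refine (Finset.abs_sum_le_sum_abs _ _).trans ?_
        have h2 : ∀ j ∈ (Finset.univ : Finset ι), |1 * (A ^ n) j i| ≤ C * r ^ n := by
          intro j _
          have := hb n j i
          rw [bnd_map_pow, Complex.norm_real, Real.norm_eq_abs] at this
          rwa [one_mul]
        refine (Finset.sum_le_card_nsmul _ _ _ h2).trans (le_of_eq ?_)
        rw [Finset.card_univ, nsmul_eq_mul]
      have h3 := hbt _ (fun _ => 1) (fun _ => 1) _ 1 1 h1 (fun i => by simp) (fun i => by simp)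
      have h4 := (le_abs_self _).trans h3
      have h5 : 0 ≤ r ^ n := by positivity
      nlinarith
    set C' := Ct * (Fintype.card ι * C) + 1 with hC'
    have hC'0 : 0 < C' := by positivity
    have h1 := (bnd_root hC'0).mul_const r
    rw [one_mul] at h1
    have h2 : δ ≤ r := by
      refine le_of_tendsto_of_tendsto hg h1 ?_
      filter_upwards [eventually_gt_atTop 0] with n hn
      have h2 := Real.rpow_le_rpow (bnd_T0 H n) (hT n) (show 0 ≤ (1 : ℝ) / n by positivity)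
      rw [Real.mul_rpow hC'0.le (by positivity), bnd_pow_root hr0.le hn.ne'] at h2
      exact h2
    linarith
  · push Not at hall
    obtain ⟨z, hz, hzδ⟩ := hall
    obtain ⟨C, hC, hb⟩ := bnd_low H hz
    refine ⟨C⁻¹, by positivity, fun n => ?_⟩
    rw [inv_mul_le_iff₀ hC]
    exact (pow_le_pow_left₀ (by linarith) hzδ n).trans (hb n)

end Pool.Agent.HDG
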