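import Pool.Agent.HDG.Lor

/-!
# HDG CONE: the cone of the classes of the iterates

(1) Let `u i ∈ Cn A B` (`i = 1, 2, 3`), given by `n i, m i, c i`. They can be given by the same `n`, `m`: for
`s : ℕ` let `c' b = c (b.1 - s, b.2)` if `s ≤ b.1` (and `b.1 - s ≤ n`), else `0`, on `Fin (n + s + 1) × ι`; then
`cls A c' = cls A c ᵥ* A ^ s`, so `cls A c ᵥ* B ^ m = cls A c' ᵥ* B ^ (m + s)` (`A * B = 1`, commuting powers);
`n` can be enlarged by zeros. (Work with real matrices `A.map Int.cast`, `(A ^ k).map = (A.map) ^ k`.)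
By the invariance (`inv` for `A`, so for `B`) `Tri t (u₀ ᵥ* B ^ m) (v₀ ᵥ* B ^ m) (w₀ ᵥ* B ^ m) = Tri t u₀ v₀ w₀`: the
inequalities for `Cn A B` follow from those for `cls A c` with real `c ≥ 0`; these are limits of
`(k⁻¹) • cls A (rv c_k)`, `c_k = ⌊k c⌋₊` (`tri_cont`, continuity of `cls A` (a finite sum), homogeneity), so they
follow from `hnn`, `hkt`. By continuity (`tri_cont`) they hold on the closure.
(2) `Cn A B` is closed under sums (common `n`, `m`), multiples by `r ≥ 0`, `ᵥ* B` (`m + 1`) and `ᵥ* A` (shift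
by `1`), contains `e i` (`n = m = 0`); the closure inherits this (`map_mem_closure`, continuity of `ᵥ*`).
-/

open Matrix

namespace Pool.Agent.HDG

open Pool.Agent.KST

variable {ι : Type*} [Fintype ι] [DecidableEq ι]

/-- The cone of the classes which are combinations of the pull backs of the `e i` by the iterates. -/
def Cn (A B : Matrix ι ι ℤ) : Set (ι → ℝ) :=
  {u | ∃ (n m : ℕ) (c : Fin (n + 1) × ι → ℝ), (∀ b, 0 ≤ c b) ∧
    u = cls A c ᵥ* ((B.map (Int.cast : ℤ → ℝ)) ^ m)}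

section aux

/-- the real matrix -/
private def cnR (A : Matrix ι ι ℤ) : Matrix ι ι ℝ := A.map (Int.cast : ℤ → ℝ)

private lemma cnR_eq (A : Matrix ι ι ℤ) : cnR A = (Int.castRingHom ℝ).mapMatrix A := rfl

private lemma cnR_pow (A : Matrix ι ι ℤ) (n : ℕ) (k i : ι) :
    ((cnR A) ^ n) k i = (((A ^ n) k i : ℤ) : ℝ) := by
  rw [cnR_eq, ← map_pow]
  rfl

private lemma cnR_mul {A B : Matrix ι ι ℤ} (hAB : A * B = 1) : cnR A * cnR B = 1 := by
  rw [cnR_eq, cnR_eq, ← map_mul, hAB, map_one]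

private lemma cn_rep (A : Matrix ι ι ℤ) (n : ℕ) (C : ℕ → ι → ℝ) :
    cls A (fun b : Fin (n + 1) × ι => C b.1 b.2) =
      ∑ j ∈ Finset.range (n + 1), C j ᵥ* (cnR A) ^ j := by
  funext i
  unfold cls
  rw [Finset.sum_apply, Fintype.sum_prod_type,
    Fin.sum_univ_eq_sum_range (fun j => ∑ k : ι, C j k * (((A ^ j) k i : ℤ) : ℝ)) (n + 1)]
  refine Finset.sum_congr rfl fun j _ => ?_
  simp only [Matrix.vecMul, dotProduct, cnR_pow]

omit [Fintype ι] [DecidableEq ι] in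
private lemma cn_ext (n : ℕ) (c : Fin (n + 1) × ι → ℝ) (hc : ∀ b, 0 ≤ c b) :
    ∃ C : ℕ → ι → ℝ, (∀ j i, 0 ≤ C j i) ∧ c = fun b => C b.1 b.2 := by
  refine ⟨fun j i => if h : j < n + 1 then c (⟨j, h⟩, i) else 0, ?_, ?_⟩
  · intro j i
    dsimp only
    split_ifs with h
    · exact hc _
    · exact le_rfl
  · funext b
    dsimp only
    rw [dif_pos b.1.2]

/-- shift and enlargement -/
private lemma cn_shift (A : Matrix ι ι ℤ) (n s N : ℕ) (hN : n + s ≤ N) (c : Fin (n + 1) × ι → ℝ)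
    (hc : ∀ b, 0 ≤ c b) :
    ∃ c' : Fin (N + 1) × ι → ℝ, (∀ b, 0 ≤ c' b) ∧ cls A c' = cls A c ᵥ* (cnR A) ^ s := by
  obtain ⟨C, hC, rfl⟩ := cn_ext n c hc
  refine ⟨fun b => if s ≤ (b.1 : ℕ) ∧ (b.1 : ℕ) < s + (n + 1) then C (b.1 - s) b.2 else 0, ?_, ?_⟩
  · intro b
    dsimp only
    split_ifs with h
    · exact hC _ _
    · exact le_rfl
  · have h1 := cn_rep A N (fun j i => if s ≤ j ∧ j < s + (n + 1) then C (j - s) i else 0)
    rw [show (fun b : Fin (N + 1) × ι => if s ≤ (b.1 : ℕ) ∧ (b.1 : ℕ) < s + (n + 1) then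
      C (b.1 - s) b.2 else 0) = fun b => (fun j i => if s ≤ j ∧ j < s + (n + 1) then
      C (j - s) i else 0) (b.1 : ℕ) b.2 from rfl, h1, cn_rep]
    obtain ⟨r, hr⟩ : ∃ r, N + 1 = s + (n + 1) + r := ⟨N - (n + s), by omega⟩
    rw [hr, Finset.sum_range_add, Finset.sum_range_add]
    have e1 : ∑ x ∈ Finset.range s, (fun i => if s ≤ x ∧ x < s + (n + 1) then C (x - s) i else 0)
        ᵥ* (cnR A) ^ x = 0 := by
      refine Finset.sum_eq_zero fun x hx => ?_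
      have hx' := Finset.mem_range.1 hx
      have e2 : (fun i => if s ≤ x ∧ x < s + (n + 1) then C (x - s) i else (0 : ℝ)) = 0 := by
        funext i
        rw [if_neg (by omega)]
        rfl
      rw [e2, Matrix.zero_vecMul]
    have e3 : ∑ x ∈ Finset.range r, (fun i => if s ≤ s + (n + 1) + x ∧ s + (n + 1) + x < s + (n + 1)
        then C (s + (n + 1) + x - s) i else 0) ᵥ* (cnR A) ^ (s + (n + 1) + x) = 0 := by
      refine Finset.sum_eq_zero fun x hx => ?_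
      have e2 : (fun i => if s ≤ s + (n + 1) + x ∧ s + (n + 1) + x < s + (n + 1)
          then C (s + (n + 1) + x - s) i else (0 : ℝ)) = 0 := by
        funext i
        rw [if_neg (by omega)]
        rfl
      rw [e2, Matrix.zero_vecMul]
    rw [e1, e3, zero_add, add_zero, Matrix.sum_vecMul]
    refine Finset.sum_congr rfl fun x hx => ?_
    have hx' := Finset.mem_range.1 hx
    have e2 : (fun i => if s ≤ s + x ∧ s + x < s + (n + 1) then C (s + x - s) i else (0 : ℝ)) =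
        C x := by
      funext i
      rw [if_pos (by omega), Nat.add_sub_cancel_left]
    rw [e2, Matrix.vecMul_vecMul, ← pow_add, Nat.add_comm]

private lemma cn_pow_mul {A B : Matrix ι ι ℤ} (hAB : A * B = 1) (s m : ℕ) :
    (cnR A) ^ s * (cnR B) ^ (s + m) = (cnR B) ^ m := by
  have h1 : Commute (cnR A) (cnR B) := by
    show cnR A * cnR B = cnR B * cnR A
    rw [cnR_mul hAB, cnR_mul (mul_eq_one_comm.1 hAB)]
  rw [pow_add, ← mul_assoc, ← h1.mul_pow, cnR_mul hAB, one_pow, one_mul]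

/-- common parameters -/
private lemma cn_common {A B : Matrix ι ι ℤ} (hAB : A * B = 1) {u : ι → ℝ} (hu : u ∈ Cn A B) :
    ∃ n m : ℕ, ∀ M, m ≤ M → ∀ N, n + M ≤ N → ∃ c : Fin (N + 1) × ι → ℝ, (∀ b, 0 ≤ c b) ∧
      u = cls A c ᵥ* (cnR B) ^ M := by
  obtain ⟨n, m, c, hc, rfl⟩ := hu
  refine ⟨n, m, fun M hM N hN => ?_⟩
  obtain ⟨c', hc', h1⟩ := cn_shift A n (M - m) N (by omega) c hc
  refine ⟨c', hc', ?_⟩
  rw [h1, Matrix.vecMul_vecMul]
  have h2 := cn_pow_mul hAB (M - m) m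
  rw [Nat.sub_add_cancel hM] at h2
  rw [h2]
  rfl

private lemma cn_three {A B : Matrix ι ι ℤ} (hAB : A * B = 1) {u v w : ι → ℝ} (hu : u ∈ Cn A B)
    (hv : v ∈ Cn A B) (hw : w ∈ Cn A B) :
    ∃ N M : ℕ, ∃ a b c : Fin (N + 1) × ι → ℝ, (∀ x, 0 ≤ a x) ∧ (∀ x, 0 ≤ b x) ∧ (∀ x, 0 ≤ c x) ∧
      u = cls A a ᵥ* (cnR B) ^ M ∧ v = cls A b ᵥ* (cnR B) ^ M ∧ w = cls A c ᵥ* (cnR B) ^ M := by
  obtain ⟨n₁, m₁, h₁⟩ := cn_common hAB hu
  obtain ⟨n₂, m₂, h₂⟩ := cn_common hAB hv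
  obtain ⟨n₃, m₃, h₃⟩ := cn_common hAB hw
  obtain ⟨a, ha, ha'⟩ := h₁ (m₁ + m₂ + m₃) (by omega) (n₁ + n₂ + n₃ + (m₁ + m₂ + m₃)) (by omega)
  obtain ⟨b, hb, hb'⟩ := h₂ (m₁ + m₂ + m₃) (by omega) (n₁ + n₂ + n₃ + (m₁ + m₂ + m₃)) (by omega)
  obtain ⟨c, hc, hc'⟩ := h₃ (m₁ + m₂ + m₃) (by omega) (n₁ + n₂ + n₃ + (m₁ + m₂ + m₃)) (by omega)
  exact ⟨_, _, a, b, c, ha, hb, hc, ha', hb', hc'⟩

private lemma cn_inv (M : Matrix ι ι ℝ) (t : ι → ι → ι → ℝ)
    (h : ∀ u v w : ι → ℝ, Tri t (u ᵥ* M) (v ᵥ* M) (w ᵥ* M) = Tri t u v w) (k : ℕ)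
    (u v w : ι → ℝ) : Tri t (u ᵥ* M ^ k) (v ᵥ* M ^ k) (w ᵥ* M ^ k) = Tri t u v w := by
  induction k with
  | zero => simp
  | succ k ih =>
    rw [pow_succ, ← Matrix.vecMul_vecMul, ← Matrix.vecMul_vecMul, ← Matrix.vecMul_vecMul, h, ih]

omit [DecidableEq ι] in
private lemma cn_smul₂ (t : ι → ι → ι → ℝ) (r : ℝ) (u v w : ι → ℝ) :
    Tri t u (r • v) w = r * Tri t u v w := by
  unfold Tri
  rw [Finset.mul_sum]
  refine Finset.sum_congr rfl fun i _ => ?_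
  rw [Finset.mul_sum]
  refine Finset.sum_congr rfl fun j _ => ?_
  rw [Finset.mul_sum]
  refine Finset.sum_congr rfl fun k _ => ?_
  rw [Pi.smul_apply, smul_eq_mul]
  ring

omit [DecidableEq ι] in
private lemma cn_smul₃ (t : ι → ι → ι → ℝ) (r : ℝ) (u v w : ι → ℝ) :
    Tri t u v (r • w) = r * Tri t u v w := by
  unfold Tri
  rw [Finset.mul_sum]
  refine Finset.sum_congr rfl fun i _ => ?_
  rw [Finset.mul_sum]
  refine Finset.sum_congr rfl fun j _ => ?_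
  rw [Finset.mul_sum]
  refine Finset.sum_congr rfl fun k _ => ?_
  rw [Pi.smul_apply, smul_eq_mul]
  ring

/-- approximation of nonnegative vectors -/
private lemma cn_approx {κ : Type*} (a : κ → ℝ) (ha : ∀ x, 0 ≤ a x) :
    Filter.Tendsto (fun k : ℕ => ((k : ℝ)⁻¹) • rv (fun x => ⌊a x * (k : ℝ)⌋₊)) Filter.atTop
      (nhds a) := by
  rw [tendsto_pi_nhds]
  intro x
  have h := (tendsto_nat_floor_mul_div_atTop (ha x)).comp (tendsto_natCast_atTop_atTop (R := ℝ))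
  refine h.congr fun k => ?_
  simp only [Function.comp_apply, Pi.smul_apply, smul_eq_mul, rv]
  rw [div_eq_inv_mul]

private lemma cn_cls_cont (A : Matrix ι ι ℤ) (n : ℕ) :
    Continuous (fun c : Fin (n + 1) × ι → ℝ => cls A c) := by
  unfold cls
  fun_prop

private lemma cn_tri_tendsto (A : Matrix ι ι ℤ) (t : ι → ι → ι → ℝ) (n : ℕ)
    (a b c : Fin (n + 1) × ι → ℝ) (ha : ∀ x, 0 ≤ a x) (hb : ∀ x, 0 ≤ b x) (hc : ∀ x, 0 ≤ c x) :
    Filter.Tendsto (fun k : ℕ => ((k : ℝ)⁻¹) ^ 3 *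
      Tri t (cls A (rv fun x => ⌊a x * (k : ℝ)⌋₊)) (cls A (rv fun x => ⌊b x * (k : ℝ)⌋₊))
        (cls A (rv fun x => ⌊c x * (k : ℝ)⌋₊))) Filter.atTop
      (nhds (Tri t (cls A a) (cls A b) (cls A c))) := by
  have h1 := ((cn_cls_cont A n).tendsto a).comp (cn_approx a ha)
  have h2 := ((cn_cls_cont A n).tendsto b).comp (cn_approx b hb)
  have h3 := ((cn_cls_cont A n).tendsto c).comp (cn_approx c hc)
  have h4 := ((tri_cont t).tendsto (cls A a, cls A b, cls A c)).comp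
    (h1.prodMk_nhds (h2.prodMk_nhds h3))
  refine h4.congr fun k => ?_
  simp only [Function.comp_apply, cls_smul, tri_smul₁, cn_smul₂, cn_smul₃]
  ring

end aux

theorem cone (A B : Matrix ι ι ℤ) (hAB : A * B = 1) (t : ι → ι → ι → ℝ)
    (hs₁ : ∀ i j k, t i j k = t j i k) (hs₂ : ∀ i j k, t i j k = t i k j)
    (hinv : ∀ u v w : ι → ℝ, Tri t (u ᵥ* (A.map (Int.cast : ℤ → ℝ)))
      (v ᵥ* (A.map (Int.cast : ℤ → ℝ))) (w ᵥ* (A.map (Int.cast : ℤ → ℝ))) = Tri t u v w)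
    (hnn : ∀ (n : ℕ) (a b c : Fin (n + 1) × ι → ℕ),
      0 ≤ Tri t (cls A (rv a)) (cls A (rv b)) (cls A (rv c)))
    (hkt : ∀ (n : ℕ) (a b c : Fin (n + 1) × ι → ℕ),
      Tri t (cls A (rv a)) (cls A (rv a)) (cls A (rv c)) *
        Tri t (cls A (rv b)) (cls A (rv b)) (cls A (rv c)) ≤
      Tri t (cls A (rv a)) (cls A (rv b)) (cls A (rv c)) ^ 2)
    (hpos : 0 < Tri t (fun _ => 1) (fun _ => 1) (fun _ => 1))
    (hnd : ∀ v, (∀ j k, Tri t v (Pi.single j 1) (Pi.single k 1) = 0) → v = 0) :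
    Hdg (A.map (Int.cast : ℤ → ℝ)) (B.map (Int.cast : ℤ → ℝ)) t (closure (Cn A B)) := by
  have hAr : cnR A * cnR B = 1 := cnR_mul hAB
  have hBr : cnR B * cnR A = 1 := cnR_mul (mul_eq_one_comm.1 hAB)
  have hinvB : ∀ u v w : ι → ℝ, Tri t (u ᵥ* cnR B) (v ᵥ* cnR B) (w ᵥ* cnR B) = Tri t u v w := by
    intro u v w
    have h1 := hinv (u ᵥ* cnR B) (v ᵥ* cnR B) (w ᵥ* cnR B)
    have h2 : ∀ x : ι → ℝ, (x ᵥ* cnR B) ᵥ* (A.map (Int.cast : ℤ → ℝ)) = x := by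
      intro x
      show (x ᵥ* cnR B) ᵥ* cnR A = x
      rw [Matrix.vecMul_vecMul, hBr, Matrix.vecMul_one]
    rw [h2, h2, h2] at h1
    exact h1.symm
  have hcm : ∀ m : ℕ, (cnR B) ^ m * cnR A = cnR A * (cnR B) ^ m := by
    intro m
    have h1 : Commute (cnR B) (cnR A) := by
      show cnR B * cnR A = cnR A * cnR B
      rw [hAr, hBr]
    exact (h1.pow_left m)
  -- the inequalities for real coefficients
  have hnnR : ∀ (n : ℕ) (a b c : Fin (n + 1) × ι → ℝ), (∀ x, 0 ≤ a x) → (∀ x, 0 ≤ b x) →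
      (∀ x, 0 ≤ c x) → 0 ≤ Tri t (cls A a) (cls A b) (cls A c) := by
    intro n a b c ha hb hc
    refine ge_of_tendsto' (cn_tri_tendsto A t n a b c ha hb hc) fun k => ?_
    exact mul_nonneg (by positivity) (hnn n _ _ _)
  have hktR : ∀ (n : ℕ) (a b c : Fin (n + 1) × ι → ℝ), (∀ x, 0 ≤ a x) → (∀ x, 0 ≤ b x) →
      (∀ x, 0 ≤ c x) → Tri t (cls A a) (cls A a) (cls A c) * Tri t (cls A b) (cls A b) (cls A c) ≤
        Tri t (cls A a) (cls A b) (cls A c) ^ 2 := by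
    intro n a b c ha hb hc
    refine le_of_tendsto_of_tendsto'
      ((cn_tri_tendsto A t n a a c ha ha hc).mul (cn_tri_tendsto A t n b b c hb hb hc))
      ((cn_tri_tendsto A t n a b c ha hb hc).pow 2) fun k => ?_
    have h1 := hkt n (fun x => ⌊a x * (k : ℝ)⌋₊) (fun x => ⌊b x * (k : ℝ)⌋₊)
      (fun x => ⌊c x * (k : ℝ)⌋₊)
    have h2 : (0 : ℝ) ≤ ((k : ℝ)⁻¹) ^ 6 := by positivity
    have h3 := mul_le_mul_of_nonneg_left h1 h2
    calc _ = ((k : ℝ)⁻¹) ^ 6 * (Tri t (cls A (rv fun x => ⌊a x * (k : ℝ)⌋₊))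
          (cls A (rv fun x => ⌊a x * (k : ℝ)⌋₊)) (cls A (rv fun x => ⌊c x * (k : ℝ)⌋₊)) *
        Tri t (cls A (rv fun x => ⌊b x * (k : ℝ)⌋₊)) (cls A (rv fun x => ⌊b x * (k : ℝ)⌋₊))
          (cls A (rv fun x => ⌊c x * (k : ℝ)⌋₊))) := by ring
      _ ≤ _ := h3
      _ = _ := by ring
  -- the inequalities on `Cn`
  have hnnC : ∀ u ∈ Cn A B, ∀ v ∈ Cn A B, ∀ w ∈ Cn A B, 0 ≤ Tri t u v w := by
    intro u hu v hv w hw
    obtain ⟨N, M, a, b, c, ha, hb, hc, rfl, rfl, rfl⟩ := cn_three hAB hu hv hw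
    rw [cn_inv (cnR B) t hinvB]
    exact hnnR N a b c ha hb hc
  have hktC : ∀ u ∈ Cn A B, ∀ v ∈ Cn A B, ∀ w ∈ Cn A B,
      Tri t u u w * Tri t v v w ≤ Tri t u v w ^ 2 := by
    intro u hu v hv w hw
    obtain ⟨N, M, a, b, c, ha, hb, hc, rfl, rfl, rfl⟩ := cn_three hAB hu hv hw
    rw [cn_inv (cnR B) t hinvB, cn_inv (cnR B) t hinvB, cn_inv (cnR B) t hinvB]
    exact hktR N a b c ha hb hc
  -- the closure
  have hclo : ∀ P : (ι → ℝ) × (ι → ℝ) × (ι → ℝ) → Prop, IsClosed {p | P p} →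
      (∀ u ∈ Cn A B, ∀ v ∈ Cn A B, ∀ w ∈ Cn A B, P (u, v, w)) →
      ∀ u ∈ closure (Cn A B), ∀ v ∈ closure (Cn A B), ∀ w ∈ closure (Cn A B), P (u, v, w) := by
    intro P hP h u hu v hv w hw
    have h1 : (u, v, w) ∈ closure (Cn A B ×ˢ (Cn A B ×ˢ Cn A B)) := by
      rw [closure_prod_eq, closure_prod_eq]
      exact ⟨hu, hv, hw⟩
    have h2 : closure (Cn A B ×ˢ (Cn A B ×ˢ Cn A B)) ⊆ {p | P p} := by
      refine closure_minimal ?_ hP
      rintro ⟨x, y, z⟩ ⟨hx, hy, hz⟩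
      exact h x hx y hy z hz
    exact h2 h1
  have hTc := tri_cont t
  refine ⟨hAr, hs₁, hs₂, hinv, ?_, ?_, isClosed_closure, ?_, ?_, ?_, ?_, ?_, hpos, hnd⟩
  · intro u hu v hv
    refine map_mem_closure₂ continuous_add hu hv fun x hx y hy => ?_
    obtain ⟨N, M, a, b, c, ha, hb, hc, rfl, rfl, h3⟩ := cn_three hAB hx hy hy
    refine ⟨N, M, a + b, fun x => add_nonneg (ha x) (hb x), ?_⟩
    rw [cls_add, Matrix.add_vecMul]
    rfl
  · intro u hu r hr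
    refine map_mem_closure (continuous_const_smul r) hu fun x hx => ?_
    obtain ⟨n, m, c, hc, rfl⟩ := hx
    refine ⟨n, m, r • c, fun b => mul_nonneg hr (hc b), ?_⟩
    rw [cls_smul, Matrix.smul_vecMul]
  · intro i
    refine subset_closure ⟨0, 0, fun b => (Pi.single i (1 : ℝ) : ι → ℝ) b.2, ?_, ?_⟩
    · intro b
      dsimp only
      by_cases h : b.2 = i
      · rw [h, Pi.single_eq_same]
        exact zero_le_one
      · rw [Pi.single_eq_of_ne h]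
    · rw [pow_zero, Matrix.vecMul_one]
      have h1 := cn_rep A 0 (fun _ => Pi.single i (1 : ℝ))
      rw [h1, Finset.sum_range_one, pow_zero, Matrix.vecMul_one]
  · intro u hu
    refine map_mem_closure (f := fun u : ι → ℝ => u ᵥ* (A.map (Int.cast : ℤ → ℝ)))
      (Continuous.matrix_vecMul continuous_id continuous_const) hu fun x hx => ?_
    obtain ⟨n, m, c, hc, rfl⟩ := hx
    obtain ⟨c', hc', h1⟩ := cn_shift A n 1 (n + 1) (by omega) c hc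
    refine ⟨n + 1, m, c', hc', ?_⟩
    rw [h1, pow_one]
    show (cls A c ᵥ* (cnR B) ^ m) ᵥ* cnR A = (cls A c ᵥ* cnR A) ᵥ* (cnR B) ^ m
    rw [Matrix.vecMul_vecMul, Matrix.vecMul_vecMul, hcm]
  · intro u hu
    refine map_mem_closure (f := fun u : ι → ℝ => u ᵥ* (B.map (Int.cast : ℤ → ℝ)))
      (Continuous.matrix_vecMul continuous_id continuous_const) hu fun x hx => ?_
    obtain ⟨n, m, c, hc, rfl⟩ := hx
    refine ⟨n, m + 1, c, hc, ?_⟩
    show (cls A c ᵥ* (B.map (Int.cast : ℤ → ℝ)) ^ m) ᵥ* (B.map (Int.cast : ℤ → ℝ)) = _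
    rw [Matrix.vecMul_vecMul, pow_succ]
  · exact hclo (fun p => 0 ≤ Tri t p.1 p.2.1 p.2.2)
      (isClosed_le continuous_const hTc) hnnC
  · refine hclo (fun p => Tri t p.1 p.1 p.2.2 * Tri t p.2.1 p.2.1 p.2.2 ≤
      Tri t p.1 p.2.1 p.2.2 ^ 2) (isClosed_le ?_ ?_) hktC
    · have c1 : Continuous fun p : (ι → ℝ) × (ι → ℝ) × (ι → ℝ) => Tri t p.1 p.1 p.2.2 :=
        hTc.comp (f := fun p : (ι → ℝ) × (ι → ℝ) × (ι → ℝ) => (p.1, p.1, p.2.2)) (by fun_prop)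
      have c2 : Continuous fun p : (ι → ℝ) × (ι → ℝ) × (ι → ℝ) => Tri t p.2.1 p.2.1 p.2.2 :=
        hTc.comp (f := fun p : (ι → ℝ) × (ι → ℝ) × (ι → ℝ) => (p.2.1, p.2.1, p.2.2)) (by fun_prop)
      exact c1.mul c2
    · exact hTc.pow 2

end Pool.Agent.HDG
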