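import Pool.Agent.KST.Rmb

/-!
# HDG: definitions

The inequality of Khovanskii and Teissier, by elementary methods.
-/

open Polynomial

namespace Pool.Agent.HDG

open Pool.Agent.KST

variable {k K : Type*} [Field k] [Field K] [Algebra k K]

/-- The coefficients of the polynomial `G` are in `W`. -/
def CI (W : Submodule k K) (G : K[X]) : Prop := ∀ n, G.coeff n ∈ W

/-- The values at `ψ` of the polynomials `G` such that the coefficients of `(X - ψ) ^ i * G` are
in `W`. -/
def lc (W : Submodule k K) (ψ : K) (i : ℕ) : Set K :=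
  {a | ∃ G : K[X], CI W ((X - C ψ) ^ i * G) ∧ a = G.eval ψ}

/-- The subspace over `k(ψ)` spanned by `lc W ψ i`. -/
noncomputable def gr (W : Submodule k K) (ψ : K) (i : ℕ) :
    Submodule (IntermediateField.adjoin k {ψ}) K := Submodule.span _ (lc W ψ i)

/-- The subspace over the field `F` spanned by `W`. -/
noncomputable def ex (F : IntermediateField k K) (W : Submodule k K) : Submodule F K :=
  Submodule.span F (W : Set K)

/-- The second differences of `h` are eventually constant. -/
def Qd {B : Type*} (h : (B → ℕ) → ℤ) (q : (B → ℕ) → (B → ℕ) → ℤ) : Prop :=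
  ∀ a a' : B → ℕ, ∃ c₀ : B → ℕ, ∀ c, c₀ ≤ c → Dl a' (Dl a h) c = q a a'

end Pool.Agent.HDG
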