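import Pool.Agent.KST.Defs

/-!
# HDG: intersection numbers and the dynamical degree

Definitions by Hilbert functions.
-/

open MvPolynomial Filter Topology
open scoped LinearAlgebra.Projectivization

namespace Pool.Agent.HDG

open Pool.Agent.KST Pool.Agent.Helper90.KSC Pool.Agent.Helper63.SAND

variable {E ι : Type*} [Field E] [Fintype ι] [DecidableEq ι] {N : ι → ℕ}

/-- The multigraded Hilbert function of `X`: the dimension of the space of the functions on `X` spanned
by the products of `c i` coordinates of the `i`-th factor, for all `i`. -/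
noncomputable def hX (X : Set (PPt E N)) (c : ι → ℕ) : ℤ :=
  hm (fun i => Submodule.span E (Set.range fun (k : Fin (N i + 1)) (x : X) =>
    ((x : PPt E N) i).rep k)) c

/-- The classes `e i` of the hyperplane sections are numerically independent on `X`: for every
nonzero integer combination `D = ∑ v i e i` there are `j, k` with `D . e j . e k ≠ 0`; the intersection
number of `e i, e j, e k` is the value of the third difference of the Hilbert function at large
arguments. -/
def NumInd (X : Set (PPt E N)) : Prop :=
  ∀ v : ι → ℤ, v ≠ 0 → ∃ j k, ¬ ∃ c₀ : ι → ℕ, ∀ c, c₀ ≤ c →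
    ∑ i, v i * Dl (Pi.single i 1) (Dl (Pi.single j 1) (Dl (Pi.single k 1) (hX X))) c = 0

omit [DecidableEq ι] in
/-- The bigraded Hilbert function of the graph of `F` on `X`: the dimension of the space of the
functions on `X` spanned by the products of `a` Segre coordinates of `y` and `b` Segre coordinates
of `F y`. -/
noncomputable def gh (X : Set (PPt E N)) (F : PPt E N → PPt E N) (a b : ℕ) : ℤ :=
  Module.finrank E ((Submodule.span E (Set.range fun (w : SIx N) (y : X) =>
      seg (y : PPt E N) w)) ^ a *
    (Submodule.span E (Set.range fun (w : SIx N) (y : X) => seg (F y) w)) ^ b :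
      Submodule E (X → E))

/-- `q` is the intersection number `F^* H . H . H` on `X`, `H = O(1, ..., 1)`: the value of the third
difference (twice in the direction of `H`, once in the direction of `F^* H`) of the Hilbert function
of the graph at large arguments. -/
def IntNum (X : Set (PPt E N)) (F : PPt E N → PPt E N) (q : ℤ) : Prop :=
  ∃ n₀ : ℕ, ∀ a b : ℕ, n₀ ≤ a → n₀ ≤ b →
    (gh X F (a + 2) (b + 1) - 2 * gh X F (a + 1) (b + 1) + gh X F a (b + 1)) -
      (gh X F (a + 2) b - 2 * gh X F (a + 1) b + gh X F a b) = q

/-- The first dynamical degree of `f` on the threefold `X` is `δ`: `(f^n)^* H . H . H` is a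
sequence with `n`-th roots converging to `δ`. -/
def DynDeg3 (X : Set (PPt E N)) (f : PPt E N → PPt E N) (δ : ℝ) : Prop :=
  ∃ q : ℕ → ℤ, (∀ n, IntNum X f^[n] (q n)) ∧
    Tendsto (fun n : ℕ => (q n : ℝ) ^ ((1 : ℝ) / n)) atTop (𝓝 δ)

end Pool.Agent.HDG
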