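import Pool.Agent.HDG.Third
import Pool.Agent.KST.Grw
import Pool.Agent.KST.Tr
import Pool.Agent.HDG.Ndef

/-!
# HDG DYD: the dynamical degree and the intersection numbers

(1) `gh_eq` (`1 ≤ n`): `gh X f^[n] a b = hm (Lf X f n) (bk 0 (fun _ => a) + bk (Fin.last n) (fun _ => b))`: the span
of the Segre coordinates of `f^[j] y` is `Rm (Lf X f n) (bk j (fun _ => 1))` (`bk_one`, `sg` in KST/Forms.lean),
`rm_smul`, `rm_add`, `bk j (fun _ => a) = a • bk j (fun _ => 1)`.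
(2) `grw_up2`: as `grw_up` (KST/Grw.lean) with `bk 0 v` replaced by an arbitrary `c'`: the function `lam` there maps
`Rm L c` to `Rm L (bk 0 (D * ∑ c))`, so it maps `Rm L (c + c') = Rm L c * Rm L c'` to
`Rm L (bk 0 (D * ∑ c) + c')`, and the multiplication by `lam` is injective (multiply with a nonzero `H ∈ Rm L c`).
(3) Let `h = hm (Lf X f n)`, `G a b = gh X f^[n] a b`, `c₀` from `cub_ray` for the finitely many directions
`u • bk 0 1 + v • bk (last) 1`, `(u, v) = (2,1), (1,1), (0,1), (2,0), (1,0)`, and `n₀` from `IntNum`, enlarged so that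
`D * ∑ c₀ ≤ n₀`. For such `(u, v)`: `6 G (n₀ + s u) (n₀ + s v) / s ^ 3 → Tri (pt A t n) x x x`,
`x = rv (u • bk 0 1 + v • bk (last) 1)`, as `s → ∞`: upper bound `G a b ≤ h (c₀ + n₀ .. + s • (u, v))` (`hm_mono`),
lower bound by `grw_up2`: `h (c₀ + c') ≤ G (D * ∑ c₀ + a') b'` for `c' = (a', b')`, `a' = n₀ - D * ∑ c₀ + s u`; both
have the limit by `cub_ray`. By `tri_cls`, `cls_bk` the limit is `V(u,v) = Tri t w w w`, `w = u • om A 0 + v • om A n`.
(4) By `IntNum`, summing the unit steps, the third difference with the step `s` in each direction is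
`G (n₀ + 2 s) (n₀ + s) - 2 G (n₀ + s) (n₀ + s) + G n₀ (n₀ + s) - G (n₀ + 2 s) n₀ + 2 G (n₀ + s) n₀ - G n₀ n₀ = s ^ 3 q`
(an induction; e.g. first in the direction `b`: `g a = ∑_{l < s} ...`). Multiply by `6 / s ^ 3`, `s → ∞`:
`6 q = V(2,1) - 2 V(1,1) + V(0,1) - V(2,0) + 2 V(1,0) = 6 Tri t (om A n) (om A 0) (om A 0)` (expand `V` with `tri_add₁`,
`tri_smul₁`, `tri_swap₁`, `tri_swap₂`).
-/

open MvPolynomial Filter Topology
open scoped LinearAlgebra.Projectivization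

namespace Pool.Agent.HDG

open Pool.Agent.KST Pool.Agent.Helper90.KSC Pool.Agent.Helper63.SAND Pool.Agent.LLC

variable {E ι : Type*} [Field E] [Fintype ι] [DecidableEq ι] {N : ι → ℕ}

private theorem dyd_bk_smul {n : ℕ} (j : Fin (n + 1)) (k : ℕ) :
    (bk j (fun _ => k) : Fin (n + 1) × ι → ℕ) = k • bk j (fun _ => 1) := by
  funext b
  simp only [bk, Pi.smul_apply]
  split_ifs <;> simp

omit [Fintype ι] in
private theorem dyd_bk_add {n : ℕ} (j : Fin (n + 1)) (k l : ℕ) :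
    (bk j (fun _ => k + l) : Fin (n + 1) × ι → ℕ) = bk j (fun _ => k) + bk j (fun _ => l) := by
  funext b
  simp only [bk, Pi.add_apply]
  split_ifs <;> rfl

private theorem dyd_gh (X : Set (PPt E N)) (f : PPt E N → PPt E N) (n a b : ℕ) :
    gh X f^[n] a b = hm (Lf X f n) (bk 0 (fun _ => a) + bk (Fin.last n) (fun _ => b)) := by
  have e0 : sg X f ((0 : Fin (n + 1)) : ℕ) = fun (w : SIx N) (y : X) => seg (y : PPt E N) w := by
    rw [Fin.val_zero]; rfl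
  have e1 : sg X f ((Fin.last n : Fin (n + 1)) : ℕ) =
      fun (w : SIx N) (y : X) => seg (f^[n] (y : PPt E N)) w := by
    rw [Fin.val_last]; rfl
  unfold gh hm
  rw [rm_add, dyd_bk_smul 0 a, dyd_bk_smul (Fin.last n) b, rm_smul, rm_smul, bk_one, bk_one, e0, e1]

private theorem dyd_up (X : Set (PPt E N)) (f : PPt E N → PPt E N) (hf : Set.MapsTo f X X)
    (hloc : LocallyByForms X f) (hXi : Irred X) (n : ℕ) : ∃ D : ℕ,
      ∀ (c c' : Fin (n + 1) × ι → ℕ),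
        hm (Lf X f n) (c + c') ≤ hm (Lf X f n) (bk 0 (fun _ => D * ∑ b, c b) + c') := by
  have hirm : Irm (Lf X f n) := irm_Lf X f hf hloc X le_rfl hXi n
  obtain ⟨D, hD⟩ := rep_form X f n 0 fun j i =>
    rep_up X f hf hloc X le_rfl n 0 j (Fin.zero_le j) i
  refine ⟨D, fun c c' => ?_⟩
  obtain ⟨y₀, hy₀⟩ := hXi.1
  have hne : Nonempty X := ⟨⟨y₀, hy₀⟩⟩
  have hnt : Nontrivial (X → E) := inferInstance
  obtain ⟨H, hH, hH0⟩ := rm_ne (Lf X f n) hirm c
  obtain ⟨y, hHy⟩ : ∃ y, H y ≠ 0 := by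
    by_contra hcon
    push Not at hcon
    exact hH0 (funext hcon)
  obtain ⟨lam, hlam, hF⟩ := hD c y
  have hmem : ∀ F ∈ Rm (Lf X f n) (c + c'),
      LinearMap.mulLeft E lam F ∈ Rm (Lf X f n) (bk 0 (fun _ => D * ∑ b, c b) + c') := by
    intro F hFm
    rw [LinearMap.mulLeft_apply]
    rw [rm_add] at hFm
    rw [rm_add]
    refine Submodule.mul_induction_on hFm ?_ ?_
    · intro F hF1 G hG
      rw [← mul_assoc]
      exact Submodule.mul_mem_mul (hF F hF1) hG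
    · intro F G h1 h2
      rw [mul_add]
      exact add_mem h1 h2
  have hinj : ∀ F ∈ Rm (Lf X f n) (c + c'), lam * F = 0 → F = 0 := by
    intro F hFm h0
    have h1 : (lam * H) * F = 0 := by
      rw [mul_right_comm, h0, zero_mul]
    rcases hirm.mul _ _ _ _ (hF H hH) hFm h1 with h2 | h2
    · exfalso
      have h3 := congrFun h2 y
      rw [Pi.mul_apply, Pi.zero_apply] at h3
      rcases mul_eq_zero.1 h3 with h4 | h4
      · exact hlam h4
      · exact hHy h4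
    · exact h2
  have hfin : Module.Finite E (Rm (Lf X f n) (bk 0 (fun _ => D * ∑ b, c b) + c')) :=
    Module.Finite.iff_fg.2 (rm_fg _ hirm.fg _)
  have hle : Module.finrank E (Rm (Lf X f n) (c + c')) ≤
      Module.finrank E (Rm (Lf X f n) (bk 0 (fun _ => D * ∑ b, c b) + c')) := by
    refine LinearMap.finrank_le_finrank_of_injective
      (f := (LinearMap.mulLeft E lam).restrict hmem) ?_
    rw [injective_iff_map_eq_zero]
    intro F h0
    have h1 : lam * (F : X → E) = 0 := congrArg Subtype.val h0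
    exact Subtype.ext (hinj F F.2 h1)
  unfold hm
  exact_mod_cast hle

/-- the limit along a ray -/
private theorem dyd_lim (X : Set (PPt E N)) (hXi : Irred X) (f : PPt E N → PPt E N)
    (hf : Set.MapsTo f X X) (hlf : LocallyByForms X f) (n : ℕ)
    (T : Fin (n + 1) × ι → Fin (n + 1) × ι → Fin (n + 1) × ι → ℝ)
    (hcub : Cub (hm (Lf X f n)) T) (u v : ℕ) : ∃ n₁ : ℕ, ∀ n₀, n₁ ≤ n₀ →
      Tendsto (fun s : ℕ => 6 * (gh X f^[n] (n₀ + u * s) (n₀ + v * s) : ℝ) / (s : ℝ) ^ 3) atTop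
        (𝓝 (Tri T (rv (u • bk 0 (fun _ => 1) + v • bk (Fin.last n) (fun _ => 1)))
          (rv (u • bk 0 (fun _ => 1) + v • bk (Fin.last n) (fun _ => 1)))
          (rv (u • bk 0 (fun _ => 1) + v • bk (Fin.last n) (fun _ => 1))))) := by
  have hirm : Irm (Lf X f n) := irm_Lf X f hf hlf X le_rfl hXi n
  obtain ⟨D, hD⟩ := dyd_up X f hf hlf hXi n
  obtain ⟨dir, hdir⟩ : ∃ dir : Fin (n + 1) × ι → ℕ, dir =
    u • bk 0 (fun _ => 1) + v • bk (Fin.last n) (fun _ => 1) := ⟨_, rfl⟩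
  rw [← hdir]
  obtain ⟨c₀, hc₀⟩ := cub_ray _ _ hcub dir
  refine ⟨D * ∑ b, c₀ b, fun n₀ hn₀ => ?_⟩
  obtain ⟨r, rfl⟩ := Nat.exists_eq_add_of_le hn₀
  have hup := hc₀ (c₀ + (bk 0 (fun _ => D * ∑ b, c₀ b + r) +
    bk (Fin.last n) (fun _ => D * ∑ b, c₀ b + r))) (le_add_of_nonneg_right zero_le)
  have hlo := hc₀ (c₀ + (bk 0 (fun _ => r) +
    bk (Fin.last n) (fun _ => D * ∑ b, c₀ b + r))) (le_add_of_nonneg_right zero_le)
  have hG : ∀ s : ℕ, (bk 0 (fun _ => D * ∑ b, c₀ b + r + u * s) +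
      bk (Fin.last n) (fun _ => D * ∑ b, c₀ b + r + v * s) : Fin (n + 1) × ι → ℕ) =
      (bk 0 (fun _ => D * ∑ b, c₀ b + r) + bk (Fin.last n) (fun _ => D * ∑ b, c₀ b + r)) +
        s • dir := by
    intro s
    rw [dyd_bk_add 0 (D * ∑ b, c₀ b + r), dyd_bk_add (Fin.last n) (D * ∑ b, c₀ b + r),
      dyd_bk_smul 0 (u * s), dyd_bk_smul (Fin.last n) (v * s), hdir]
    funext b
    simp only [Pi.add_apply, Pi.smul_apply, smul_eq_mul]
    ring
  refine tendsto_of_tendsto_of_tendsto_of_le_of_le hlo hup ?_ ?_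
  · intro s
    simp only []
    rw [dyd_gh, hG]
    gcongr
    have h1 := hD c₀ ((bk 0 (fun _ => r) + bk (Fin.last n) (fun _ => D * ∑ b, c₀ b + r)) + s • dir)
    rw [← add_assoc] at h1
    refine h1.trans (le_of_eq ?_)
    congr 1
    rw [dyd_bk_add 0 (D * ∑ b, c₀ b) r]
    simp only [add_assoc]
  · intro s
    simp only []
    rw [dyd_gh, hG]
    gcongr
    refine hm_mono _ hirm ?_
    rw [add_assoc]
    intro x
    simp only [Pi.add_apply]
    omega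

private theorem dyd_sec (F : ℕ → ℤ) (n₀ : ℕ) (q : ℤ)
    (h : ∀ a, n₀ ≤ a → F (a + 2) - 2 * F (a + 1) + F a = q) (a : ℕ) (ha : n₀ ≤ a) (s : ℕ) :
    F (a + 2 * s) - 2 * F (a + s) + F a = (s : ℤ) ^ 2 * q := by
  have h1 : ∀ k : ℕ, F (a + k + 1) - F (a + k) = F (a + 1) - F a + k * q := by
    intro k
    induction k with
    | zero => simp
    | succ k ih =>
      have h2 := h (a + k) (by omega)
      have e1 : a + (k + 1) + 1 = a + k + 2 := by ring
      have e2 : a + (k + 1) = a + k + 1 := by ring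
      rw [e1, e2]
      push_cast
      linarith
  have h2 : ∀ k : ℕ, 2 * (F (a + k) - F a) = 2 * k * (F (a + 1) - F a) + q * (k * (k - 1)) := by
    intro k
    induction k with
    | zero => simp
    | succ k ih =>
      have h3 := h1 k
      have e2 : a + (k + 1) = a + k + 1 := by ring
      rw [e2]
      push_cast
      linear_combination ih + 2 * h3
  have h3 := h2 s
  have h4 := h2 (2 * s)
  push_cast at h4
  have h5 : 2 * (F (a + 2 * s) - 2 * F (a + s) + F a) = 2 * ((s : ℤ) ^ 2 * q) := by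
    linear_combination h4 - 2 * h3
  linarith

private theorem dyd_third (G : ℕ → ℕ → ℤ) (n₀ : ℕ) (q : ℤ)
    (h : ∀ a b : ℕ, n₀ ≤ a → n₀ ≤ b →
      (G (a + 2) (b + 1) - 2 * G (a + 1) (b + 1) + G a (b + 1)) -
        (G (a + 2) b - 2 * G (a + 1) b + G a b) = q) (a b : ℕ) (ha : n₀ ≤ a) (hb : n₀ ≤ b)
    (s : ℕ) : (G (a + 2 * s) (b + s) - 2 * G (a + s) (b + s) + G a (b + s)) -
        (G (a + 2 * s) b - 2 * G (a + s) b + G a b) = (s : ℤ) ^ 3 * q := by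
  have h1 : ∀ b', n₀ ≤ b' → (G (a + 2 * s) (b' + 1) - 2 * G (a + s) (b' + 1) + G a (b' + 1)) -
        (G (a + 2 * s) b' - 2 * G (a + s) b' + G a b') = (s : ℤ) ^ 2 * q := by
    intro b' hb'
    have := dyd_sec (fun a => G a (b' + 1) - G a b') n₀ q (fun a ha => by
      have := h a b' ha hb'
      linarith) a ha s
    linarith
  have h2 : ∀ k : ℕ, (G (a + 2 * s) (b + k) - 2 * G (a + s) (b + k) + G a (b + k)) -
        (G (a + 2 * s) b - 2 * G (a + s) b + G a b) = (k : ℤ) * ((s : ℤ) ^ 2 * q) := by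
    intro k
    induction k with
    | zero => simp
    | succ k ih =>
      have h3 := h1 (b + k) (by omega)
      rw [← add_assoc]
      push_cast
      linear_combination ih + h3
  rw [h2 s]
  ring

theorem dyd (X : Set (PPt E N)) (hXi : Irred X) (f : PPt E N → PPt E N)
    (hf : Set.MapsTo f X X) (hlf : LocallyByForms X f) (A : Matrix ι ι ℤ)
    (t : ι → ι → ι → ℝ) (n : ℕ) (hn : 1 ≤ n) (hcub : Cub (hm (Lf X f n)) (pt A t n)) (q : ℤ)
    (hq : IntNum X f^[n] q) : (q : ℝ) = Tri t (om A n) (om A 0) (om A 0) := by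
  obtain ⟨n₁, hn₁⟩ := hq
  obtain ⟨T, hT⟩ : ∃ T, T = pt A t n := ⟨_, rfl⟩
  have hcub' : Cub (hm (Lf X f n)) T := by rw [hT]; exact hcub
  obtain ⟨α, hα⟩ : ∃ α : Fin (n + 1) × ι → ℝ, α = rv (bk 0 (fun _ : ι => 1)) := ⟨_, rfl⟩
  obtain ⟨β, hβ⟩ : ∃ β : Fin (n + 1) × ι → ℝ, β = rv (bk (Fin.last n) (fun _ : ι => 1)) := ⟨_, rfl⟩
  have hw : ∀ u v : ℕ, rv (u • bk 0 (fun _ : ι => 1) + v • bk (Fin.last n) (fun _ : ι => 1)) =
      (u : ℝ) • α + (v : ℝ) • β := by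
    intro u v
    funext b
    rw [hα, hβ]
    simp only [rv, Pi.add_apply, Pi.smul_apply, smul_eq_mul]
    push_cast
    rfl
  have hV : ∀ u v : ℝ, Tri T (u • α + v • β) (u • α + v • β) (u • α + v • β) =
      u ^ 3 * Tri T α α α + 3 * u ^ 2 * v * Tri T α α β + 3 * u * v ^ 2 * Tri T α β β +
        v ^ 3 * Tri T β β β := by
    intro u v
    obtain ⟨w, hw⟩ : ∃ w, w = u • α + v • β := ⟨_, rfl⟩
    rw [← hw]
    have l1 : ∀ y z, Tri T w y z = u * Tri T α y z + v * Tri T β y z := by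
      intro y z
      rw [hw, tri_add₁, tri_smul₁, tri_smul₁]
    have l2 : ∀ x z, Tri T x w z = u * Tri T x α z + v * Tri T x β z := by
      intro x z
      rw [tri_swap₁ T hcub'.s₁ x w z, l1, tri_swap₁ T hcub'.s₁ α x z, tri_swap₁ T hcub'.s₁ β x z]
    have l3 : ∀ x y, Tri T x y w = u * Tri T x y α + v * Tri T x y β := by
      intro x y
      rw [tri_swap₂ T hcub'.s₂ x y w, l2, tri_swap₂ T hcub'.s₂ x α y, tri_swap₂ T hcub'.s₂ x β y]
    have m1 : Tri T α β α = Tri T α α β := tri_swap₂ T hcub'.s₂ _ _ _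
    have m2 : Tri T β α α = Tri T α β α := tri_swap₁ T hcub'.s₁ _ _ _
    have m3 : Tri T β α β = Tri T α β β := tri_swap₁ T hcub'.s₁ _ _ _
    have m4 : Tri T β β α = Tri T β α β := tri_swap₂ T hcub'.s₂ _ _ _
    rw [l1 w w, l2 α w, l2 β w, l3 α α, l3 α β, l3 β α, l3 β β, m4, m3, m2, m1]
    ring
  -- the limits
  have hlim : ∀ u v : ℕ, ∃ n₂ : ℕ, ∀ n₀, n₂ ≤ n₀ →
      Tendsto (fun s : ℕ => 6 * (gh X f^[n] (n₀ + u * s) (n₀ + v * s) : ℝ) / (s : ℝ) ^ 3) atTop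
        (𝓝 ((u : ℝ) ^ 3 * Tri T α α α + 3 * (u : ℝ) ^ 2 * v * Tri T α α β +
          3 * u * (v : ℝ) ^ 2 * Tri T α β β + (v : ℝ) ^ 3 * Tri T β β β)) := by
    intro u v
    obtain ⟨n₂, hn₂⟩ := dyd_lim X hXi f hf hlf n T hcub' u v
    refine ⟨n₂, fun n₀ hn₀ => ?_⟩
    have h := hn₂ n₀ hn₀
    rw [hw, hV] at h
    exact h
  choose n₂ hn₂ using hlim
  obtain ⟨n₀, hn₀⟩ : ∃ n₀, n₀ = n₁ + n₂ 2 1 + n₂ 1 1 + n₂ 0 1 + n₂ 2 0 + n₂ 1 0 + n₂ 0 0 := ⟨_, rfl⟩
  have t21 := hn₂ 2 1 n₀ (by omega)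
  have t11 := hn₂ 1 1 n₀ (by omega)
  have t01 := hn₂ 0 1 n₀ (by omega)
  have t20 := hn₂ 2 0 n₀ (by omega)
  have t10 := hn₂ 1 0 n₀ (by omega)
  have t00 := hn₂ 0 0 n₀ (by omega)
  have hsum := (((t21.sub (t11.const_mul 2)).add t01).sub ((t20.sub (t10.const_mul 2)).add t00))
  have heq : ∀ᶠ s : ℕ in atTop,
      (6 * (gh X f^[n] (n₀ + 2 * s) (n₀ + 1 * s) : ℝ) / (s : ℝ) ^ 3 -
        2 * (6 * (gh X f^[n] (n₀ + 1 * s) (n₀ + 1 * s) : ℝ) / (s : ℝ) ^ 3) +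
        6 * (gh X f^[n] (n₀ + 0 * s) (n₀ + 1 * s) : ℝ) / (s : ℝ) ^ 3 -
        (6 * (gh X f^[n] (n₀ + 2 * s) (n₀ + 0 * s) : ℝ) / (s : ℝ) ^ 3 -
        2 * (6 * (gh X f^[n] (n₀ + 1 * s) (n₀ + 0 * s) : ℝ) / (s : ℝ) ^ 3) +
        6 * (gh X f^[n] (n₀ + 0 * s) (n₀ + 0 * s) : ℝ) / (s : ℝ) ^ 3)) = 6 * (q : ℝ) := by
    filter_upwards [eventually_ge_atTop 1] with s hs
    have hs0 : (s : ℝ) ≠ 0 := by
      have : (0 : ℝ) < s := by exact_mod_cast hs
      exact this.ne'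
    have h1 := dyd_third (gh X f^[n]) n₁ q hn₁ n₀ n₀ (by omega) (by omega) s
    have h2 : (((gh X f^[n] (n₀ + 2 * s) (n₀ + s) - 2 * gh X f^[n] (n₀ + s) (n₀ + s) +
        gh X f^[n] n₀ (n₀ + s)) - (gh X f^[n] (n₀ + 2 * s) n₀ - 2 * gh X f^[n] (n₀ + s) n₀ +
        gh X f^[n] n₀ n₀) : ℤ) : ℝ) = (((s : ℤ) ^ 3 * q : ℤ) : ℝ) := by rw [h1]
    push_cast at h2
    simp only [one_mul, zero_mul, add_zero]
    field_simp
    linear_combination h2
  have hfin := tendsto_nhds_unique (hsum.congr' heq) tendsto_const_nhds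
  have hfin2 : (q : ℝ) = Tri T α α β := by
    push_cast at hfin
    linarith
  have m1 : Tri T α β α = Tri T α α β := tri_swap₂ T hcub'.s₂ _ _ _
  have m2 : Tri T β α α = Tri T α β α := tri_swap₁ T hcub'.s₁ _ _ _
  rw [hfin2, ← m1, ← m2, hT, tri_cls, hα, hβ, cls_bk, cls_bk, Fin.val_last, Fin.val_zero]

end Pool.Agent.HDG
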