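import Pool.Agent.KST.Rmb

/-!
# HDG EMB: embedding of the homogeneous elements in a field

Let `R` be the subalgebra of `MvPolynomial B 𝒜` (over `E`) of the polynomials `F` such that for all
`c : B →₀ ℕ` the coefficient `F.coeff c` is in `Rm L c` (closed under products by `rm_mul_mem`). `R` is a
domain: choose a monomial order on `B →₀ ℕ` (a linear order of `B` and the lexicographic order, e.g.
`MonomialOrder.lex` after choosing `B ≃ Fin n`, or any `MonomialOrder B`); for `F, G ∈ R` not zero with the
leading exponents `c, c'` the coefficient of `F * G` at `c + c'` is the product of the leading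
coefficients (`MonomialOrder.coeff_mul_of_degree_add` or similar), which is not zero by `hL.mul`.
(Another way: induction over `B`, or a linear map `B →₀ ℕ → ℕ` injective on a finite set.)
`K = FractionRing R`, `L' b` the image of `{x T_b | x ∈ L b}` (`T_b = MvPolynomial.X b`). The product of
`L' b ^ c b` is the image of `{x T ^ c | x ∈ Rm L c}`, so the ranks agree (`x ↦ x T ^ c` is injective and
linear). `Irm L'`: finitely generated, not zero, and `K` is a field. `R` is not trivial as `𝒜` is not.
-/

universe u v w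

namespace Pool.Agent.HDG

open Pool.Agent.KST

open MvPolynomial

section

variable {E : Type u} {𝒜 : Type v} {B : Type w} [Field E] [CommRing 𝒜] [Algebra E 𝒜]
  [Fintype B] [DecidableEq B]

/-- the graded ring -/
private def Gr (L : B → Submodule E 𝒜) : Subalgebra E (MvPolynomial B 𝒜) where
  carrier := {F | ∀ c : B →₀ ℕ, F.coeff c ∈ Rm L c}
  mul_mem' := by
    intro F G hF hG c
    rw [coeff_mul]
    refine Submodule.sum_mem _ fun x hx => ?_
    rw [Finset.HasAntidiagonal.mem_antidiagonal] at hx
    rw [← hx, Finsupp.coe_add]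
    exact rm_mul_mem L (hF x.1) (hG x.2)
  add_mem' := by
    intro F G hF hG c
    rw [coeff_add]
    exact Submodule.add_mem _ (hF c) (hG c)
  algebraMap_mem' := by
    intro r c
    rw [MvPolynomial.algebraMap_apply, coeff_C]
    split_ifs with h
    · rw [← h, Finsupp.coe_zero, rm_zero]
      exact Submodule.mem_one.2 ⟨r, rfl⟩
    · exact Submodule.zero_mem _

private theorem mem_gr {L : B → Submodule E 𝒜} {F : MvPolynomial B 𝒜} :
    F ∈ Gr L ↔ ∀ c : B →₀ ℕ, F.coeff c ∈ Rm L c := Iff.rfl

private theorem gr_domain [Nontrivial 𝒜] (L : B → Submodule E 𝒜) (hL : Irm L) :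
    IsDomain (Gr L) := by
  have h1 : NoZeroDivisors (Gr L) := by
    constructor
    intro F G h
    let lo : LinearOrder B := LinearOrder.lift' (Fintype.equivFin B) (Fintype.equivFin B).injective
    let m : MonomialOrder B := MonomialOrder.lex
    have h2 : ((F : MvPolynomial B 𝒜) * (G : MvPolynomial B 𝒜)) = 0 := congrArg Subtype.val h
    have h3 : coeff (m.degree (F : MvPolynomial B 𝒜)) (F : MvPolynomial B 𝒜) *
        coeff (m.degree (G : MvPolynomial B 𝒜)) (G : MvPolynomial B 𝒜) = 0 := by
      have h4 := MonomialOrder.coeff_mul_of_degree_add (m := m)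
        (f := (F : MvPolynomial B 𝒜)) (g := (G : MvPolynomial B 𝒜))
      rw [h2, coeff_zero] at h4
      exact h4.symm
    rcases hL.mul _ _ _ _ (F.2 (m.degree (F : MvPolynomial B 𝒜)))
      (G.2 (m.degree (G : MvPolynomial B 𝒜))) h3 with h4 | h4
    · left
      exact Subtype.ext ((MonomialOrder.leadingCoeff_eq_zero_iff (m := m)).1 h4)
    · right
      exact Subtype.ext ((MonomialOrder.leadingCoeff_eq_zero_iff (m := m)).1 h4)
  have h2 : Nontrivial (Gr L) := inferInstance
  exact NoZeroDivisors.to_isDomain _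

/-- exponent as a finitely supported function -/
private noncomputable def fs (c : B → ℕ) : B →₀ ℕ := Finsupp.equivFunOnFinite.symm c

omit [DecidableEq B] in
private theorem fs_coe (c : B → ℕ) : ⇑(fs c) = c := Finsupp.equivFunOnFinite.apply_symm_apply c

omit [DecidableEq B] in
private theorem fs_add (c c' : B → ℕ) : fs (c + c') = fs c + fs c' := by
  ext b
  rw [Finsupp.add_apply, fs_coe, fs_coe, fs_coe]
  rfl

omit [DecidableEq B] in
private theorem fs_zero : fs (0 : B → ℕ) = 0 := by
  ext b
  rw [fs_coe]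
  rfl

private theorem mono_mem (L : B → Submodule E 𝒜) (c : B → ℕ) {x : 𝒜} (hx : x ∈ Rm L c) :
    monomial (fs c) x ∈ Gr L := by
  rw [mem_gr]
  intro a
  rw [coeff_monomial]
  split_ifs with h
  · rw [← h, fs_coe]
    exact hx
  · exact Submodule.zero_mem _

/-- the linear map `x ↦ x T ^ c` -/
private noncomputable def mo (L : B → Submodule E 𝒜) (c : B → ℕ) : Rm L c →ₗ[E] Gr L where
  toFun x := ⟨monomial (fs c) (x : 𝒜), mono_mem L c x.2⟩
  map_add' x y := Subtype.ext (map_add _ _ _)
  map_smul' r x := Subtype.ext (by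
    change monomial (fs c) ((r • x : Rm L c) : 𝒜) = r • monomial (fs c) (x : 𝒜)
    rw [Submodule.coe_smul, smul_monomial])

private theorem mo_inj (L : B → Submodule E 𝒜) (c : B → ℕ) : Function.Injective (mo L c) := by
  intro x y h
  have h1 : monomial (fs c) (x : 𝒜) = monomial (fs c) (y : 𝒜) := congrArg Subtype.val h
  have h2 := congrArg (coeff (fs c)) h1
  rw [coeff_monomial, coeff_monomial, if_pos rfl, if_pos rfl] at h2
  exact Subtype.ext h2

private noncomputable def MP (L : B → Submodule E 𝒜) (c : B → ℕ) : Submodule E (Gr L) :=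
  LinearMap.range (mo L c)

private theorem mp_add (L : B → Submodule E 𝒜) (c c' : B → ℕ) :
    MP L (c + c') = MP L c * MP L c' := by
  apply le_antisymm
  · rintro _ ⟨⟨x, hx⟩, rfl⟩
    have hx' : x ∈ Rm L c * Rm L c' := by rw [← rm_add]; exact hx
    have hle : ∀ y, y ∈ Rm L c * Rm L c' → y ∈ Rm L (c + c') := fun y hy => by
      rw [rm_add]
      exact hy
    refine Submodule.mul_induction_on' (C := fun y hy =>
      mo L (c + c') ⟨y, hle y hy⟩ ∈ MP L c * MP L c') ?_ ?_ hx'
    · intro m hm n hn
      have h1 : mo L (c + c') ⟨m * n, hle _ (Submodule.mul_mem_mul hm hn)⟩ =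
          mo L c ⟨m, hm⟩ * mo L c' ⟨n, hn⟩ := by
        apply Subtype.ext
        change monomial (fs (c + c')) (m * n) = monomial (fs c) m * monomial (fs c') n
        rw [monomial_mul, fs_add]
      rw [h1]
      exact Submodule.mul_mem_mul ⟨_, rfl⟩ ⟨_, rfl⟩
    · intro y hy z hz h1 h2
      have h3 : mo L (c + c') ⟨y + z, hle _ (Submodule.add_mem _ hy hz)⟩ =
          mo L (c + c') ⟨y, hle y hy⟩ + mo L (c + c') ⟨z, hle z hz⟩ := by
        rw [← map_add]
        rfl
      rw [h3]
      exact Submodule.add_mem _ h1 h2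
  · rw [Submodule.mul_le]
    rintro _ ⟨⟨x, hx⟩, rfl⟩ _ ⟨⟨y, hy⟩, rfl⟩
    refine ⟨⟨x * y, rm_mul_mem L hx hy⟩, ?_⟩
    apply Subtype.ext
    change monomial (fs (c + c')) (x * y) = monomial (fs c) x * monomial (fs c') y
    rw [monomial_mul, fs_add]

private theorem mp_zero (L : B → Submodule E 𝒜) : MP L 0 = 1 := by
  ext F
  rw [Submodule.mem_one]
  constructor
  · rintro ⟨⟨x, hx⟩, rfl⟩
    rw [rm_zero, Submodule.mem_one] at hx
    obtain ⟨r, rfl⟩ := hx
    refine ⟨r, Subtype.ext ?_⟩
    change algebraMap E (MvPolynomial B 𝒜) r = monomial (fs 0) (algebraMap E 𝒜 r)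
    rw [fs_zero]
    rfl
  · rintro ⟨r, rfl⟩
    refine ⟨⟨algebraMap E 𝒜 r, ?_⟩, Subtype.ext ?_⟩
    · rw [rm_zero, Submodule.mem_one]
      exact ⟨r, rfl⟩
    · change monomial (fs 0) (algebraMap E 𝒜 r) = algebraMap E (MvPolynomial B 𝒜) r
      rw [fs_zero]
      rfl

/-- `MP` as a homomorphism -/
private noncomputable def MH (L : B → Submodule E 𝒜) :
    Multiplicative (B → ℕ) →* Submodule E (Gr L) where
  toFun c := MP L (Multiplicative.toAdd c)
  map_one' := mp_zero L
  map_mul' c c' := mp_add L _ _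

private theorem mp_rm (L : B → Submodule E 𝒜) (c : B → ℕ) :
    Rm (fun b => MP L (Pi.single b 1)) c = MP L c := by
  have h1 : c = ∑ b, c b • (Pi.single b 1 : B → ℕ) := by
    funext a
    rw [Finset.sum_apply, Finset.sum_eq_single a]
    · simp
    · intro b _ hb
      simp [Pi.single_eq_of_ne hb.symm]
    · intro h
      exact absurd (Finset.mem_univ a) h
  have h2 : MP L c = MH L (Multiplicative.ofAdd c) := rfl
  rw [h2]
  conv_rhs => rw [h1, ofAdd_sum, map_prod]
  unfold Rm
  refine Finset.prod_congr rfl fun b _ => ?_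
  rw [ofAdd_nsmul, map_pow]
  rfl

end

theorem emb {E : Type u} {𝒜 : Type v} {B : Type w} [Field E] [CommRing 𝒜] [Algebra E 𝒜]
    [Fintype B] [DecidableEq B] [Nontrivial 𝒜] (L : B → Submodule E 𝒜) (hL : Irm L) :
    ∃ (K : Type (max v w)) (_ : Field K) (_ : Algebra E K) (L' : B → Submodule E K),
      Irm L' ∧ ∀ c, hm L' c = hm L c := by
  have hdom : IsDomain (Gr L) := gr_domain L hL
  let ι : Gr L →ₐ[E] FractionRing (Gr L) := IsScalarTower.toAlgHom E (Gr L) (FractionRing (Gr L))
  have hι : Function.Injective ι := IsFractionRing.injective (Gr L) (FractionRing (Gr L))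
  let L' : B → Submodule E (FractionRing (Gr L)) := fun b =>
    Submodule.map ι.toLinearMap (MP L (Pi.single b 1))
  have hRm : ∀ c, Rm L' c = Submodule.map ι.toLinearMap (MP L c) := by
    intro c
    have h1 : Rm L' c = Submodule.mapHom ι (Rm (fun b => MP L (Pi.single b 1)) c) := by
      unfold Rm
      rw [map_prod]
      refine Finset.prod_congr rfl fun b _ => ?_
      rw [map_pow]
      rfl
    rw [h1, mp_rm]
    rfl
  have hrk : ∀ c, hm L' c = hm L c := by
    intro c
    unfold hm
    rw [hRm]
    have h1 := (Submodule.equivMapOfInjective ι.toLinearMap hι (MP L c)).finrank_eq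
    have h2 := (LinearEquiv.ofInjective (mo L c) (mo_inj L c)).finrank_eq
    rw [← h1]
    exact_mod_cast h2.symm
  refine ⟨FractionRing (Gr L), inferInstance, inferInstance, L', ⟨fun b => ?_, fun b => ?_, ?_⟩,
    hrk⟩
  · apply Submodule.FG.map
    have h1 : (Rm L (Pi.single b 1)).FG := by
      rw [rm_single]
      exact hL.fg b
    have h2 : Module.Finite E (Rm L (Pi.single b 1)) := Module.Finite.iff_fg.2 h1
    change (LinearMap.range (mo L (Pi.single b 1))).FG
    rw [LinearMap.range_eq_map]
    exact Submodule.FG.map _ (Module.Finite.fg_top)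
  · intro h
    apply hL.ne b
    rw [← rm_single L b]
    rw [Submodule.eq_bot_iff]
    intro x hx
    have h1 : ι (mo L (Pi.single b 1) ⟨x, hx⟩) ∈ L' b := ⟨_, ⟨⟨x, hx⟩, rfl⟩, rfl⟩
    rw [h, Submodule.mem_bot] at h1
    have h2 : mo L (Pi.single b 1) ⟨x, hx⟩ = 0 := hι (by rw [h1, map_zero])
    have h3 : (⟨x, hx⟩ : Rm L (Pi.single b 1)) = 0 := mo_inj L _ (by rw [h2, map_zero])
    exact congrArg Subtype.val h3
  · intro c c' F G _ _ h
    exact mul_eq_zero.1 h

end Pool.Agent.HDG
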