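import Pool.Agent.HDG.Defs
import Pool.Agent.KST.Pen

/-!
# HDG EXD: extension of the base field to `k(ψ)`

`rm_ex`: `ex F` commutes with products: `ex F (W * W') = ex F W * ex F W'` (span of products), powers and
finite products (`Rm` is `∏ b, L b ^ c b`; `ex F 1 = 1`).
`irm_ex`: finitely generated; not zero; in a field a product is zero only if a factor is zero.
`exd`: let `W = Rm L c`, `ψ = -α / α'`, `r = finrank F (ex F W)`, `F = k(ψ)`, and
`V t = ∑_{s ≤ t} ψ ^ s W` (span over `k` of the `ψ ^ s w`, `s ≤ t`). `Wt L α α' t c = α' ^ t V t`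
(`span {α, α'} ^ t` is spanned by the `α ^ s α' ^ (t - s)`), so by `pen`
`finrank k (V t) = (t + 1) hm L c - t hm L (c - a)`. (i) `r (t + 1) ≤ finrank k (V t)`: choose `r` elements
of `W` linearly independent over `F`; the products with `ψ ^ s`, `s ≤ t`, are linearly independent over
`k` (as `ψ` is transcendental over `k`). (ii) `finrank k (V t) ≤ r (t + C)`, `C` independent of `t`: the
elements of a basis of `W` over `k` are combinations of the `r` elements with coefficients
`p(ψ) / q(ψ)` with a common denominator `q` and `deg p < C`. So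
`q(ψ) V t ⊆ ⊕ k[ψ]_{< t + C} w_l`. From (i), (ii) for `t → ∞`: `r = hm L c - hm L (c - a)`.
`exd_tr`: if `ψ` is algebraic over `k`, then `V t ⊆ k(ψ) W` has bounded dimension, but
`finrank k (V t) = (t + 1) hm L c - t hm L (c - a)` is unbounded.
-/

open Polynomial

namespace Pool.Agent.HDG

open Pool.Agent.KST

variable {k K B : Type*} [Field k] [Field K] [Algebra k K] [Fintype B] [DecidableEq B]

private lemma ex_span (F : IntermediateField k K) (S : Set K) :
    ex F (Submodule.span k S) = Submodule.span F S := by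
  unfold ex
  exact Submodule.span_span_of_tower k F S

private lemma ex_one (F : IntermediateField k K) : ex F (1 : Submodule k K) = 1 := by
  rw [Submodule.one_eq_span, ex_span, Submodule.one_eq_span]

private lemma ex_mul (F : IntermediateField k K) (W W' : Submodule k K) :
    ex F (W * W') = ex F W * ex F W' := by
  rw [Submodule.mul_eq_span_mul_set, ex_span]
  unfold ex
  rw [Submodule.span_mul_span]

/-- `ex F` as a homomorphism. -/
private noncomputable def exHom (F : IntermediateField k K) : Submodule k K →* Submodule F K where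
  toFun := ex F
  map_one' := ex_one F
  map_mul' := ex_mul F

theorem rm_ex (F : IntermediateField k K) (L : B → Submodule k K) (c : B → ℕ) :
    Rm (fun b => ex F (L b)) c = ex F (Rm L c) := by
  have h : ex F (Rm L c) = exHom F (∏ b, L b ^ c b) := rfl
  rw [h, map_prod]
  unfold Rm
  refine Finset.prod_congr rfl fun b _ => ?_
  rw [map_pow]
  rfl

theorem irm_ex (F : IntermediateField k K) (L : B → Submodule k K) (hL : Irm L) :
    Irm (fun b => ex F (L b)) where
  fg b := by
    obtain ⟨S, hS⟩ := hL.fg b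
    refine ⟨S, ?_⟩
    rw [← hS, ex_span]
  ne b := by
    obtain ⟨x, hx, h0⟩ := Submodule.exists_mem_ne_zero_of_ne_bot (hL.ne b)
    intro h
    have h1 : x ∈ ex F (L b) := Submodule.subset_span hx
    rw [h, Submodule.mem_bot] at h1
    exact h0 h1
  mul _ _ F' G _ _ h := mul_eq_zero.1 h

/-! ### the powers of `span {1, ψ}` -/

/-- `span {1, ψ}` -/
private noncomputable def gg (k : Type*) {K : Type*} [Field k] [Field K] [Algebra k K] (ψ : K) :
    Submodule k K := Submodule.span k {1, ψ}

private lemma one_mem_gg (ψ : K) : (1 : K) ∈ gg k ψ := Submodule.subset_span (by simp)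

private lemma psi_mem_gg (ψ : K) : ψ ∈ gg k ψ := Submodule.subset_span (by simp)

private lemma one_le_gg (ψ : K) : 1 ≤ gg k ψ := Submodule.one_le.2 (one_mem_gg ψ)

private lemma gg_mono (ψ : K) {m n : ℕ} (h : m ≤ n) : gg k ψ ^ m ≤ gg k ψ ^ n :=
  pow_le_pow_right' (one_le_gg ψ) h

private lemma pow_mem_gg (ψ : K) {m n : ℕ} (h : m ≤ n) : ψ ^ m ∈ gg k ψ ^ n :=
  gg_mono ψ h (Submodule.pow_mem_pow _ (psi_mem_gg ψ) m)

private lemma aeval_mem_gg (ψ : K) (p : k[X]) {n : ℕ} (h : p.natDegree ≤ n) :
    aeval ψ p ∈ gg k ψ ^ n := by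
  rw [aeval_eq_sum_range]
  refine Submodule.sum_mem _ fun i hi => Submodule.smul_mem _ _ (pow_mem_gg ψ ?_)
  rw [Finset.mem_range] at hi
  omega

private lemma gg_le (ψ : K) (n : ℕ) :
    gg k ψ ^ n ≤ Submodule.span k ((fun i : ℕ => ψ ^ i) '' {i | i ≤ n}) := by
  induction n with
  | zero =>
    rw [pow_zero, Submodule.one_le]
    exact Submodule.subset_span ⟨0, show (0 : ℕ) ≤ 0 from le_rfl, pow_zero ψ⟩
  | succ n ih =>
    rw [pow_succ]
    refine (mul_le_mul' ih le_rfl).trans ?_
    unfold gg
    rw [Submodule.span_mul_span, Submodule.span_le]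
    rintro _ ⟨_, ⟨i, hi, rfl⟩, y, hy, rfl⟩
    have hi' : i ≤ n := hi
    rcases hy with rfl | rfl
    · refine Submodule.subset_span ⟨i, ?_, ?_⟩
      · show i ≤ n + 1
        omega
      · simp
    · refine Submodule.subset_span ⟨i + 1, ?_, ?_⟩
      · show i + 1 ≤ n + 1
        omega
      · simp [pow_succ]

private lemma finrank_gg_mul (ψ : K) (n r : ℕ) (w : Fin r → K) :
    Module.finrank k ((gg k ψ ^ n * Submodule.span k (Set.range w) : Submodule k K)) ≤
      (n + 1) * r := by
  classical
  have h1 : gg k ψ ^ n * Submodule.span k (Set.range w) ≤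
      Submodule.span k (Set.range (fun q : Fin (n + 1) × Fin r => ψ ^ (q.1 : ℕ) * w q.2)) := by
    refine (mul_le_mul' (gg_le ψ n) le_rfl).trans ?_
    rw [Submodule.span_mul_span, Submodule.span_le]
    rintro _ ⟨_, ⟨i, hi, rfl⟩, _, ⟨l, rfl⟩, rfl⟩
    have hi' : i ≤ n := hi
    exact Submodule.subset_span ⟨(⟨i, by omega⟩, l), rfl⟩
  have h2 : Module.Finite k (Submodule.span k
      (Set.range (fun q : Fin (n + 1) × Fin r => ψ ^ (q.1 : ℕ) * w q.2))) :=
    Module.Finite.iff_fg.2 (Submodule.fg_span (Set.finite_range _))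
  refine (Submodule.finrank_mono h1).trans ?_
  refine (finrank_range_le_card (R := k) (fun q : Fin (n + 1) × Fin r => ψ ^ (q.1 : ℕ) * w q.2)).trans ?_
  rw [Fintype.card_prod, Fintype.card_fin, Fintype.card_fin]

omit [DecidableEq B] in
open scoped Pointwise in
/-- `Wt` through `gg`. -/
private lemma wt_gg (L : B → Submodule k K) (α α' : K) (h0' : α' ≠ 0) (t : ℕ) (c : B → ℕ) :
    Wt L α α' t c = (gg k (-α / α') ^ t * Rm L c).map (LinearMap.mulLeft k (α' ^ t)) := by
  have h1 : Submodule.span k {α, α'} = Submodule.span k {α'} * gg k (-α / α') := by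
    unfold gg
    rw [Submodule.span_mul_span]
    apply le_antisymm
    · rw [Submodule.span_le]
      intro x hx
      rcases hx with hx | hx
      · rw [hx]
        have h2 : α' * (-α / α') ∈ ({α'} : Set K) * ({1, -α / α'} : Set K) :=
          Set.mul_mem_mul rfl (Or.inr rfl)
        have h3 := Submodule.neg_mem _ (Submodule.subset_span (R := k) h2)
        have h4 : -(α' * (-α / α')) = α := by
          rw [mul_div_cancel₀ _ h0', neg_neg]
        rw [h4] at h3
        exact h3
      · rw [hx]
        have h2 : α' * 1 ∈ ({α'} : Set K) * ({1, -α / α'} : Set K) :=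
          Set.mul_mem_mul rfl (Or.inl rfl)
        rw [mul_one] at h2
        exact Submodule.subset_span h2
    · rw [Submodule.span_le]
      rintro _ ⟨x, hx, y, hy, rfl⟩
      have hx' : x = α' := hx
      rcases hy with hy | hy
      · show x * y ∈ Submodule.span k {α, α'}
        rw [hx', hy, mul_one]
        exact Submodule.subset_span (Or.inr rfl)
      · show x * y ∈ Submodule.span k {α, α'}
        rw [hx', hy, mul_div_cancel₀ _ h0']
        exact Submodule.neg_mem _ (Submodule.subset_span (Or.inl rfl))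
  unfold Wt
  rw [h1, mul_pow, Submodule.span_pow, Set.singleton_pow, mul_assoc]
  ext x
  rw [Submodule.mem_span_singleton_mul, Submodule.mem_map]
  simp only [LinearMap.mulLeft_apply]

private lemma finrank_map_mulLeft (a : K) (ha : a ≠ 0) (S : Submodule k K) :
    Module.finrank k (S.map (LinearMap.mulLeft k a)) = Module.finrank k S := by
  rw [← LinearMap.range_domRestrict]
  apply LinearMap.finrank_range_of_inj
  rw [← LinearMap.ker_eq_bot, LinearMap.ker_eq_bot']
  rintro ⟨x, hx⟩ h0
  have h1 : a * x = 0 := h0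
  exact Subtype.ext ((mul_eq_zero.1 h1).resolve_left ha)

private lemma finrank_wt (L : B → Submodule k K) (α α' : K) (h0' : α' ≠ 0) (t : ℕ) (c : B → ℕ) :
    Module.finrank k (Wt L α α' t c) =
      Module.finrank k ((gg k (-α / α') ^ t * Rm L c : Submodule k K)) := by
  rw [wt_gg L α α' h0', finrank_map_mulLeft _ (pow_ne_zero t h0')]

private lemma linInd_pow (ψ : K) (hψ : Transcendental k ψ) (n : ℕ) :
    LinearIndependent k (fun s : Fin n => ψ ^ (s : ℕ)) := by
  have h1 : LinearIndependent k (fun s : ℕ => ψ ^ s) := by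
    have h2 := (Polynomial.basisMonomials k).linearIndependent.map'
      (aeval (R := k) ψ).toLinearMap
      (LinearMap.ker_eq_bot.2 (transcendental_iff_injective.1 hψ))
    have h3 : (fun s : ℕ => ψ ^ s) =
        ⇑(aeval (R := k) ψ).toLinearMap ∘ ⇑(Polynomial.basisMonomials k) := by
      funext s
      simp
    rw [h3]
    exact h2
  exact h1.comp _ Fin.val_injective

/-- the lower bound -/
private lemma low (ψ : K) (hψ : Transcendental k ψ) (W : Submodule k K) (hW : W.FG) (t : ℕ) :
    Module.finrank (IntermediateField.adjoin k {ψ}) (ex (IntermediateField.adjoin k {ψ}) W) *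
      (t + 1) ≤ Module.finrank k ((gg k ψ ^ t * W : Submodule k K)) := by
  classical
  have hfin : FiniteDimensional (IntermediateField.adjoin k {ψ})
      (Submodule.span (IntermediateField.adjoin k {ψ}) (W : Set K)) := by
    obtain ⟨S, hS⟩ := hW
    refine Module.Finite.iff_fg.2 ⟨S, ?_⟩
    have h := ex_span (IntermediateField.adjoin k {ψ}) (S : Set K)
    rw [hS] at h
    exact h.symm
  obtain ⟨w, hw, -, hli⟩ := Submodule.exists_fun_fin_finrank_span_eq
    (IntermediateField.adjoin k {ψ}) (W : Set K)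
  have hψF : ψ ∈ IntermediateField.adjoin k {ψ} := IntermediateField.mem_adjoin_simple_self k ψ
  have hg : LinearIndependent k
      (fun s : Fin (t + 1) => ((⟨ψ, hψF⟩ : IntermediateField.adjoin k {ψ}) ^ (s : ℕ))) := by
    refine LinearIndependent.of_comp ((IntermediateField.val _).toLinearMap) ?_
    exact linInd_pow ψ hψ (t + 1)
  have h2 := linearIndependent_smul hg hli
  have hfin2 : Module.Finite k ((gg k ψ ^ t * W : Submodule k K)) := by
    refine Module.Finite.iff_fg.2 (Submodule.FG.mul (Submodule.FG.pow ?_ t) hW)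
    exact Submodule.fg_span (Set.toFinite _)
  have h3 := Submodule.finrank_mono (R := k) (s := Submodule.span k (Set.range
    (fun p : Fin (t + 1) × Fin _ =>
      ((⟨ψ, hψF⟩ : IntermediateField.adjoin k {ψ}) ^ (p.1 : ℕ)) • w p.2)))
    (t := (gg k ψ ^ t * W : Submodule k K)) (by
      rw [Submodule.span_le]
      rintro _ ⟨p, rfl⟩
      have h4 : ψ ^ (p.1 : ℕ) * w p.2 ∈ gg k ψ ^ t * W :=
        Submodule.mul_mem_mul (pow_mem_gg ψ (by omega)) (hw p.2)
      exact h4)
  rw [finrank_span_eq_card h2, Fintype.card_prod, Fintype.card_fin, Fintype.card_fin] at h3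
  rw [mul_comm]
  exact h3

/-- the common denominator -/
private lemma denom (ψ : K) (U : Submodule k K) (S : Finset K)
    (hS : ∀ x ∈ S, ∃ (q : k[X]) (N : ℕ), aeval ψ q ≠ 0 ∧ aeval ψ q * x ∈ gg k ψ ^ N * U) :
    ∃ (q : k[X]) (N : ℕ), aeval ψ q ≠ 0 ∧ ∀ x ∈ S, aeval ψ q * x ∈ gg k ψ ^ N * U := by
  classical
  induction S using Finset.induction_on with
  | empty => exact ⟨1, 0, by simp, by simp⟩
  | insert a S _ ih =>
    obtain ⟨q, N, hq, h1⟩ := ih fun x hx => hS x (Finset.mem_insert_of_mem hx)
    obtain ⟨q', N', hq', h2⟩ := hS a (Finset.mem_insert_self a S)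
    refine ⟨q * q', q.natDegree + q'.natDegree + N + N', by
      rw [map_mul]; exact mul_ne_zero hq hq', fun x hx => ?_⟩
    rw [map_mul]
    rcases Finset.mem_insert.1 hx with rfl | hx
    · rw [mul_assoc]
      have h3 := Submodule.mul_mem_mul (aeval_mem_gg ψ q (le_refl _)) h2
      rw [← mul_assoc (gg k ψ ^ q.natDegree), ← pow_add] at h3
      exact mul_le_mul' (gg_mono ψ (by omega)) le_rfl h3
    · have h3 := Submodule.mul_mem_mul (aeval_mem_gg ψ q' (le_refl _)) (h1 x hx)
      rw [← mul_assoc (gg k ψ ^ q'.natDegree), ← pow_add] at h3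
      have h4 : aeval ψ q * aeval ψ q' * x = aeval ψ q' * (aeval ψ q * x) := by ring
      rw [h4]
      exact mul_le_mul' (gg_mono ψ (by omega)) le_rfl h3

private lemma denom1 (ψ : K) (w : Set K) (x : K)
    (hx : x ∈ Submodule.span (IntermediateField.adjoin k {ψ}) w) :
    ∃ (q : k[X]) (N : ℕ), aeval ψ q ≠ 0 ∧
      aeval ψ q * x ∈ gg k ψ ^ N * Submodule.span k w := by
  induction hx using Submodule.span_induction with
  | mem x h =>
    refine ⟨1, 0, by simp, ?_⟩
    rw [map_one, one_mul, pow_zero, one_mul]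
    exact Submodule.subset_span h
  | zero => exact ⟨1, 0, by simp, by simp⟩
  | add x y _ _ h1 h2 =>
    obtain ⟨q, N, hq, h1⟩ := h1
    obtain ⟨q', N', hq', h2⟩ := h2
    refine ⟨q * q', q.natDegree + q'.natDegree + N + N', by
      rw [map_mul]; exact mul_ne_zero hq hq', ?_⟩
    have h3 := Submodule.mul_mem_mul (aeval_mem_gg ψ q' (le_refl _)) h1
    have h4 := Submodule.mul_mem_mul (aeval_mem_gg ψ q (le_refl _)) h2
    rw [← mul_assoc (gg k ψ ^ q'.natDegree), ← pow_add] at h3
    rw [← mul_assoc (gg k ψ ^ q.natDegree), ← pow_add] at h4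
    have h5 : aeval ψ (q * q') * (x + y) =
        aeval ψ q' * (aeval ψ q * x) + aeval ψ q * (aeval ψ q' * y) := by
      rw [map_mul]; ring
    rw [h5]
    exact Submodule.add_mem _ (mul_le_mul' (gg_mono ψ (by omega)) le_rfl h3)
      (mul_le_mul' (gg_mono ψ (by omega)) le_rfl h4)
  | smul f x _ h =>
    obtain ⟨q, N, hq, h⟩ := h
    obtain ⟨p, s, hf⟩ := (IntermediateField.mem_adjoin_simple_iff k (f : K)).1 f.2
    have hsm : f • x = (f : K) * x := rfl
    by_cases hs : aeval ψ s = 0
    · refine ⟨1, 0, by simp, ?_⟩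
      rw [hsm, hf, hs, div_zero, zero_mul, mul_zero]
      exact Submodule.zero_mem _
    · refine ⟨s * q, p.natDegree + N, by rw [map_mul]; exact mul_ne_zero hs hq, ?_⟩
      have h3 := Submodule.mul_mem_mul (aeval_mem_gg ψ p (le_refl _)) h
      rw [← mul_assoc (gg k ψ ^ p.natDegree), ← pow_add] at h3
      have h4 : aeval ψ (s * q) * (f • x) = aeval ψ p * (aeval ψ q * x) := by
        rw [hsm, hf, map_mul]
        field_simp
      rw [h4]
      exact h3

/-- the upper bound -/
private lemma upp (ψ : K) (W : Submodule k K) (hW : W.FG) :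
    ∃ N : ℕ, ∀ t : ℕ, Module.finrank k ((gg k ψ ^ t * W : Submodule k K)) ≤ (t + N + 1) *
      Module.finrank (IntermediateField.adjoin k {ψ}) (ex (IntermediateField.adjoin k {ψ}) W) := by
  classical
  obtain ⟨S, rfl⟩ := hW
  have hfin : FiniteDimensional (IntermediateField.adjoin k {ψ})
      (Submodule.span (IntermediateField.adjoin k {ψ})
        ((Submodule.span k (S : Set K) : Submodule k K) : Set K)) := by
    refine Module.Finite.iff_fg.2 ⟨S, ?_⟩
    exact (ex_span (IntermediateField.adjoin k {ψ}) (S : Set K)).symm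
  obtain ⟨w, -, hw, -⟩ := Submodule.exists_fun_fin_finrank_span_eq
    (IntermediateField.adjoin k {ψ}) ((Submodule.span k (S : Set K) : Submodule k K) : Set K)
  obtain ⟨q, N, hq, h1⟩ := denom ψ (Submodule.span k (Set.range w)) S (fun x hx => by
    apply denom1
    rw [hw]
    exact Submodule.subset_span (Submodule.subset_span hx))
  refine ⟨N, fun t => ?_⟩
  have h2 : (Submodule.span k (S : Set K)).map (LinearMap.mulLeft k (aeval ψ q)) ≤
      gg k ψ ^ N * Submodule.span k (Set.range w) := by
    rw [Submodule.map_span, Submodule.span_le]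
    rintro _ ⟨x, hx, rfl⟩
    exact h1 x hx
  have h3 : (gg k ψ ^ t * Submodule.span k (S : Set K)).map (LinearMap.mulLeft k (aeval ψ q)) ≤
      gg k ψ ^ (t + N) * Submodule.span k (Set.range w) := by
    rw [pow_add, mul_assoc]
    rintro _ ⟨x, hx, rfl⟩
    rw [LinearMap.mulLeft_apply]
    have h4 : aeval ψ q * x ∈
        Submodule.span k {aeval ψ q} * (gg k ψ ^ t * Submodule.span k (S : Set K)) :=
      Submodule.mul_mem_mul (Submodule.mem_span_singleton_self _) hx
    rw [mul_left_comm] at h4
    have h5 : Submodule.span k {aeval ψ q} * Submodule.span k (S : Set K) ≤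
        gg k ψ ^ N * Submodule.span k (Set.range w) := by
      intro y hy
      rw [Submodule.mem_span_singleton_mul] at hy
      obtain ⟨z, hz, rfl⟩ := hy
      exact h2 ⟨z, hz, rfl⟩
    exact mul_le_mul_right h5 _ h4
  have hfin2 : Module.Finite k
      ((gg k ψ ^ (t + N) * Submodule.span k (Set.range w) : Submodule k K)) := by
    refine Module.Finite.iff_fg.2 (Submodule.FG.mul (Submodule.FG.pow ?_ _)
      (Submodule.fg_span (Set.finite_range _)))
    exact Submodule.fg_span (Set.toFinite _)
  rw [← finrank_map_mulLeft (aeval ψ q) hq]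
  exact (Submodule.finrank_mono h3).trans (finrank_gg_mul ψ (t + N) _ w)

theorem exd (L : B → Submodule k K) (hL : Irm L) (a : B → ℕ) (α α' : K) (hα : α ∈ Rm L a)
    (hα' : α' ∈ Rm L a) (h0 : α ≠ 0) (h0' : α' ≠ 0) (c₁ : B → ℕ) (hnz : NZ L a α α' c₁)
    (hψ : Transcendental k (-α / α')) (c : B → ℕ) (hc : c₁ ≤ c) :
    hm (fun b => ex (IntermediateField.adjoin k {-α / α'}) (L b)) c =
      hm L c - hm L (c - a) := by
  have hfg : (Rm L c).FG := rm_fg L hL.fg c
  have hpen := fun t : ℕ => pen L hL a α α' hα hα' h0 c₁ hnz t c hc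
  have hlow := low (-α / α') hψ (Rm L c) hfg
  obtain ⟨N, hupp⟩ := upp (-α / α') (Rm L c) hfg
  have hr : hm (fun b => ex (IntermediateField.adjoin k {-α / α'}) (L b)) c =
      (Module.finrank (IntermediateField.adjoin k {-α / α'})
        (ex (IntermediateField.adjoin k {-α / α'}) (Rm L c)) : ℤ) := by
    unfold hm
    rw [rm_ex]
  rw [hr]
  generalize Module.finrank (IntermediateField.adjoin k {-α / α'})
        (ex (IntermediateField.adjoin k {-α / α'}) (Rm L c)) = r at hlow hupp ⊢
  have h1 : ∀ t : ℕ, (r : ℤ) * (t + 1) ≤ (t + 1) * hm L c - t * hm L (c - a) := by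
    intro t
    rw [← hpen t, finrank_wt L α α' h0']
    exact_mod_cast hlow t
  have h2 : ∀ t : ℕ, (t + 1) * hm L c - t * hm L (c - a) ≤ ((t : ℤ) + N + 1) * r := by
    intro t
    rw [← hpen t, finrank_wt L α α' h0']
    exact_mod_cast hupp t
  generalize hm L c = h at h1 h2 ⊢
  generalize hm L (c - a) = h' at h1 h2 ⊢
  apply le_antisymm
  · by_contra hcon
    push Not at hcon
    obtain ⟨T, hT⟩ : ∃ T : ℕ, h - r ≤ (T : ℤ) := ⟨(h - r).toNat, Int.self_le_toNat _⟩
    have h3 := h1 (T + 1)
    push_cast at h3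
    have h5 : 0 ≤ ((T : ℤ) + 1) * (r - 1 - (h - h')) :=
      mul_nonneg (by positivity) (by linarith)
    linarith
  · by_contra hcon
    push Not at hcon
    obtain ⟨T, hT⟩ : ∃ T : ℕ, ((N : ℤ) + 1) * r - h ≤ (T : ℤ) :=
      ⟨(((N : ℤ) + 1) * r - h).toNat, Int.self_le_toNat _⟩
    have h3 := h2 (T + 1)
    push_cast at h3
    have h5 : 0 ≤ ((T : ℤ) + 1) * ((h - h') - r - 1) :=
      mul_nonneg (by positivity) (by linarith)
    linarith

theorem exd_tr (L : B → Submodule k K) (hL : Irm L) (a : B → ℕ) (α α' : K) (hα : α ∈ Rm L a)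
    (hα' : α' ∈ Rm L a) (h0 : α ≠ 0) (h0' : α' ≠ 0) (c₁ : B → ℕ) (hnz : NZ L a α α' c₁)
    (c : B → ℕ) (hc : c₁ ≤ c) (h : hm L (c - a) < hm L c) :
    Transcendental k (-α / α') := by
  intro halg
  have hfg : (Rm L c).FG := rm_fg L hL.fg c
  set ψ : K := -α / α' with hψ
  have hS := (halg.isIntegral).fg_adjoin_singleton
  set S : Submodule k K := Subalgebra.toSubmodule (Algebra.adjoin k {ψ}) with hSdef
  have hgS : gg k ψ ≤ S := by
    unfold gg
    rw [Submodule.span_le]
    rintro x (rfl | rfl)
    · exact (Algebra.adjoin k {ψ}).one_mem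
    · exact Algebra.self_mem_adjoin_singleton k _
  have hgS' : ∀ t : ℕ, gg k ψ ^ t ≤ S := by
    intro t
    induction t with
    | zero =>
      rw [pow_zero, Submodule.one_le]
      exact (Algebra.adjoin k {ψ}).one_mem
    | succ t ih =>
      rw [pow_succ, Submodule.mul_le]
      intro x hx y hy
      exact (Algebra.adjoin k {ψ}).mul_mem (ih hx) (hgS hy)
  have hfin2 : Module.Finite k ((S * Rm L c : Submodule k K)) :=
    Module.Finite.iff_fg.2 (Submodule.FG.mul hS hfg)
  have h1 : ∀ t : ℕ, ((t : ℤ) + 1) * hm L c - t * hm L (c - a) ≤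
      Module.finrank k ((S * Rm L c : Submodule k K)) := by
    intro t
    rw [← pen L hL a α α' hα hα' h0 c₁ hnz t c hc, finrank_wt L α α' h0']
    exact_mod_cast Submodule.finrank_mono (mul_le_mul' (hgS' t) le_rfl)
  have h3 := h1 (Module.finrank k ((S * Rm L c : Submodule k K)) + 1)
  have h4 : 0 ≤ hm L (c - a) := by
    unfold hm
    exact Int.natCast_nonneg _
  push_cast at h3
  have h5 : 0 ≤ ((Module.finrank k ((S * Rm L c : Submodule k K)) : ℤ) + 1) *
      (hm L c - hm L (c - a) - 1) :=
    mul_nonneg (by positivity) (by linarith)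
  linarith

end Pool.Agent.HDG
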