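import Pool.Agent.HDG.Defs

/-!
# HDG GFL: the filtration by the order of vanishing at `ψ`

`R = k[X]` acts on `K[X]` (multiplication by `Polynomial.map (algebraMap k K) q`). Let
`M = {P | CI W P}`, an `R`-submodule; the constants `C w`, `w` in a basis of `W`, are linearly
independent over `R` (compare coefficients), so `finrank k W ≤ rank R M`.
`M i = {P ∈ M | (X - C ψ) ^ i ∣ P}`: `M 0 = M`; `M (J + 1) = 0` by `hJ`: if `P ≠ 0` is in `M (J + 1)` write
`P = (X - C ψ) ^ i * G` with `G.eval ψ ≠ 0` (`i = P.rootMultiplicity ψ > J`), then `G.eval ψ ∈ lc W ψ i`,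
contradiction. The map `M i → K`, `P = (X - C ψ) ^ i * G ↦ G.eval ψ`, has the image `lc W ψ i` and the
kernel `M (i + 1)`, and is semilinear for `R → k(ψ)`, `q ↦ q(ψ)`, which is injective (`hψ`). Elements of
`lc W ψ i` which are linearly independent over `R` are linearly independent over `k(ψ)` (clear
denominators: the elements of `k(ψ)` are quotients `p(ψ) / q(ψ)`), so
`rank R (M i) ≤ finrank k(ψ) (gr W ψ i) + rank R (M (i + 1))`
(`rank_quotient_add_rank_of_isDomain`; or by hand: a maximal independent family). `gr W ψ i` is finite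
dimensional by `gr_le`. Sum over `i ≤ J`.

`gr_le`: if `P = (X - C ψ) ^ i * G`, then `G.eval ψ = (Polynomial.hasseDeriv i P).eval ψ`
`= ∑ n, (n.choose i) * P.coeff n * ψ ^ (n - i)`: a combination of elements of `W` over `k(ψ)`. (Or by
induction on `i`, with divided differences.)

`lc_top`: if `a ∈ lc W ψ (i m)`, `a ≠ 0`, for `n + 1` different values `i 0 < ... < i n`, `n = finrank k W`,
with `P m = (X - C ψ) ^ (i m) * G m`, `G m (ψ) ≠ 0`, then the `P m ∈ M` are linearly independent over
`R`: in `∑ q m P m = 0` the nonzero terms have different orders at `ψ` (`q m (ψ) ≠ 0` if `q m ≠ 0`);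
but `M` has rank at most `n` over `R` (`M` is spanned by the `C w`, `w` in a basis of `W`). So only
finitely many `i` occur; `i = 0` occurs (constants `C w`, `w ≠ 0`). Take the largest one.
-/

open Polynomial

namespace Pool.Agent.HDG

open Pool.Agent.KST

variable {k K : Type*} [Field k] [Field K] [Algebra k K]

/-! ### auxiliary module structures over `k[X]` -/

/-- `K[X]` as a module over `k[X]` -/
@[reducible] private noncomputable def mP : Module k[X] K[X] :=
  Module.compHom K[X] (mapRingHom (algebraMap k K))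

attribute [local instance] mP

private theorem mP_smul (q : k[X]) (P : K[X]) : q • P = q.map (algebraMap k K) * P := rfl

/-- `K` with `X` acting as `ψ` -/
private def VK (_ψ : K) : Type _ := K

private def vk {ψ : K} (a : VK ψ) : K := a

private def kv (ψ : K) (a : K) : VK ψ := a

private noncomputable instance (ψ : K) : AddCommGroup (VK ψ) := inferInstanceAs (AddCommGroup K)

private noncomputable instance (ψ : K) : Module k[X] (VK ψ) :=
  Module.compHom K (aeval ψ : k[X] →ₐ[k] K).toRingHom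

private theorem VK_smul (ψ : K) (q : k[X]) (a : VK ψ) :
    q • a = kv ψ (aeval ψ q * vk a) := rfl

private theorem coeff_tay (ψ : K) (i : ℕ) (A G : K[X]) :
    (taylor ψ (A * ((X - C ψ) ^ i * G))).coeff i = A.eval ψ * G.eval ψ := by
  have h1 : taylor ψ (X - C ψ) = X := by simp
  have h2 : taylor ψ ((X - C ψ) ^ i) = X ^ i := by
    rw [← taylorAlgHom_apply, map_pow, taylorAlgHom_apply, h1]
  rw [taylor_mul, taylor_mul, h2]
  have h3 : taylor ψ A * (X ^ i * taylor ψ G) = (taylor ψ A * taylor ψ G) * X ^ i := by ring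
  rw [h3, coeff_mul_X_pow', if_pos le_rfl, Nat.sub_self, mul_coeff_zero, taylor_coeff_zero,
    taylor_coeff_zero]

private theorem coeff_tay1 (ψ : K) (i : ℕ) (G : K[X]) :
    (taylor ψ ((X - C ψ) ^ i * G)).coeff i = G.eval ψ := by
  have := coeff_tay ψ i 1 G
  simpa using this

/-- the filtration -/
private noncomputable def MM (W : Submodule k K) (ψ : K) (i : ℕ) : Submodule k[X] K[X] where
  carrier := {P | CI W P ∧ (X - C ψ) ^ i ∣ P}
  zero_mem' := ⟨fun n => by simp, dvd_zero _⟩
  add_mem' := fun {P Q} hP hQ =>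
    ⟨fun n => by rw [coeff_add]; exact W.add_mem (hP.1 n) (hQ.1 n), dvd_add hP.2 hQ.2⟩
  smul_mem' := fun q P hP => by
    refine ⟨fun n => ?_, ?_⟩
    · rw [mP_smul, coeff_mul]
      refine W.sum_mem fun x _ => ?_
      rw [coeff_map, ← Algebra.smul_def]
      exact W.smul_mem _ (hP.1 _)
    · rw [mP_smul]
      exact Dvd.dvd.mul_left hP.2 _

private theorem mem_MM {W : Submodule k K} {ψ : K} {i : ℕ} {P : K[X]} :
    P ∈ MM W ψ i ↔ CI W P ∧ (X - C ψ) ^ i ∣ P := Iff.rfl

/-- the symbol map -/
private noncomputable def sy (W : Submodule k K) (ψ : K) (i : ℕ) : MM W ψ i →ₗ[k[X]] VK ψ where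
  toFun P := ((taylor ψ (P : K[X])).coeff i : K)
  map_add' P Q := by
    show (taylor ψ ((P : K[X]) + (Q : K[X]))).coeff i = _
    rw [map_add, coeff_add]
    rfl
  map_smul' q P := by
    obtain ⟨P, hP, G, rfl⟩ := P
    show (taylor ψ (q.map (algebraMap k K) * ((X - C ψ) ^ i * G))).coeff i =
      aeval ψ q * (taylor ψ ((X - C ψ) ^ i * G)).coeff i
    rw [coeff_tay, coeff_tay1, eval_map_algebraMap]

private theorem sy_apply (W : Submodule k K) (ψ : K) (i : ℕ) (P : MM W ψ i) (G : K[X])
    (hG : (P : K[X]) = (X - C ψ) ^ i * G) : sy W ψ i P = kv ψ (G.eval ψ) := by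
  show (taylor ψ (P : K[X])).coeff i = _
  rw [hG, coeff_tay1]
  rfl

private theorem sy_mem (W : Submodule k K) (ψ : K) (i : ℕ) (P : MM W ψ i) :
    vk (sy W ψ i P) ∈ lc W ψ i := by
  obtain ⟨G, hG⟩ := P.2.2
  refine ⟨G, ?_, sy_apply W ψ i P G hG⟩
  rw [← hG]
  exact P.2.1

private theorem ker_sy (W : Submodule k K) (ψ : K) (i : ℕ) :
    (LinearMap.ker (sy W ψ i)).map (MM W ψ i).subtype = MM W ψ (i + 1) := by
  ext P
  constructor
  · rintro ⟨⟨P, hP, G, rfl⟩, hk, rfl⟩
    have h0 : sy W ψ i ⟨(X - C ψ) ^ i * G, hP, G, rfl⟩ = 0 := hk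
    rw [sy_apply W ψ i _ G rfl] at h0
    have h1 : G.IsRoot ψ := h0
    obtain ⟨H, rfl⟩ := dvd_iff_isRoot.2 h1
    refine ⟨hP, H, ?_⟩
    show (X - C ψ) ^ i * ((X - C ψ) * H) = _
    ring
  · rintro ⟨hP, H, rfl⟩
    have h2 : (X - C ψ) ^ (i + 1) * H = (X - C ψ) ^ i * ((X - C ψ) * H) := by ring
    refine ⟨⟨(X - C ψ) ^ (i + 1) * H, hP, (X - C ψ) * H, h2⟩, ?_, rfl⟩
    show sy W ψ i _ = 0
    rw [sy_apply W ψ i _ _ h2]
    show eval ψ ((X - C ψ) * H) = 0
    simp

private theorem rk_step (W : Submodule k K) (ψ : K) (i : ℕ) :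
    Module.rank k[X] (MM W ψ i) =
      Module.rank k[X] (LinearMap.range (sy W ψ i)) + Module.rank k[X] (MM W ψ (i + 1)) := by
  rw [← LinearMap.rank_range_add_rank_ker (sy W ψ i), ← ker_sy W ψ i]
  congr 1
  exact (Submodule.equivMapOfInjective (MM W ψ i).subtype
    (Submodule.subtype_injective _) _).rank_eq

private theorem aeval_ne {ψ : K} (hψ : Transcendental k ψ) {q : k[X]} (hq : q ≠ 0) :
    aeval ψ q ≠ 0 := by
  intro h
  exact hq ((transcendental_iff.1 hψ) q h)

theorem gr_le (W : Submodule k K) (ψ : K) (i : ℕ) :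
    gr W ψ i ≤ ex (IntermediateField.adjoin k {ψ}) W := by
  refine Submodule.span_le.2 ?_
  rintro a ⟨G, hG, rfl⟩
  have h1 := coeff_tay1 ψ i G
  rw [← h1, taylor_coeff, hasseDeriv_apply, Polynomial.sum, eval_finsetSum]
  refine Submodule.sum_mem _ fun n _ => ?_
  rw [eval_monomial]
  have hψ : ψ ∈ IntermediateField.adjoin k {ψ} := IntermediateField.mem_adjoin_simple_self k ψ
  have hc : ((n.choose i : K) * ψ ^ (n - i)) ∈ IntermediateField.adjoin k {ψ} :=
    mul_mem (natCast_mem _ _) (pow_mem hψ _)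
  have h2 : ((n.choose i : K) * ((X - C ψ) ^ i * G).coeff n) * ψ ^ (n - i) =
      (⟨_, hc⟩ : IntermediateField.adjoin k {ψ}) • ((X - C ψ) ^ i * G).coeff n := by
    rw [Algebra.smul_def]
    show _ = ((n.choose i : K) * ψ ^ (n - i)) * _
    ring
  rw [h2]
  exact Submodule.smul_mem _ _ (Submodule.subset_span (hG n))

private theorem fd_ex (F : IntermediateField k K) (W : Submodule k K) (hW : W.FG) :
    FiniteDimensional F (ex F W) := by
  obtain ⟨s, hs⟩ := hW
  have h1 : ex F W = Submodule.span F (s : Set K) := by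
    refine le_antisymm (Submodule.span_le.2 ?_) (Submodule.span_mono ?_)
    · intro w hw
      have hw' : w ∈ Submodule.span k (s : Set K) := by rw [hs]; exact hw
      exact Submodule.span_subset_span k F _ hw'
    · intro w hw
      have : w ∈ Submodule.span k (s : Set K) := Submodule.subset_span hw
      rw [hs] at this
      exact this
  rw [h1]
  exact FiniteDimensional.span_finset F s

private theorem fd_gr (W : Submodule k K) (hW : W.FG) (ψ : K) (i : ℕ) :
    FiniteDimensional (IntermediateField.adjoin k {ψ}) (gr W ψ i) := by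
  have := fd_ex (IntermediateField.adjoin k {ψ}) W hW
  exact Submodule.finiteDimensional_of_le (gr_le W ψ i)

private theorem indep_F {ψ : K} (hψ : Transcendental k ψ) {ι : Type*} [Fintype ι] [DecidableEq ι]
    (v : ι → VK ψ) (hv : LinearIndependent k[X] v) :
    LinearIndependent (IntermediateField.adjoin k {ψ}) (fun j => vk (v j)) := by
  rw [Fintype.linearIndependent_iff] at hv ⊢
  intro c hc
  have h1 : ∀ j, ∃ p q : k[X], q ≠ 0 ∧ (c j : K) * aeval ψ q = aeval ψ p := by
    intro j
    obtain ⟨r, s, h⟩ := (IntermediateField.mem_adjoin_simple_iff k (c j : K)).1 (c j).2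
    by_cases hs : aeval ψ s = 0
    · refine ⟨0, 1, one_ne_zero, ?_⟩
      rw [h, hs]; simp
    · refine ⟨r, s, ?_, ?_⟩
      · rintro rfl
        simp at hs
      · rw [h, div_mul_cancel₀ _ hs]
  choose p q hq hpq using h1
  have h2 : ∀ j, (c j : K) * aeval ψ (∏ l, q l) = aeval ψ (p j * ∏ l ∈ Finset.univ.erase j, q l) := by
    intro j
    rw [← Finset.mul_prod_erase Finset.univ q (Finset.mem_univ j), map_mul, map_mul, ← mul_assoc,
      hpq j]
  have h3 : ∑ j, (p j * ∏ l ∈ Finset.univ.erase j, q l) • v j = 0 := by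
    have h4 : ∀ j, (p j * ∏ l ∈ Finset.univ.erase j, q l) • v j =
        kv ψ (aeval ψ (∏ l, q l) * ((c j : K) * vk (v j))) := by
      intro j
      rw [VK_smul, ← h2 j]
      congr 1
      ring
    rw [Finset.sum_congr rfl fun j _ => h4 j]
    show (∑ j, aeval ψ (∏ l, q l) * ((c j : K) * vk (v j))) = 0
    rw [← Finset.mul_sum]
    have h5 : ∑ j, (c j : K) * vk (v j) = 0 := by
      have := hc
      simp only [Algebra.smul_def] at this
      exact this
    rw [h5, mul_zero]
  intro j
  have h6 := hv _ h3 j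
  have h7 : p j = 0 := by
    rcases mul_eq_zero.1 h6 with h | h
    · exact h
    · exfalso
      rw [Finset.prod_eq_zero_iff] at h
      obtain ⟨l, _, hl⟩ := h
      exact hq l hl
  have h8 := hpq j
  rw [h7, map_zero] at h8
  rcases mul_eq_zero.1 h8 with h | h
  · exact Subtype.ext h
  · exact absurd h (aeval_ne hψ (hq j))

private theorem rk_range {ψ : K} (hψ : Transcendental k ψ) (W : Submodule k K) (hW : W.FG)
    (i : ℕ) : Module.rank k[X] (LinearMap.range (sy W ψ i)) ≤
      (Module.finrank (IntermediateField.adjoin k {ψ}) (gr W ψ i) : Cardinal) := by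
  have := fd_gr W hW ψ i
  refine rank_le fun s hs => ?_
  classical
  have h1 : LinearIndependent k[X] (fun j : s => ((j : LinearMap.range (sy W ψ i)) : VK ψ)) :=
    hs.map' (Submodule.subtype _) (Submodule.ker_subtype _)
  have h2 := indep_F hψ _ h1
  have h3 : ∀ j : s, vk ((j : LinearMap.range (sy W ψ i)) : VK ψ) ∈ gr W ψ i := by
    rintro ⟨⟨a, P, rfl⟩, _⟩
    exact Submodule.subset_span (sy_mem W ψ i P)
  have h4 : LinearIndependent (IntermediateField.adjoin k {ψ})
      (fun j : s => (⟨_, h3 j⟩ : gr W ψ i)) := by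
    refine LinearIndependent.of_comp (Submodule.subtype _) ?_
    exact h2
  have h5 := h4.fintype_card_le_finrank
  simpa using h5

private theorem rk_top (W : Submodule k K) (ψ : K) (hW : W.FG) :
    Module.rank k[X] (MM W ψ 0) = (Module.finrank k W : Cardinal) := by
  have : Module.Finite k W := Module.Finite.iff_fg.2 hW
  let b := Module.finBasis k W
  have hb : ∀ j, C ((b j : W) : K) ∈ MM W ψ 0 := by
    intro j
    refine ⟨fun n => ?_, by simp⟩
    rw [coeff_C]
    split_ifs
    · exact (b j).2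
    · exact W.zero_mem
  let v : Fin (Module.finrank k W) → MM W ψ 0 := fun j => ⟨C ((b j : W) : K), hb j⟩
  refine le_antisymm ?_ ?_
  · have hsp : (⊤ : Submodule k[X] (MM W ψ 0)) = Submodule.span k[X] (Set.range v) := by
      refine le_antisymm ?_ le_top
      have h1 : ∀ P ∈ MM W ψ 0, P ∈ Submodule.span k[X]
          (Set.range fun j => (C ((b j : W) : K) : K[X])) := by
        intro P hP
        have h2 : P = ∑ n ∈ P.support, (X ^ n : k[X]) • C (P.coeff n) := by
          conv_lhs => rw [P.as_sum_support]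
          refine Finset.sum_congr rfl fun n _ => ?_
          rw [mP_smul, Polynomial.map_pow, map_X, mul_comm, C_mul_X_pow_eq_monomial]
        rw [h2]
        refine Submodule.sum_mem _ fun n _ => Submodule.smul_mem _ _ ?_
        have h3 : P.coeff n = ∑ j, (b.repr ⟨P.coeff n, hP.1 n⟩ j) • ((b j : W) : K) := by
          have h4 := b.sum_repr ⟨P.coeff n, hP.1 n⟩
          have h5 := congrArg (Submodule.subtype W) h4
          rw [map_sum] at h5
          simp only [Submodule.subtype_apply, Submodule.coe_smul] at h5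
          exact h5.symm
        rw [h3, map_sum]
        refine Submodule.sum_mem _ fun j _ => ?_
        have h6 : C ((b.repr ⟨P.coeff n, hP.1 n⟩ j) • ((b j : W) : K)) =
            (C (b.repr ⟨P.coeff n, hP.1 n⟩ j) : k[X]) • C ((b j : W) : K) := by
          rw [mP_smul, map_C, ← C_mul, Algebra.smul_def]
        rw [h6]
        exact Submodule.smul_mem _ _ (Submodule.subset_span ⟨j, rfl⟩)
      rintro ⟨P, hP⟩ _
      have h7 := h1 P hP
      have h8 : (Set.range fun j => (C ((b j : W) : K) : K[X])) =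
          (MM W ψ 0).subtype '' Set.range v := by
        rw [← Set.range_comp]
        rfl
      rw [h8, Submodule.span_image] at h7
      obtain ⟨x, hx, hx'⟩ := h7
      have : x = ⟨P, hP⟩ := Subtype.ext hx'
      rw [← this]
      exact hx
    rw [← rank_top, hsp]
    refine (rank_span_le _).trans ?_
    have := Cardinal.mk_range_le_lift (f := v)
    have h9 : Cardinal.lift.{0} (Cardinal.mk (Set.range v)) ≤
        Cardinal.lift (Cardinal.mk (Fin (Module.finrank k W))) := this
    simpa using h9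
  · have hv : LinearIndependent k[X] v := by
      rw [Fintype.linearIndependent_iff]
      intro g hg j
      have h1 : ∑ j, (g j).map (algebraMap k K) * C ((b j : W) : K) = 0 := by
        have h2 := congrArg (Submodule.subtype _) hg
        rw [map_sum, map_zero] at h2
        exact h2
      ext n
      rw [coeff_zero]
      have h3 : ∑ j, (g j).coeff n • (b j : W) = 0 := by
        refine Subtype.ext ?_
        have h4 := congrArg (fun P => coeff P n) h1
        simp only [finsetSum_coeff, coeff_mul_C, coeff_map, coeff_zero] at h4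
        have h5 : ((∑ j, (g j).coeff n • (b j : W) : W) : K) =
            ∑ j, algebraMap k K ((g j).coeff n) * ((b j : W) : K) := by
          rw [← Submodule.subtype_apply, map_sum]
          refine Finset.sum_congr rfl fun j _ => ?_
          rw [map_smul, Algebra.smul_def]
          rfl
        rw [h5, h4]
        rfl
      exact Fintype.linearIndependent_iff.1 b.linearIndependent _ h3 j
    have := hv.cardinal_lift_le_rank
    simpa using this

private theorem le_sum {ψ : K} (hψ : Transcendental k ψ) (W : Submodule k K) (hW : W.FG) (i : ℕ) :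
    Module.rank k[X] (MM W ψ 0) ≤ ((∑ l ∈ Finset.range i,
      Module.finrank (IntermediateField.adjoin k {ψ}) (gr W ψ l) : ℕ) : Cardinal) +
        Module.rank k[X] (MM W ψ i) := by
  induction i with
  | zero => simp
  | succ i ih =>
    refine ih.trans ?_
    rw [rk_step W ψ i, Finset.sum_range_succ, Nat.cast_add, add_assoc]
    gcongr
    exact rk_range hψ W hW i

private theorem rk_pos {ψ : K} (hψ : Transcendental k ψ) (W : Submodule k K) (i : ℕ)
    (h : ∃ a ∈ lc W ψ i, a ≠ 0) :
    1 ≤ Module.rank k[X] (LinearMap.range (sy W ψ i)) := by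
  obtain ⟨a, ⟨G, hG, rfl⟩, ha⟩ := h
  rw [Cardinal.one_le_iff_ne_zero]
  intro h0
  rw [rank_eq_zero_iff] at h0
  obtain ⟨q, hq, hqx⟩ := h0 ⟨_, ⟨⟨(X - C ψ) ^ i * G, hG, G, rfl⟩, rfl⟩⟩
  have h1 := congrArg (Submodule.subtype _) hqx
  rw [map_zero, map_smul] at h1
  have h2 : aeval ψ q * G.eval ψ = 0 := by
    have h3 := sy_apply W ψ i ⟨(X - C ψ) ^ i * G, hG, G, rfl⟩ G rfl
    have h4 : aeval ψ q * vk (sy W ψ i ⟨(X - C ψ) ^ i * G, hG, G, rfl⟩) = 0 := h1
    rw [h3] at h4
    exact h4
  rcases mul_eq_zero.1 h2 with h | h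
  · exact aeval_ne hψ hq h
  · exact ha h

private theorem rk_anti (W : Submodule k K) (ψ : K) {i j : ℕ} (h : i ≤ j) :
    Module.rank k[X] (MM W ψ j) ≤ Module.rank k[X] (MM W ψ i) := by
  refine Submodule.rank_mono ?_
  rintro P ⟨hP, hd⟩
  exact ⟨hP, (pow_dvd_pow _ h).trans hd⟩

theorem lc_top (ψ : K) (hψ : Transcendental k ψ) (W : Submodule k K) (hW : W.FG) (h0 : W ≠ ⊥) :
    ∃ J : ℕ, (∃ a ∈ lc W ψ J, a ≠ 0) ∧ ∀ i, J < i → lc W ψ i ⊆ {0} := by
  by_contra hcon
  have hstep : ∀ J : ℕ, (∃ a ∈ lc W ψ J, a ≠ 0) → ∃ i, J < i ∧ ∃ a ∈ lc W ψ i, a ≠ 0 := by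
    intro J hJ
    by_contra h
    refine hcon ⟨J, hJ, fun i hi a ha => ?_⟩
    by_contra h'
    exact h ⟨i, hi, a, ha, h'⟩
  have hz : ∃ a ∈ lc W ψ 0, a ≠ 0 := by
    obtain ⟨w, hw, hw0⟩ := Submodule.exists_mem_ne_zero_of_ne_bot h0
    refine ⟨w, ⟨C w, fun n => ?_, by simp⟩, hw0⟩
    rw [pow_zero, one_mul, coeff_C]
    split_ifs
    · exact hw
    · exact W.zero_mem
  have hm : ∀ m : ℕ, ∃ j : ℕ, (∃ a ∈ lc W ψ j, a ≠ 0) ∧
      (m : Cardinal) + Module.rank k[X] (MM W ψ j) ≤ Module.rank k[X] (MM W ψ 0) := by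
    intro m
    induction m with
    | zero => exact ⟨0, hz, by simp⟩
    | succ m ih =>
      obtain ⟨j, hj, hr⟩ := ih
      obtain ⟨i, hi, ha⟩ := hstep j hj
      refine ⟨i, ha, ?_⟩
      refine le_trans ?_ hr
      rw [rk_step W ψ j, Nat.cast_add, Nat.cast_one, add_assoc]
      gcongr
      · exact rk_pos hψ W j hj
      · exact rk_anti W ψ hi
  obtain ⟨j, _, hj⟩ := hm (Module.finrank k W + 1)
  rw [rk_top W ψ hW] at hj
  have h1 : ((Module.finrank k W + 1 : ℕ) : Cardinal) ≤ (Module.finrank k W : Cardinal) :=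
    le_trans (self_le_add_right _ _) hj
  have h2 := (Nat.cast_le (α := Cardinal)).1 h1
  omega

theorem gfl (ψ : K) (hψ : Transcendental k ψ) (W : Submodule k K) (hW : W.FG) (J : ℕ)
    (hJ : ∀ i, J < i → lc W ψ i ⊆ {0}) :
    Module.finrank k W ≤ ∑ i ∈ Finset.range (J + 1),
      Module.finrank (IntermediateField.adjoin k {ψ}) (gr W ψ i) := by
  have h1 := le_sum hψ W hW (J + 1)
  have h2 : MM W ψ (J + 1) = ⊥ := by
    rw [eq_bot_iff]
    rintro P ⟨hP, hd⟩
    rw [Submodule.mem_bot]
    by_contra hP0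
    have h3 : J + 1 ≤ P.rootMultiplicity ψ := (le_rootMultiplicity_iff hP0).2 hd
    obtain ⟨G, hG, hG'⟩ := exists_eq_pow_rootMultiplicity_mul_and_not_dvd P hP0 ψ
    have h4 : G.eval ψ ∈ lc W ψ (P.rootMultiplicity ψ) := by
      refine ⟨G, ?_, rfl⟩
      rw [← hG]
      exact hP
    have h5 := hJ _ (by omega) h4
    exact hG' (dvd_iff_isRoot.2 h5)
  rw [h2, rk_top W ψ hW, rank_bot, add_zero] at h1
  exact_mod_cast h1

end Pool.Agent.HDG
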