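import Pool.Agent.HDG.Defs

/-!
# HDG PFAC: polynomials vanishing at `ψ`

Let `ψ = -α / α'`. (1) Let `c₁ ≤ c'`, `P : K[X]` with coefficients in `Rm L c'` and `P.eval ψ = 0`. Then
`P = (C α + X * C α') * P'` with the coefficients of `P'` in `Rm L (c' - a)`. Induction on
`P.natDegree = d` (strong, `P = 0` trivial): with `p n = P.coeff n`, multiply `P.eval ψ = 0` by `α' ^ d`:
`α' ^ d * p 0 = α * G₁` with `G₁ = -∑_{1 ≤ n ≤ d} p n (-1) ^ n α ^ (n - 1) α' ^ (d - n) ∈ Rm L (c' + (d - 1) • a)`.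
If `d = 0` then `P = 0`. Apply `NZ` (`hnz.2`) to `F = α' ^ (d - 1) p 0 ∈ Rm L (c' + (d - 1) • a)`
(`c₁ ≤ c' + (d - 1) • a`): `F = α G₂`, `G₂ ∈ Rm L (c' + (d - 1) • a - a) = Rm L (c' + (d - 2) • a)` (if
`d ≥ 2`); repeat; at the end `p 0 = α G`, `G ∈ Rm L (c' - a)`. Then
`P - (C α + X * C α') * C G = X * P₁`, the coefficients of `P₁` are in `Rm L c'`
(`α' G ∈ Rm L (c' - a + a) = Rm L c'` as `a ≤ c₁ ≤ c'`), `P₁.eval ψ = 0` if `ψ ≠ 0` (`α ≠ 0`;
`C α + X * C α'` vanishes at `ψ`), the degree of `P₁` is smaller.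
(2) `pfac`: induction on `i`: `P = (X - C ψ) ^ (i + 1) * G` has coefficients in
`Rm L (c + (i + 1) • a)` and vanishes at `ψ`: by (1) with `c' = c + (i + 1) • a`:
`P = (C α + X * C α') * P'`, `P'` with coefficients in `Rm L (c + i • a)`. As
`C α + X * C α' = C α' * (X - C ψ)`, `(X - C ψ) ^ i * G = C α' * P'`, so
`(X - C ψ) ^ i * (C α'⁻¹ * G) = P'`, and by induction `C α'⁻¹ * G = C (α' ^ i) * H`.
-/

open Polynomial

namespace Pool.Agent.HDG

open Pool.Agent.KST

variable {k K B : Type*} [Field k] [Field K] [Algebra k K] [Fintype B] [DecidableEq B]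

omit [DecidableEq B] in
private lemma lem_div (L : B → Submodule k K) (a : B → ℕ) (α α' : K)
    (hα' : α' ∈ Rm L a) (c₁ : B → ℕ) (hnz : NZ L a α α' c₁)
    (c' : B → ℕ) (hc : c₁ ≤ c') (F : K) (hF : F ∈ Rm L c') (m : ℕ) :
    ∀ G₁ ∈ Rm L (c' + m • a), α' ^ (m + 1) * F = α * G₁ → ∃ G ∈ Rm L (c' - a), F = α * G := by
  induction m with
  | zero =>
    intro G₁ hG₁ h
    rw [zero_smul, add_zero] at hG₁
    rw [zero_add, pow_one] at h
    exact hnz.2 c' hc F hF ⟨G₁, hG₁, h⟩
  | succ m ih =>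
    intro G₁ hG₁ h
    have h1 : α' ^ (m + 1) * F ∈ Rm L (c' + (m + 1) • a) := by
      have h2 := rm_mul_mem L hF (rm_pow_mem L hα' (m + 1))
      rw [mul_comm] at h2
      exact h2
    have h3 : c₁ ≤ c' + (m + 1) • a := hc.trans (le_add_of_nonneg_right (by exact zero_le))
    obtain ⟨G₂, hG₂, h4⟩ := hnz.2 _ h3 _ h1 ⟨G₁, hG₁, by rw [← h]; ring⟩
    have h5 : c' + (m + 1) • a - a = c' + m • a := by
      rw [succ_nsmul, ← add_assoc, add_tsub_cancel_right]
    rw [h5] at hG₂
    exact ih G₂ hG₂ h4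

omit [DecidableEq B] in
private lemma step1 (L : B → Submodule k K) (a : B → ℕ) (α α' : K) (hα : α ∈ Rm L a)
    (hα' : α' ∈ Rm L a) (h0 : α ≠ 0) (h0' : α' ≠ 0) (c₁ : B → ℕ) (hnz : NZ L a α α' c₁)
    (c' : B → ℕ) (hc : c₁ ≤ c') (N : ℕ) :
    ∀ P : K[X], P.natDegree ≤ N → CI (Rm L c') P → P.eval (-α / α') = 0 →
      ∃ P' : K[X], CI (Rm L (c' - a)) P' ∧ P = (C α + X * C α') * P' := by
  induction N with
  | zero =>
    intro P hP hCI hev
    rw [Polynomial.eq_C_of_natDegree_le_zero hP, eval_C] at hev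
    have : P = 0 := by
      rw [Polynomial.eq_C_of_natDegree_le_zero hP, hev, C_0]
    refine ⟨0, fun n => ?_, ?_⟩
    · rw [coeff_zero]
      exact Submodule.zero_mem _
    · rw [this, mul_zero]
  | succ N ih =>
    intro P hP hCI hev
    have hψ : -α / α' ≠ 0 := div_ne_zero (neg_ne_zero.2 h0) h0'
    -- the constant coefficient is divisible by α
    have hp0 : ∃ G ∈ Rm L (c' - a), P.coeff 0 = α * G := by
      refine lem_div L a α α' hα' c₁ hnz c' hc (P.coeff 0) (hCI 0) N
        (-∑ i ∈ Finset.range (N + 1), P.coeff (i + 1) * ((-1) ^ (i + 1) * (α ^ i * α' ^ (N - i))))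
        ?_ ?_
      · refine Submodule.neg_mem _ (Submodule.sum_mem _ (fun i hi => ?_))
        have hi' : i ≤ N := Nat.lt_succ_iff.1 (Finset.mem_range.1 hi)
        have h1 : α ^ i * α' ^ (N - i) ∈ Rm L (N • a) := by
          have := rm_mul_mem L (rm_pow_mem L hα i) (rm_pow_mem L hα' (N - i))
          rw [← add_smul, Nat.add_sub_cancel' hi'] at this
          exact this
        have h2 : P.coeff (i + 1) * (α ^ i * α' ^ (N - i)) ∈ Rm L (c' + N • a) :=
          rm_mul_mem L (hCI (i + 1)) h1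
        rcases neg_one_pow_eq_or K (i + 1) with h | h
        · rw [h, one_mul]
          exact h2
        · rw [h, neg_one_mul, mul_neg]
          exact Submodule.neg_mem _ h2
      · rw [Polynomial.eval_eq_sum_range' (Nat.lt_succ_of_le hP), Finset.sum_range_succ',
          pow_zero, mul_one] at hev
        have h1 : P.coeff 0 = -∑ i ∈ Finset.range (N + 1), P.coeff (i + 1) * (-α / α') ^ (i + 1) := by
          linear_combination hev
        rw [h1, mul_neg, mul_neg, Finset.mul_sum, Finset.mul_sum]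
        congr 1
        refine Finset.sum_congr rfl (fun i hi => ?_)
        have hi' : i ≤ N := Nat.lt_succ_iff.1 (Finset.mem_range.1 hi)
        have h2 : α' ^ (N + 1) = α' ^ (i + 1) * α' ^ (N - i) := by
          rw [← pow_add]
          congr 1
          omega
        have h3 : (-α / α') ^ (i + 1) * α' ^ (i + 1) = (-1) ^ (i + 1) * α ^ (i + 1) := by
          rw [← mul_pow, div_mul_cancel₀ _ h0', neg_pow]
        rw [h2]
        calc α' ^ (i + 1) * α' ^ (N - i) * (P.coeff (i + 1) * (-α / α') ^ (i + 1))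
            = α' ^ (N - i) * P.coeff (i + 1) * ((-α / α') ^ (i + 1) * α' ^ (i + 1)) := by ring
          _ = _ := by rw [h3]; ring
    obtain ⟨G, hG, hpG⟩ := hp0
    have hac : a ≤ c' := hnz.1.trans hc
    have hα'G : α' * G ∈ Rm L c' := by
      have := rm_mul_mem L hα' hG
      rwa [add_tsub_cancel_of_le hac] at this
    set Q : K[X] := P - (C α + X * C α') * C G with hQ
    have hQ0 : Q.coeff 0 = 0 := by
      rw [hQ, coeff_sub, mul_coeff_zero, coeff_add, coeff_C_zero, mul_coeff_zero, coeff_X_zero,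
        zero_mul, add_zero, coeff_C_zero, hpG, sub_self]
    have hQX : X * divX Q = Q := by
      have := divX_mul_X_add Q
      rw [hQ0, C_0, add_zero, mul_comm] at this
      exact this
    have hQdeg : (divX Q).natDegree ≤ N := by
      rw [natDegree_divX_eq_natDegree_tsub_one]
      have h1 : Q.natDegree ≤ N + 1 := by
        rw [hQ]
        refine (natDegree_sub_le _ _).trans (max_le hP ?_)
        have : ((C α + X * C α') * C G).natDegree ≤ 1 := by
          compute_degree
        omega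
      omega
    have hQc : ∀ n, Q.coeff n ∈ Rm L c' ∨ n = 0 := by
      intro n
      rcases n with _ | n
      · right; rfl
      left
      have h1 : Q.coeff (n + 1) = P.coeff (n + 1) - (if n = 0 then α' * G else 0) := by
        rw [hQ, coeff_sub]
        congr 1
        rw [add_mul, coeff_add, mul_assoc, coeff_X_mul, ← C_mul, ← C_mul, coeff_C_succ, zero_add,
          coeff_C]
      rw [h1]
      refine Submodule.sub_mem _ (hCI _) ?_
      split_ifs
      · exact hα'G
      · exact Submodule.zero_mem _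
    have hCI1 : CI (Rm L c') (divX Q) := by
      intro n
      rw [coeff_divX]
      rcases hQc (n + 1) with h | h
      · exact h
      · omega
    have hev1 : (divX Q).eval (-α / α') = 0 := by
      have h1 : (-α / α') * (divX Q).eval (-α / α') = 0 := by
        have h2 : (X * divX Q).eval (-α / α') = Q.eval (-α / α') := by rw [hQX]
        rw [eval_mul, eval_X] at h2
        rw [h2, hQ, eval_sub, hev, eval_mul, eval_add, eval_C, eval_mul, eval_X, eval_C,
          div_mul_cancel₀ _ h0', add_neg_cancel, zero_mul, sub_zero]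
      exact (mul_eq_zero.1 h1).resolve_left hψ
    obtain ⟨P₁', hP₁', hPe⟩ := ih (divX Q) hQdeg hCI1 hev1
    refine ⟨C G + X * P₁', ?_, ?_⟩
    · intro n
      rcases n with _ | n
      · rw [coeff_add, coeff_C_zero, mul_coeff_zero, coeff_X_zero, zero_mul, add_zero]
        exact hG
      · rw [coeff_add, coeff_C_succ, coeff_X_mul, zero_add]
        exact hP₁' n
    · have h1 : P = Q + (C α + X * C α') * C G := by rw [hQ]; ring
      rw [h1, ← hQX, hPe]
      ring

theorem pfac (L : B → Submodule k K) (a : B → ℕ) (α α' : K) (hα : α ∈ Rm L a)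
    (hα' : α' ∈ Rm L a) (h0 : α ≠ 0) (h0' : α' ≠ 0) (c₁ : B → ℕ) (hnz : NZ L a α α' c₁)
    (i : ℕ) (c : B → ℕ) (hc : c₁ ≤ c) (G : K[X])
    (hG : CI (Rm L (c + i • a)) ((X - C (-α / α')) ^ i * G)) :
    ∃ H : K[X], CI (Rm L c) H ∧ G = C (α' ^ i) * H := by
  induction i generalizing G with
  | zero =>
    refine ⟨G, ?_, ?_⟩
    · rw [zero_smul, add_zero, pow_zero, one_mul] at hG
      exact hG
    · rw [pow_zero, C_1, one_mul]
  | succ i ih =>
    have hc' : c₁ ≤ c + (i + 1) • a := hc.trans (le_add_of_nonneg_right (by exact zero_le))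
    have hev : ((X - C (-α / α')) ^ (i + 1) * G).eval (-α / α') = 0 := by
      rw [eval_mul, eval_pow, eval_sub, eval_X, eval_C, sub_self, zero_pow (Nat.succ_ne_zero i),
        zero_mul]
    obtain ⟨P', hP', hPe⟩ := step1 L a α α' hα hα' h0 h0' c₁ hnz _ hc' _ _ le_rfl hG hev
    have h5 : c + (i + 1) • a - a = c + i • a := by
      rw [succ_nsmul, ← add_assoc, add_tsub_cancel_right]
    rw [h5] at hP'
    have h6 : C α + X * C α' = C α' * (X - C (-α / α')) := by
      rw [mul_sub, ← C_mul, mul_div_cancel₀ _ h0', C_neg]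
      ring
    have h7 : (X - C (-α / α')) ^ i * G = C α' * P' := by
      have hne : (X - C (-α / α') : K[X]) ≠ 0 := X_sub_C_ne_zero _
      apply mul_left_cancel₀ hne
      rw [← mul_assoc, ← pow_succ', hPe, h6]
      ring
    have h8 : (X - C (-α / α')) ^ i * (C α'⁻¹ * G) = P' := by
      rw [mul_left_comm, h7, ← mul_assoc, ← C_mul, inv_mul_cancel₀ h0', C_1, one_mul]
    obtain ⟨H, hH, hHe⟩ := ih (C α'⁻¹ * G) (by rw [h8]; exact hP')
    refine ⟨H, hH, ?_⟩
    have h9 : G = C α' * (C α'⁻¹ * G) := by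
      rw [← mul_assoc, ← C_mul, mul_inv_cancel₀ h0', C_1, one_mul]
    rw [h9, hHe, pow_succ', C_mul, mul_assoc]

end Pool.Agent.HDG
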