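import Pool.Agent.HDG.Gfl
import Pool.Agent.HDG.Pfac
import Pool.Agent.HDG.Exd

/-!
# HDG JEN: the inequality on a curve

`ψ = -γ / γ'` is transcendental over `k` (`exd_tr` with `c = c₂`, `1 ≤ D`), `F = k(ψ)`. For `y ∈ Rm L c'`,
`y ≠ 0` (`rm_ne`): `ex F W * y ⊆ z * ex F (Rm L c'')`, so `finrank F (ex F W) ≤ D` by `exd`, `rm_ex`, and
also `finrank F (ex F (Rm L c')) = D`. `lc_top` for `W`: `J₁`, and for `Rm L c'`: `J₂`. By `gfl`, `gr_le`:
`finrank k W ≤ (J₁ + 1) D`, `hm L c' ≤ (J₂ + 1) D`. Let `j = J₁ + J₂` and `G₁, G₂ : K[X]` with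
`CI W ((X - C ψ) ^ J₁ * G₁)`, `CI (Rm L c') ((X - C ψ) ^ J₂ * G₂)`, `G₁.eval ψ ≠ 0`, `G₂.eval ψ ≠ 0`.
The coefficients of `(X - C ψ) ^ j * (C z⁻¹ * G₁ * G₂)` are in `Rm L c''` (by `h`, products of
coefficients). Let `u ∈ k` with `(G₁ * G₂).eval (algebraMap k K u) ≠ 0` (`k` is infinite) and
`G₀ = z⁻¹ * (G₁ * G₂).eval u ≠ 0`. For `Y ∈ Rm L (c₂ + j • g)` the coefficients of
`(X - C ψ) ^ j * (C Y * C z⁻¹ * G₁ * G₂)` are in `Rm L (c'' + c₂ + j • g)`, so by `pfac` (with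
`c = c'' + c₂`) `C Y * C z⁻¹ * G₁ * G₂ = C (γ' ^ j) * H` with `CI (Rm L (c'' + c₂)) H`; evaluate at `u`:
`G₀ * Y = γ' ^ j * H.eval u`, `H.eval u ∈ Rm L (c'' + c₂)`. So `Y ↦ γ' ^ (-j) * G₀ * Y` is an injective
linear map of `Rm L (c₂ + j • g)` to `Rm L (c'' + c₂)`: `hm L (c₂ + j • g) ≤ hm L (c'' + c₂)`, and
`hm L (c₂ + j • g) = hm L c₂ + j D` by `hlin`. Together:
`finrank k W + hm L c' ≤ (j + 2) D ≤ hm L (c'' + c₂) - hm L c₂ + 2 D`.
-/

open Polynomial

namespace Pool.Agent.HDG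

open Pool.Agent.KST

variable {k K B : Type*} [Field k] [Field K] [Algebra k K] [Fintype B] [DecidableEq B]

omit [Fintype B] [DecidableEq B] in
private theorem ex_fg (F : IntermediateField k K) (W : Submodule k K) (hW : W.FG) :
    (ex F W).FG := by
  obtain ⟨S, hS⟩ := hW
  refine ⟨S, le_antisymm (Submodule.span_mono fun x hx => ?_) (Submodule.span_le.2 ?_)⟩
  · rw [← hS]; exact Submodule.subset_span hx
  · intro x hx
    have hx' : x ∈ W := hx
    rw [← hS] at hx'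
    clear hx
    induction hx' using Submodule.span_induction with
    | mem x h => exact Submodule.subset_span h
    | zero => exact Submodule.zero_mem _
    | add x y _ _ hx hy =>
      exact Submodule.add_mem _ hx hy
    | smul a x _ hx =>
      have e : a • x = (algebraMap k F a) • x := by
        rw [algebraMap_smul]
      rw [e]
      exact Submodule.smul_mem _ _ hx

omit [Fintype B] [DecidableEq B] in
/-- multiplication by a nonzero element -/
private theorem finrank_mul_le {E : Type*} [Field E] [Algebra E K] (M N : Submodule E K) (t : K)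
    (ht : t ≠ 0) (hN : N.FG) (h : ∀ x ∈ M, t * x ∈ N) :
    Module.finrank E M ≤ Module.finrank E N := by
  have hfin : Module.Finite E N := Module.Finite.iff_fg.mpr hN
  have hmap : ∀ x ∈ M, LinearMap.mulLeft E t x ∈ N := fun x hx => h x hx
  exact LinearMap.finrank_le_finrank_of_injective
    (f := (LinearMap.mulLeft E t).restrict hmap) (by
      rw [← LinearMap.ker_eq_bot, LinearMap.ker_eq_bot']
      rintro ⟨x, hx⟩ hxx
      have h1 : t * x = 0 := by
        have := congrArg Subtype.val hxx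
        simpa using this
      rcases mul_eq_zero.1 h1 with h2 | h2
      · exact absurd h2 ht
      · exact Subtype.ext h2)

omit [Fintype B] [DecidableEq B] in
private theorem gr_finrank_le (W : Submodule k K) (hW : W.FG) (ψ : K) (i : ℕ) :
    Module.finrank (IntermediateField.adjoin k {ψ}) (gr W ψ i) ≤
      Module.finrank (IntermediateField.adjoin k {ψ}) (ex (IntermediateField.adjoin k {ψ}) W) := by
  have hfin : Module.Finite (IntermediateField.adjoin k {ψ})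
      (ex (IntermediateField.adjoin k {ψ}) W) :=
    Module.Finite.iff_fg.mpr (ex_fg _ W hW)
  exact Submodule.finrank_mono (gr_le W ψ i)

omit [Fintype B] [DecidableEq B] in
/-- coefficients of a product -/
private theorem CI_mul (W W' W'' : Submodule k K) (t : K)
    (h : ∀ w ∈ W, ∀ y ∈ W', t * (w * y) ∈ W'') (P Q : K[X]) (hP : CI W P) (hQ : CI W' Q) :
    CI W'' (C t * (P * Q)) := by
  intro n
  rw [coeff_C_mul, coeff_mul, Finset.mul_sum]
  exact Submodule.sum_mem _ fun x _ => h _ (hP _) _ (hQ _)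

omit [Fintype B] [DecidableEq B] in
private theorem CI_eval (W : Submodule k K) (H : K[X]) (hH : CI W H) (u : k) :
    H.eval (algebraMap k K u) ∈ W := by
  rw [eval_eq_sum_range]
  refine Submodule.sum_mem _ fun n _ => ?_
  rw [← map_pow, mul_comm, ← Algebra.smul_def]
  exact Submodule.smul_mem _ _ (hH n)

omit [Fintype B] [DecidableEq B] in
private theorem exists_u [Infinite k] (P : K[X]) (hP : P ≠ 0) :
    ∃ u : k, P.eval (algebraMap k K u) ≠ 0 := by
  by_contra hcon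
  push Not at hcon
  apply hP
  refine Polynomial.eq_zero_of_infinite_isRoot P ?_
  refine Set.Infinite.mono (s := Set.range (algebraMap k K)) ?_
    (Set.infinite_range_of_injective (algebraMap k K).injective)
  rintro _ ⟨u, rfl⟩
  exact hcon u

omit [DecidableEq B] in
private theorem hm_lin (L : B → Submodule k K) (g c₂ : B → ℕ) (hg : g ≤ c₂) (D : ℕ)
    (hlin : ∀ c, c₂ ≤ c → hm L c - hm L (c - g) = D) (j : ℕ) :
    hm L (c₂ + j • g) = hm L c₂ + j * D := by
  induction j with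
  | zero => simp
  | succ j ih =>
    have h1 := hlin (c₂ + (j + 1) • g) (le_self_add)
    have e : c₂ + (j + 1) • g - g = c₂ + j • g := by
      funext b
      simp only [Pi.sub_apply, Pi.add_apply, Pi.smul_apply, smul_eq_mul]
      rw [add_mul, one_mul, ← add_assoc, Nat.add_sub_cancel]
    rw [e, ih] at h1
    push_cast
    linarith

theorem jen [Infinite k] (L : B → Submodule k K) (hL : Irm L) (g : B → ℕ) (γ γ' : K)
    (hγ : γ ∈ Rm L g) (hγ' : γ' ∈ Rm L g) (h0 : γ ≠ 0) (h0' : γ' ≠ 0) (c₂ : B → ℕ)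
    (hnz : NZ L g γ γ' c₂) (D : ℕ) (hD : 1 ≤ D)
    (hlin : ∀ c, c₂ ≤ c → hm L c - hm L (c - g) = D) (W : Submodule k K) (hW : W.FG)
    (hW0 : W ≠ ⊥) (z : K) (hz : z ≠ 0) (c' c'' : B → ℕ) (hc' : c₂ ≤ c') (hc'' : c₂ ≤ c'')
    (h : ∀ w ∈ W, ∀ y ∈ Rm L c', ∃ v ∈ Rm L c'', w * y = z * v) :
    (Module.finrank k W : ℤ) ≤ hm L (c'' + c₂) - hm L c₂ - hm L c' + 2 * D := by
  classical
  obtain ⟨ψ, hψd⟩ : ∃ ψ : K, ψ = -γ / γ' := ⟨_, rfl⟩
  have hψ : Transcendental k ψ := by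
    rw [hψd]
    refine exd_tr L hL g γ γ' hγ hγ' h0 h0' c₂ hnz c₂ le_rfl ?_
    have := hlin c₂ le_rfl
    have hD' : (1:ℤ) ≤ D := by exact_mod_cast hD
    linarith
  -- ranks over `F = k(ψ)`
  have hrank : ∀ c, c₂ ≤ c → Module.finrank (IntermediateField.adjoin k {ψ})
      (ex (IntermediateField.adjoin k {ψ}) (Rm L c)) = D := by
    intro c hc
    have h1 := exd L hL g γ γ' hγ hγ' h0 h0' c₂ hnz (by rw [← hψd]; exact hψ) c hc
    rw [hlin c hc, ← hψd] at h1
    unfold hm at h1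
    rw [rm_ex] at h1
    exact_mod_cast h1
  -- a nonzero element of `Rm L c'`
  obtain ⟨y, hy, hy0⟩ := rm_ne L hL c'
  have hRc' : Rm L c' ≠ ⊥ := fun e => hy0 (by rw [e] at hy; exact (Submodule.mem_bot k).1 hy)
  have hdiv : ∀ w ∈ W, ∀ y ∈ Rm L c', z⁻¹ * (w * y) ∈ Rm L c'' := by
    intro w hw y hy
    obtain ⟨v, hv, e⟩ := h w hw y hy
    rw [e, inv_mul_cancel_left₀ hz]
    exact hv
  have hWrank : Module.finrank (IntermediateField.adjoin k {ψ})
      (ex (IntermediateField.adjoin k {ψ}) W) ≤ D := by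
    rw [← hrank c'' hc'']
    refine finrank_mul_le _ _ (z⁻¹ * y) (mul_ne_zero (inv_ne_zero hz) hy0)
      (ex_fg _ _ (rm_fg L hL.fg c'')) ?_
    intro x hx
    unfold ex at hx
    induction hx using Submodule.span_induction with
    | mem x hx =>
      refine Submodule.subset_span ?_
      have := hdiv x hx y hy
      have e : z⁻¹ * y * x = z⁻¹ * (x * y) := by ring
      rw [e]; exact this
    | zero => rw [mul_zero]; exact Submodule.zero_mem _
    | add a b _ _ ha hb => rw [mul_add]; exact Submodule.add_mem _ ha hb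
    | smul r a _ ha =>
      rw [mul_smul_comm]
      exact Submodule.smul_mem _ _ ha
  -- the orders
  obtain ⟨J₁, ⟨a₁, ⟨G₁, hG₁, ha₁⟩, ha₁0⟩, hJ₁⟩ := lc_top ψ hψ W hW hW0
  obtain ⟨J₂, ⟨a₂, ⟨G₂, hG₂, ha₂⟩, ha₂0⟩, hJ₂⟩ := lc_top ψ hψ (Rm L c') (rm_fg L hL.fg c') hRc'
  have hb1 : Module.finrank k W ≤ (J₁ + 1) * D := by
    refine (gfl ψ hψ W hW J₁ hJ₁).trans ?_
    refine (Finset.sum_le_sum (g := fun _ => D) fun i _ =>
      (gr_finrank_le W hW ψ i).trans hWrank).trans (le_of_eq ?_)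
    simp
  have hb2 : Module.finrank k (Rm L c') ≤ (J₂ + 1) * D := by
    refine (gfl ψ hψ (Rm L c') (rm_fg L hL.fg c') J₂ hJ₂).trans ?_
    refine (Finset.sum_le_sum (g := fun _ => D) fun i _ =>
      (gr_finrank_le _ (rm_fg L hL.fg c') ψ i).trans (hrank c' hc').le).trans (le_of_eq ?_)
    simp
  have hG₁0 : G₁ ≠ 0 := fun e => ha₁0 (by rw [ha₁, e, eval_zero])
  have hG₂0 : G₂ ≠ 0 := fun e => ha₂0 (by rw [ha₂, e, eval_zero])
  obtain ⟨u, hu⟩ := exists_u (k := k) (G₁ * G₂) (mul_ne_zero hG₁0 hG₂0)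
  obtain ⟨j, hj⟩ : ∃ j, j = J₁ + J₂ := ⟨_, rfl⟩
  -- the product
  have hprod : CI (Rm L c'') ((X - C ψ) ^ j * (C z⁻¹ * (G₁ * G₂))) := by
    have h1 := CI_mul W (Rm L c') (Rm L c'') z⁻¹ hdiv _ _ hG₁ hG₂
    have e : C z⁻¹ * ((X - C ψ) ^ J₁ * G₁ * ((X - C ψ) ^ J₂ * G₂)) =
        (X - C ψ) ^ j * (C z⁻¹ * (G₁ * G₂)) := by
      rw [hj, pow_add]; ring
    rw [← e]
    exact h1
  have hG₀ : z⁻¹ * (G₁ * G₂).eval (algebraMap k K u) ≠ 0 := mul_ne_zero (inv_ne_zero hz) hu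
  have hmap : ∀ Y ∈ Rm L (c₂ + j • g), ((γ' ^ j)⁻¹ * (z⁻¹ * (G₁ * G₂).eval (algebraMap k K u))) * Y
      ∈ Rm L (c'' + c₂) := by
    intro Y hY
    have h1 : CI (Rm L (c'' + c₂ + j • g))
        ((X - C (-γ / γ')) ^ j * (C Y * (C z⁻¹ * (G₁ * G₂)))) := by
      rw [← hψd]
      intro n
      have e : (X - C ψ) ^ j * (C Y * (C z⁻¹ * (G₁ * G₂))) =
          C Y * ((X - C ψ) ^ j * (C z⁻¹ * (G₁ * G₂))) := by ring
      rw [e, coeff_C_mul]
      have h2 := rm_mul_mem L hY (hprod n)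
      have e2 : c₂ + j • g + c'' = c'' + c₂ + j • g := by
        rw [add_comm, add_assoc]
      rw [e2] at h2
      exact h2
    obtain ⟨H, hH, hHe⟩ := pfac L g γ γ' hγ hγ' h0 h0' c₂ hnz j (c'' + c₂) (le_add_self) _ h1
    have h3 := congrArg (eval (algebraMap k K u)) hHe
    simp only [eval_mul, eval_C] at h3
    have h4 : ((γ' ^ j)⁻¹ * (z⁻¹ * (G₁ * G₂).eval (algebraMap k K u))) * Y =
        H.eval (algebraMap k K u) := by
      rw [eval_mul]
      have h5 : γ' ^ j ≠ 0 := pow_ne_zero _ h0'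
      have h6 : (γ' ^ j)⁻¹ * (z⁻¹ * (eval (algebraMap k K u) G₁ * eval (algebraMap k K u) G₂)) * Y =
          (γ' ^ j)⁻¹ * (Y * (z⁻¹ * (eval (algebraMap k K u) G₁ *
            eval (algebraMap k K u) G₂))) := by ring
      rw [h6, h3, inv_mul_cancel_left₀ h5]
    rw [h4]
    exact CI_eval _ H hH u
  have hfin := finrank_mul_le (Rm L (c₂ + j • g)) (Rm L (c'' + c₂)) _
    (mul_ne_zero (inv_ne_zero (pow_ne_zero j h0')) hG₀) (rm_fg L hL.fg _) hmap
  have hlj := hm_lin L g c₂ hnz.1 D hlin j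
  have hfin' : hm L (c₂ + j • g) ≤ hm L (c'' + c₂) := by
    unfold hm; exact_mod_cast hfin
  have hb1' : (Module.finrank k W : ℤ) ≤ (J₁ + 1) * D := by exact_mod_cast hb1
  have hb2' : hm L c' ≤ (J₂ + 1) * D := by
    unfold hm; exact_mod_cast hb2
  rw [hlj] at hfin'
  rw [hj] at hfin'
  push_cast at hfin'
  nlinarith

end Pool.Agent.HDG
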