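import Pool.Agent.KST.Tr

/-!
# HDG LOR: the index theorem, linear algebra

`K` is a closed convex cone of nef classes, `t` the intersection form, `A` (acting on row vectors) the pull
back, `B` its inverse. `1 = fun _ => 1` is the class of the hyperplane section.

`symm`: `B * A = 1`; `inv` for `u ᵥ* B` etc.
`hdg_int`: `v + r • 1 = ∑ i, (v i + r) • e i`, `e i = Pi.single i 1`, all coefficients `≥ 0`.
`hdg_one`: `v = 0`, `r = 1`.
`lor_zero` (`c ∈ K`, `T(c,1,1) = 0`): for `a, b ∈ K` and `r` large `r • 1 - a`, `r • 1 - b ∈ K` (`hdg_int`), so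
`0 ≤ T(c,a,b) ≤ r T(c,1,b) ≤ r ^ 2 T(c,1,1) = 0`; the `e i` are in `K`: `T(c,v,w) = 0` for all `v, w`
(`v = ∑ i, v i • e i`).
`lor`: if `T(c,1,1) = 0` see `lor_zero`. Otherwise `T(c,1,1) > 0`; for small `ε > 0` `1 + ε v ∈ K`; `kt` for `1`,
`1 + ε v`, `c`: `T(1,1,c) (T(1,1,c) + ε ^ 2 T(v,v,c)) ≤ T(1,1,c) ^ 2` (as `T(1,v,c) = 0`).
`lor_ker`: if `T(c,1,1) = 0` `lor_zero`. For `w` with `T(c,1,w) = 0`: `T(c,v + s w,v + s w) ≤ 0` for all real `s`
(`lor`), so `T(c,v,w) = 0`; in general subtract a multiple of `1` from `w` (`T(c,v,1) = 0`).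
`lor_nd`: for every `u` and small `ε` (both signs) `c = 1 + ε u ∈ K` (`hdg_int`). `T(c,1,v) = ε T(u,1,v) = 0` and
`T(c,v,v) = ε T(u,v,v)` (`h` for `w = 1`, `v`, `u`), so `ε T(u,v,v) ≤ 0` for both signs: `T(u,v,v) = 0`. `lor_ker`
for `c`: `0 = T(c,v,w) = ε T(u,v,w)`. So `T(u,v,w) = 0` for all `u, w`: `nd`.
`lor_neg`: `lor`, and if `T(1,v,v) = 0` then `lor_ker` and `lor_nd`.
`lor_perp`: if `T(c,v,v) > 0`: there is `(x, y) ≠ 0` with `T(c,1,x a + y v) = 0`, but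
`T(c,x a + y v,x a + y v) = x ^ 2 T(c,a,a) + y ^ 2 T(c,v,v) > 0`, contradiction to `lor`.
`lor_perp_ker`: as `lor_ker`, on the orthogonal complement of `a`.
`lor_iso`: `T(c,1,a) ≠ 0` (otherwise `lor_ker`); `l = T(c,1,b) / T(c,1,a)`; `v = b - l a` satisfies
`T(c,1,v) = 0`, `T(c,v,v) = 0`: `lor_ker`.
`lor_pos`: `T(1,1,u) ≥ 0`. If it is `0`: `kt` for `u, 1, 1`: `T(u,u,1) T(1,1,1) ≤ T(u,1,1) ^ 2 = 0`, so
`T(1,u,u) = 0`, and `lor_neg` gives `u = 0`.
-/

namespace Pool.Agent.HDG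

open Pool.Agent.KST

open Matrix

variable {ι : Type*} [Fintype ι] [DecidableEq ι]

/-- A closed cone of nef classes with an action, and the properties of the intersection form. -/
structure Hdg (A B : Matrix ι ι ℝ) (t : ι → ι → ι → ℝ) (K : Set (ι → ℝ)) : Prop where
  ab : A * B = 1
  s₁ : ∀ i j k, t i j k = t j i k
  s₂ : ∀ i j k, t i j k = t i k j
  inv : ∀ u v w : ι → ℝ, Tri t (u ᵥ* A) (v ᵥ* A) (w ᵥ* A) = Tri t u v w
  add : ∀ u ∈ K, ∀ v ∈ K, u + v ∈ K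
  smul : ∀ u ∈ K, ∀ r : ℝ, 0 ≤ r → r • u ∈ K
  cl : IsClosed K
  e : ∀ i, Pi.single i 1 ∈ K
  ma : ∀ u ∈ K, u ᵥ* A ∈ K
  mb : ∀ u ∈ K, u ᵥ* B ∈ K
  nn : ∀ u ∈ K, ∀ v ∈ K, ∀ w ∈ K, 0 ≤ Tri t u v w
  kt : ∀ u ∈ K, ∀ v ∈ K, ∀ w ∈ K, Tri t u u w * Tri t v v w ≤ Tri t u v w ^ 2
  pos : 0 < Tri t (fun _ => 1) (fun _ => 1) (fun _ => 1)
  nd : ∀ v, (∀ j k, Tri t v (Pi.single j 1) (Pi.single k 1) = 0) → v = 0

variable {A B : Matrix ι ι ℝ} {t : ι → ι → ι → ℝ} {K : Set (ι → ℝ)}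

theorem Hdg.symm (H : Hdg A B t K) : Hdg B A t K := by
  have hBA : B * A = 1 := mul_eq_one_comm.mp H.ab
  have hu : ∀ u : ι → ℝ, (u ᵥ* B) ᵥ* A = u := by
    intro u
    rw [Matrix.vecMul_vecMul, hBA, Matrix.vecMul_one]
  refine ⟨hBA, H.s₁, H.s₂, ?_, H.add, H.smul, H.cl, H.e, H.mb, H.ma, H.nn, H.kt, H.pos, H.nd⟩
  intro u v w
  rw [← H.inv (u ᵥ* B) (v ᵥ* B) (w ᵥ* B), hu, hu, hu]

private theorem lr_ne (H : Hdg A B t K) : Nonempty ι := by
  by_contra hne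
  rw [not_nonempty_iff] at hne
  have h := H.pos
  unfold Tri at h
  simp at h

private theorem lr_s (H : Hdg A B t K) (c v w : ι → ℝ) : Tri t c v w = Tri t c w v :=
  tri_swap₂ t H.s₂ c v w

private theorem lr_s' (H : Hdg A B t K) (c v w : ι → ℝ) : Tri t c v w = Tri t v c w :=
  tri_swap₁ t H.s₁ c v w

private theorem lr_a (H : Hdg A B t K) (c u v w : ι → ℝ) :
    Tri t c (u + v) w = Tri t c u w + Tri t c v w := by
  rw [lr_s' H c (u + v) w, tri_add₁, lr_s' H c u w, lr_s' H c v w]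

private theorem lr_m (H : Hdg A B t K) (c : ι → ℝ) (r : ℝ) (u w : ι → ℝ) :
    Tri t c (r • u) w = r * Tri t c u w := by
  rw [lr_s' H c (r • u) w, tri_smul₁, lr_s' H c u w]

private theorem lr_a' (H : Hdg A B t K) (c u v w : ι → ℝ) :
    Tri t c w (u + v) = Tri t c w u + Tri t c w v := by
  rw [lr_s H c w (u + v), lr_a H, lr_s H c w u, lr_s H c w v]

private theorem lr_m' (H : Hdg A B t K) (c : ι → ℝ) (r : ℝ) (u w : ι → ℝ) :
    Tri t c w (r • u) = r * Tri t c w u := by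
  rw [lr_s H c w (r • u), lr_m H, lr_s H c w u]

private theorem lr_q (H : Hdg A B t K) (c u v : ι → ℝ) (x y : ℝ) :
    Tri t c (x • u + y • v) (x • u + y • v) =
      x ^ 2 * Tri t c u u + 2 * x * y * Tri t c u v + y ^ 2 * Tri t c v v := by
  rw [lr_a H, lr_a' H, lr_a' H, lr_m H, lr_m H, lr_m H, lr_m H, lr_m' H, lr_m' H, lr_m' H,
    lr_m' H, lr_s H c v u]
  ring

omit [DecidableEq ι] in
private theorem lr_bd (v : ι → ℝ) : ∃ M : ℝ, 0 < M ∧ ∀ i, |v i| ≤ M := by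
  refine ⟨∑ i, |v i| + 1, ?_, ?_⟩
  · have h : 0 ≤ ∑ i, |v i| := Finset.sum_nonneg fun i _ => abs_nonneg _
    linarith
  · intro i
    have h : |v i| ≤ ∑ j, |v j| :=
      Finset.single_le_sum (f := fun j => |v j|) (fun j _ => abs_nonneg _) (Finset.mem_univ i)
    linarith

private theorem lr_sm (a b : ℝ) (h : ∀ s : ℝ, 2 * s * a + s ^ 2 * b ≤ 0) : a = 0 := by
  by_contra ha
  have ha2 : 0 < a ^ 2 := by positivity
  have hb : 0 < 1 + |b| := by positivity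
  have h1 := h (a / (1 + |b|))
  have h2 : 2 * (a / (1 + |b|)) * a + (a / (1 + |b|)) ^ 2 * b =
      a ^ 2 * (2 * (1 + |b|) + b) / (1 + |b|) ^ 2 := by
    field_simp
  rw [h2] at h1
  have h3 : 0 < a ^ 2 * (2 * (1 + |b|) + b) / (1 + |b|) ^ 2 := by
    have h4 : 0 < 2 * (1 + |b|) + b := by
      have h5 := neg_abs_le b
      have h6 := abs_nonneg b
      linarith
    positivity
  linarith

theorem hdg_int (H : Hdg A B t K) (v : ι → ℝ) (r : ℝ) (h : ∀ i, |v i| ≤ r) :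
    v + r • (fun _ => (1 : ℝ)) ∈ K := by
  obtain ⟨i₀⟩ := lr_ne H
  have h0 : (0 : ι → ℝ) ∈ K := by
    have := H.smul _ (H.e i₀) 0 le_rfl
    rwa [zero_smul] at this
  have h1 : ∀ s : Finset ι, ∑ i ∈ s, (v i + r) • (Pi.single i 1 : ι → ℝ) ∈ K := by
    intro s
    induction s using Finset.induction_on with
    | empty => simpa using h0
    | insert a s ha ih =>
      rw [Finset.sum_insert ha]
      refine H.add _ (H.smul _ (H.e a) _ ?_) _ ih
      have h2 := h a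
      have h3 := neg_abs_le (v a)
      linarith
  have h2 : v + r • (fun _ => (1 : ℝ)) = ∑ i, (v i + r) • (Pi.single i 1 : ι → ℝ) := by
    funext j
    rw [Finset.sum_apply, Finset.sum_eq_single j]
    · simp
    · intro b _ hb
      rw [Pi.smul_apply, Pi.single_eq_of_ne hb.symm, smul_zero]
    · intro hj
      exact absurd (Finset.mem_univ j) hj
  rw [h2]
  exact h1 _

theorem hdg_one (H : Hdg A B t K) : (fun _ => (1 : ℝ)) ∈ K := by
  have h := hdg_int H 0 1 (fun i => by simp)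
  rwa [zero_add, one_smul] at h

private theorem lr_int (H : Hdg A B t K) (v : ι → ℝ) : ∃ ε : ℝ, 0 < ε ∧
    (fun _ => (1 : ℝ)) + ε • v ∈ K ∧ (fun _ => (1 : ℝ)) + (-ε) • v ∈ K := by
  obtain ⟨M, hM, hv⟩ := lr_bd v
  have hb : ∀ i, M⁻¹ * |v i| ≤ 1 := by
    intro i
    have h1 : M⁻¹ * |v i| ≤ M⁻¹ * M := mul_le_mul_of_nonneg_left (hv i) (by positivity)
    rwa [inv_mul_cancel₀ hM.ne'] at h1
  refine ⟨M⁻¹, by positivity, ?_, ?_⟩
  · have h1 := hdg_int H (M⁻¹ • v) 1 (fun i => by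
      rw [Pi.smul_apply, smul_eq_mul, abs_mul, abs_of_pos (inv_pos.mpr hM)]
      exact hb i)
    rwa [one_smul, add_comm] at h1
  · have h1 := hdg_int H ((-M⁻¹) • v) 1 (fun i => by
      rw [Pi.smul_apply, smul_eq_mul, abs_mul, abs_neg, abs_of_pos (inv_pos.mpr hM)]
      exact hb i)
    rwa [one_smul, add_comm] at h1

theorem lor_zero (H : Hdg A B t K) (c : ι → ℝ) (hc : c ∈ K)
    (h : Tri t c (fun _ => 1) (fun _ => 1) = 0) (v w : ι → ℝ) : Tri t c v w = 0 := by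
  have h1 := hdg_one H
  have key : ∀ a ∈ K, ∀ b ∈ K, ∃ r : ℝ, Tri t c a b ≤ r * Tri t c (fun _ => 1) b := by
    intro a ha b hb
    obtain ⟨M, hM, hv⟩ := lr_bd a
    refine ⟨M, ?_⟩
    have h2 : (-1 : ℝ) • a + M • (fun _ => (1 : ℝ)) ∈ K :=
      hdg_int H ((-1 : ℝ) • a) M (fun i => by
        rw [Pi.smul_apply, smul_eq_mul, abs_mul, abs_neg, abs_one, one_mul]
        exact hv i)
    have h3 := H.nn c hc _ h2 b hb
    rw [lr_a H, lr_m H, lr_m H] at h3
    linarith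
  have key2 : ∀ a ∈ K, ∀ b ∈ K, Tri t c a b = 0 := by
    intro a ha b hb
    obtain ⟨r, hr⟩ := key a ha b hb
    obtain ⟨r', hr'⟩ := key b hb _ h1
    have e1 : Tri t c (fun _ => 1) b = 0 := by
      rw [h, mul_zero, ← lr_s H c (fun _ => 1) b] at hr'
      exact le_antisymm hr' (H.nn c hc _ h1 b hb)
    rw [e1, mul_zero] at hr
    exact le_antisymm hr (H.nn c hc a ha b hb)
  have key3 : ∀ a b : ι → ℝ, b ∈ K → Tri t c a b = 0 := by
    intro a b hb
    obtain ⟨M, hM, hv⟩ := lr_bd a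
    have h2 := hdg_int H a M hv
    have h3 := key2 _ h2 b hb
    rw [lr_a H, lr_m H, key2 _ h1 b hb, mul_zero, add_zero] at h3
    exact h3
  obtain ⟨M, hM, hv⟩ := lr_bd w
  have h2 := hdg_int H w M hv
  have h3 := key3 v _ h2
  rw [lr_a' H, lr_m' H, key3 v _ h1, mul_zero, add_zero] at h3
  exact h3

theorem lor (H : Hdg A B t K) (c : ι → ℝ) (hc : c ∈ K) (v : ι → ℝ)
    (h : Tri t c (fun _ => 1) v = 0) : Tri t c v v ≤ 0 := by
  have h1 := hdg_one H
  rcases (H.nn c hc _ h1 _ h1).eq_or_lt with h0 | h0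
  · exact (lor_zero H c hc h0.symm v v).le
  · obtain ⟨ε, hε, hm, -⟩ := lr_int H v
    have hk := H.kt _ h1 _ hm c hc
    have e1 : Tri t (fun _ => (1 : ℝ)) (fun _ => (1 : ℝ)) c =
        Tri t c (fun _ => (1 : ℝ)) (fun _ => (1 : ℝ)) := by
      rw [lr_s H, lr_s' H]
    have e2 : Tri t (fun _ => (1 : ℝ)) ((fun _ => (1 : ℝ)) + ε • v) c =
        Tri t c (fun _ => (1 : ℝ)) (fun _ => (1 : ℝ)) := by
      rw [lr_s H, lr_s' H, lr_a' H, lr_m' H, h, mul_zero, add_zero]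
    have e3 : Tri t ((fun _ => (1 : ℝ)) + ε • v) ((fun _ => (1 : ℝ)) + ε • v) c =
        Tri t c (fun _ => (1 : ℝ)) (fun _ => (1 : ℝ)) + ε ^ 2 * Tri t c v v := by
      rw [lr_s H, lr_s' H]
      have e4 := lr_q H c (fun _ => (1 : ℝ)) v 1 ε
      rw [one_smul, h] at e4
      rw [e4]
      ring
    rw [e1, e2, e3] at hk
    have h2 : Tri t c (fun _ => (1 : ℝ)) (fun _ => (1 : ℝ)) * (ε ^ 2 * Tri t c v v) ≤ 0 := by
      nlinarith
    have h3 : ε ^ 2 * Tri t c v v ≤ 0 := by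
      by_contra h4
      push Not at h4
      have := mul_pos h0 h4
      linarith
    by_contra h4
    push Not at h4
    have : 0 < ε ^ 2 * Tri t c v v := by positivity
    linarith

theorem lor_ker (H : Hdg A B t K) (c : ι → ℝ) (hc : c ∈ K) (v : ι → ℝ)
    (h : Tri t c (fun _ => 1) v = 0) (h' : Tri t c v v = 0) (w : ι → ℝ) : Tri t c v w = 0 := by
  have h1 := hdg_one H
  rcases (H.nn c hc _ h1 _ h1).eq_or_lt with h0 | h0
  · exact lor_zero H c hc h0.symm v w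
  · have key : ∀ w : ι → ℝ, Tri t c (fun _ => 1) w = 0 → Tri t c v w = 0 := by
      intro w hw
      refine lr_sm (Tri t c v w) (Tri t c w w) ?_
      intro s
      have h2 := lor H c hc ((1 : ℝ) • v + s • w) (by
        rw [lr_a' H, lr_m' H, lr_m' H, h, hw]
        ring)
      rw [lr_q H, h'] at h2
      linarith
    have h2 := key (w + (-(Tri t c (fun _ => 1) w / Tri t c (fun _ => 1) (fun _ => 1))) •
      (fun _ => (1 : ℝ))) (by
        rw [lr_a' H, lr_m' H]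
        field_simp
        ring)
    rw [lr_a' H, lr_m' H, ← lr_s H c (fun _ => 1) v, h, mul_zero, add_zero] at h2
    exact h2

theorem lor_nd (H : Hdg A B t K) (v : ι → ℝ) (h : ∀ w, Tri t (fun _ => 1) v w = 0) : v = 0 := by
  have key : ∀ u w : ι → ℝ, Tri t u v w = 0 := by
    intro u w
    obtain ⟨ε, hε, hm, hn⟩ := lr_int H u
    have g : ∀ (δ : ℝ) (x : ι → ℝ), Tri t ((fun _ => (1 : ℝ)) + δ • u) v x = δ * Tri t u v x := by
      intro δ x
      rw [tri_add₁, tri_smul₁, h, zero_add]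
    have g1 : ∀ δ : ℝ, Tri t ((fun _ => (1 : ℝ)) + δ • u) (fun _ => 1) v = 0 := by
      intro δ
      rw [lr_s H, g, lr_s H, lr_s' H, lr_s H, h, mul_zero]
    have h2 := lor H _ hm v (g1 ε)
    have h3 := lor H _ hn v (g1 (-ε))
    rw [g] at h2 h3
    have h4 : Tri t u v v = 0 := by
      have h5 : Tri t u v v ≤ 0 := by
        by_contra h6
        push Not at h6
        have := mul_pos hε h6
        linarith
      have h6 : 0 ≤ Tri t u v v := by
        by_contra h7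
        push Not at h7
        have := mul_pos_of_neg_of_neg (neg_neg_of_pos hε) h7
        linarith
      exact le_antisymm h5 h6
    have h5 := lor_ker H _ hm v (g1 ε) (by rw [g, h4, mul_zero]) w
    rw [g] at h5
    exact (mul_eq_zero.mp h5).resolve_left hε.ne'
  refine H.nd v fun j k => ?_
  rw [lr_s' H]
  exact key _ _

theorem lor_neg (H : Hdg A B t K) (v : ι → ℝ) (h : Tri t (fun _ => 1) (fun _ => 1) v = 0)
    (hv : v ≠ 0) : Tri t (fun _ => 1) v v < 0 := by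
  have h1 := hdg_one H
  rcases (lor H _ h1 v h).eq_or_lt with h0 | h0
  · exact absurd (lor_nd H v (lor_ker H _ h1 v h h0)) hv
  · exact h0

theorem lor_perp (H : Hdg A B t K) (c : ι → ℝ) (hc : c ∈ K) (a v : ι → ℝ)
    (ha : 0 < Tri t c a a) (h : Tri t c a v = 0) : Tri t c v v ≤ 0 := by
  by_contra hv
  push Not at hv
  have hne : Tri t c (fun _ => 1) a ≠ 0 := by
    intro h0
    have := lor H c hc a h0
    linarith
  have h2 := lor H c hc ((Tri t c (fun _ => 1) v) • a + (-(Tri t c (fun _ => 1) a)) • v) (by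
    rw [lr_a' H, lr_m' H, lr_m' H]
    ring)
  rw [lr_q H, h] at h2
  have h3 : 0 < Tri t c (fun _ => 1) a ^ 2 * Tri t c v v := by positivity
  have h4 : 0 ≤ Tri t c (fun _ => 1) v ^ 2 * Tri t c a a := by positivity
  nlinarith

theorem lor_perp_ker (H : Hdg A B t K) (c : ι → ℝ) (hc : c ∈ K) (a v : ι → ℝ)
    (ha : 0 < Tri t c a a) (h : Tri t c a v = 0) (h' : Tri t c v v = 0) (w : ι → ℝ) :
    Tri t c v w = 0 := by
  have key : ∀ w : ι → ℝ, Tri t c a w = 0 → Tri t c v w = 0 := by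
    intro w hw
    refine lr_sm (Tri t c v w) (Tri t c w w) ?_
    intro s
    have h2 := lor_perp H c hc a ((1 : ℝ) • v + s • w) ha (by
      rw [lr_a' H, lr_m' H, lr_m' H, h, hw]
      ring)
    rw [lr_q H, h'] at h2
    linarith
  have h2 := key (w + (-(Tri t c a w / Tri t c a a)) • a) (by
    rw [lr_a' H, lr_m' H]
    field_simp
    ring)
  rw [lr_a' H, lr_m' H, ← lr_s H c a v, h, mul_zero, add_zero] at h2
  exact h2

theorem lor_iso (H : Hdg A B t K) (c : ι → ℝ) (hc : c ∈ K) (a b : ι → ℝ)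
    (haa : Tri t c a a = 0) (hbb : Tri t c b b = 0) (hab : Tri t c a b = 0)
    (hna : ∃ w, Tri t c a w ≠ 0) : ∃ l : ℝ, ∀ w, Tri t c b w = l * Tri t c a w := by
  have hne : Tri t c (fun _ => 1) a ≠ 0 := by
    intro h0
    obtain ⟨w, hw⟩ := hna
    exact hw (lor_ker H c hc a h0 haa w)
  refine ⟨Tri t c (fun _ => 1) b / Tri t c (fun _ => 1) a, fun w => ?_⟩
  have h2 := lor_ker H c hc ((1 : ℝ) • b +
    (-(Tri t c (fun _ => 1) b / Tri t c (fun _ => 1) a)) • a) (by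
      rw [lr_a' H, lr_m' H, lr_m' H]
      field_simp
      ring) (by
      rw [lr_q H, hbb, haa, lr_s H c b a, hab]
      ring) w
  rw [lr_a H, lr_m H, lr_m H] at h2
  linarith

theorem lor_pos (H : Hdg A B t K) (u : ι → ℝ) (hu : u ∈ K) (h0 : u ≠ 0) :
    0 < Tri t (fun _ => 1) (fun _ => 1) u := by
  have h1 := hdg_one H
  rcases (H.nn _ h1 _ h1 u hu).eq_or_lt with h | h
  · exfalso
    have hk := H.kt u hu _ h1 _ h1
    have e1 : Tri t u (fun _ => 1) (fun _ => 1) = 0 := by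
      rw [lr_s' H, lr_s H, ← h]
    have e2 : Tri t u u (fun _ => 1) = Tri t (fun _ => 1) u u := by
      rw [lr_s H, lr_s' H]
    rw [e1, e2] at hk
    have h3 := lor_neg H u h.symm h0
    have h4 := H.nn _ h1 u hu u hu
    linarith
  · exact h

end Pool.Agent.HDG
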