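import Pool.Agent.HDG.Third
import Pool.Agent.KST.Bst
import Pool.Agent.HDG.Ndef

/-!
# HDG NND: numerical independence

`hX X c = hm (Lf X f 0) (bk 0 c)`: the blocks of `Lf X f 0` are indexed by `Fin 1 × ι`, and the block `(0, i)` is
`coordinates of the i-th factor of f^[0] y = y` (the product over `Fin 1 × ι` is the product over `ι`).
`Dl (Pi.single i 1) (hX X) c = Dl (bk 0 (Pi.single i 1)) (hm (Lf X f 0)) (bk 0 c)`, so by `third` (all `c' : Fin 1 × ι → ℕ`
are of the form `bk 0 c`) the third difference of `hX X` in the directions `e i, e j, e k` is for all large `c`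
`Tri (pt A t 0) (e (0,i)) (e (0,j)) (e (0,k)) = t i j k` (`cls A (Pi.single (0,i) 1) = e i`; see `pt_zero`, private in
KST/Bst.lean, copy it). In particular `t i j k = T i j k` for integers `T i j k`.
Let `v : ι → ℝ`, `Tri t v (e j) (e k) = ∑ i, v i * t i j k = 0` for all `j, k`, `v ≠ 0`. The integer matrix
`T` with the rows `(j, k)` and the columns `i` has a nontrivial kernel over `ℝ`, so over `ℚ` (rank; e.g.
`Matrix.rank` of the base change, or: the columns are linearly dependent over `ℝ` iff over `ℚ`: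
`LinearIndependent.map_of_injective...`, or choose a `ℚ`-linear functional on `ℝ` which is not zero on some
`v i` and apply it to all `v i`), so over `ℤ` (clear denominators): `v' : ι → ℤ`, `v' ≠ 0`,
`∑ i, v' i * T i j k = 0`. For `j, k` from `NumInd` the sum of the third differences is eventually
`∑ i, v' i * T i j k = 0`, contradiction.
-/

open MvPolynomial
open scoped LinearAlgebra.Projectivization

namespace Pool.Agent.HDG

open Pool.Agent.KST Pool.Agent.Helper90.KSC Pool.Agent.Helper63.SAND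

variable {E ι : Type*} [Field E] [Fintype ι] [DecidableEq ι] {N : ι → ℕ}

private theorem nnd_cls (A : Matrix ι ι ℤ) (i : ι) :
    cls A (Pi.single (((0 : Fin 1), i) : Fin 1 × ι) (1 : ℝ)) = Pi.single i 1 := by
  funext i'
  rw [cls, Finset.sum_eq_single (((0 : Fin 1), i) : Fin 1 × ι)]
  · simp only [Pi.single_eq_same, one_mul, Fin.val_zero, pow_zero, Matrix.one_apply]
    by_cases h : i = i'
    · subst h
      simp
    · rw [if_neg h, Pi.single_eq_of_ne (Ne.symm h)]
      simp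
  · intro b _ hb
    rw [Pi.single_eq_of_ne hb, zero_mul]
  · intro h
    exact absurd (Finset.mem_univ _) h

private theorem nnd_single {B : Type*} [Fintype B] [DecidableEq B] (t : B → B → B → ℝ)
    (v : B → ℝ) (j k : B) :
    Tri t v (Pi.single j 1) (Pi.single k 1) = ∑ i, t i j k * v i := by
  rw [Tri]
  refine Finset.sum_congr rfl fun i _ => ?_
  rw [Finset.sum_eq_single j, Finset.sum_eq_single k]
  · simp
  · intro b _ hb
    rw [Pi.single_eq_of_ne hb, mul_zero]
  · intro h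
    exact absurd (Finset.mem_univ _) h
  · intro b _ hb
    refine Finset.sum_eq_zero fun c _ => ?_
    rw [Pi.single_eq_of_ne hb, mul_zero, zero_mul]
  · intro h
    exact absurd (Finset.mem_univ _) h

private theorem nnd_single3 {B : Type*} [Fintype B] [DecidableEq B] (t : B → B → B → ℝ)
    (i j k : B) :
    Tri t (Pi.single i 1) (Pi.single j 1) (Pi.single k 1) = t i j k := by
  rw [nnd_single, Finset.sum_eq_single i]
  · simp
  · intro b _ hb
    rw [Pi.single_eq_of_ne hb, mul_zero]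
  · intro h
    exact absurd (Finset.mem_univ _) h

private theorem nnd_pt (A : Matrix ι ι ℤ) (t : ι → ι → ι → ℝ) (i j k : ι) :
    pt A t 0 (0, i) (0, j) (0, k) = t i j k := by
  rw [pt]
  have h : ∀ i, cls A (Pi.single (((0 : Fin (0 + 1)), i) : Fin (0 + 1) × ι) (1 : ℝ)) =
      Pi.single i 1 := fun i => nnd_cls A i
  rw [h, h, h, nnd_single3]

private theorem nnd_hX (X : Set (PPt E N)) (f : PPt E N → PPt E N) (c : ι → ℕ) :
    hX X c = hm (Lf X f 0) (bk 0 c) := by
  have h1 : Rm (Lf X f 0) (bk 0 c) = Rm (fun i => Submodule.span E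
      (Set.range fun (k : Fin (N i + 1)) (x : X) => ((x : PPt E N) i).rep k)) c := by
    unfold Rm
    rw [Fintype.prod_prod_type, Fin.prod_univ_one]
    refine Finset.prod_congr rfl fun i _ => ?_
    have h2 : bk (n := 0) 0 c ((0 : Fin (0 + 1)), i) = c i := by simp [bk]
    rw [h2]
    rfl
  rw [hX, hm, hm, h1]

private theorem nnd_bk_add (c u : ι → ℕ) :
    bk (n := 0) 0 (c + u) = bk 0 c + bk 0 u := by
  funext b
  by_cases h : b.1 = 0
  · simp [bk, h]
  · simp [bk, h]

private theorem nnd_dl (g : (ι → ℕ) → ℤ) (G : (Fin (0 + 1) × ι → ℕ) → ℤ)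
    (h : ∀ c, g c = G (bk 0 c)) (u c : ι → ℕ) :
    Dl u g c = Dl (bk 0 u) G (bk 0 c) := by
  rw [Dl, Dl, h, h, nnd_bk_add]

private theorem nnd_rv (i : ι) :
    rv (bk (n := 0) 0 (Pi.single i 1 : ι → ℕ)) =
      Pi.single (((0 : Fin (0 + 1)), i) : Fin (0 + 1) × ι) (1 : ℝ) := by
  funext b
  obtain ⟨b1, b2⟩ := b
  have hb : b1 = 0 := Subsingleton.elim (α := Fin 1) _ _
  subst hb
  by_cases h : b2 = i
  · subst h
    simp [bk]
  · have h2 : ((0 : Fin (0 + 1)), b2) ≠ ((0 : Fin (0 + 1)), i) := fun h3 => h (Prod.ext_iff.1 h3).2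
    rw [Pi.single_eq_of_ne h2]
    simp [bk, Pi.single_eq_of_ne h]

/-- The third differences of `hX X` are eventually the numbers `t i j k`. -/
private theorem nnd_third (X : Set (PPt E N)) (f : PPt E N → PPt E N) (A : Matrix ι ι ℤ)
    (t : ι → ι → ι → ℝ) (hcub : Cub (hm (Lf X f 0)) (pt A t 0)) (hev : EvP 4 (hm (Lf X f 0)))
    (i j k : ι) : ∃ c₀ : ι → ℕ, ∀ c, c₀ ≤ c →
      ((Dl (Pi.single i 1) (Dl (Pi.single j 1) (Dl (Pi.single k 1) (hX X))) c : ℤ) : ℝ) =
        t i j k := by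
  obtain ⟨c₀, hc₀⟩ := third (hm (Lf X f 0)) hev (pt A t 0) hcub (bk 0 (Pi.single k 1))
    (bk 0 (Pi.single j 1)) (bk 0 (Pi.single i 1))
  refine ⟨fun i => c₀ (0, i), fun c hc => ?_⟩
  have h1 : ∀ c, Dl (Pi.single k 1) (hX X) c = Dl (bk 0 (Pi.single k 1)) (hm (Lf X f 0)) (bk 0 c) :=
    fun c => nnd_dl _ _ (nnd_hX X f) _ c
  have h2 : ∀ c, Dl (Pi.single j 1) (Dl (Pi.single k 1) (hX X)) c =
      Dl (bk 0 (Pi.single j 1)) (Dl (bk 0 (Pi.single k 1)) (hm (Lf X f 0))) (bk 0 c) :=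
    fun c => nnd_dl _ _ h1 _ c
  have h3 : Dl (Pi.single i 1) (Dl (Pi.single j 1) (Dl (Pi.single k 1) (hX X))) c =
      Dl (bk 0 (Pi.single i 1)) (Dl (bk 0 (Pi.single j 1))
        (Dl (bk 0 (Pi.single k 1)) (hm (Lf X f 0)))) (bk 0 c) := nnd_dl _ _ h2 _ c
  have h4 : c₀ ≤ bk 0 c := by
    rintro ⟨b1, b2⟩
    have hb : b1 = 0 := Subsingleton.elim (α := Fin 1) _ _
    subst hb
    have h5 : bk (n := 0) 0 c ((0 : Fin (0 + 1)), b2) = c b2 := by simp [bk]
    rw [h5]
    exact hc b2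
  rw [h3, hc₀ _ h4, nnd_rv, nnd_rv, nnd_rv, nnd_single3, hcub.s₁, hcub.s₂, hcub.s₁, nnd_pt]

theorem nnd (X : Set (PPt E N)) (f : PPt E N → PPt E N) (A : Matrix ι ι ℤ)
    (t : ι → ι → ι → ℝ) (hcub : Cub (hm (Lf X f 0)) (pt A t 0)) (hev : EvP 4 (hm (Lf X f 0)))
    (h : NumInd X) (v : ι → ℝ)
    (hv : ∀ j k, Tri t v (Pi.single j 1) (Pi.single k 1) = 0) : v = 0 := by
  choose c₀ hc₀ using nnd_third X f A t hcub hev
  -- the integers
  set T : ι → ι → ι → ℤ := fun i j k =>
    Dl (Pi.single i 1) (Dl (Pi.single j 1) (Dl (Pi.single k 1) (hX X))) (c₀ i j k) with hT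
  have hTt : ∀ i j k, ((T i j k : ℤ) : ℝ) = t i j k := fun i j k => hc₀ i j k _ le_rfl
  have hTc : ∀ i j k c, c₀ i j k ≤ c →
      Dl (Pi.single i 1) (Dl (Pi.single j 1) (Dl (Pi.single k 1) (hX X))) c = T i j k := by
    intro i j k c hc
    have h1 := hc₀ i j k c hc
    rw [← hTt] at h1
    exact_mod_cast h1
  have hv' : ∀ j k, ∑ i, (T i j k : ℝ) * v i = 0 := by
    intro j k
    rw [← hv j k, nnd_single]
    exact Finset.sum_congr rfl fun i _ => by rw [hTt]
  by_contra hne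
  obtain ⟨i₀, hi₀⟩ := Function.ne_iff.1 hne
  have hi₀' : v i₀ ≠ 0 := hi₀
  obtain ⟨φ, hφ⟩ : ∃ φ : Module.Dual ℚ ℝ, φ (v i₀) ≠ 0 := by
    by_contra hcon
    push Not at hcon
    exact hi₀' ((Module.forall_dual_apply_eq_zero_iff ℚ (v i₀)).1 hcon)
  have hw : ∀ j k, ∑ i, (T i j k : ℚ) * φ (v i) = 0 := by
    intro j k
    have h1 := congrArg φ (hv' j k)
    rw [map_sum, map_zero] at h1
    rw [← h1]
    refine Finset.sum_congr rfl fun i _ => ?_
    have h2 : (T i j k : ℝ) * v i = (T i j k : ℚ) • v i := by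
      rw [Rat.smul_def]
      push_cast
      rfl
    rw [h2, map_smul, smul_eq_mul]
  obtain ⟨⟨b, hb⟩, hbi⟩ := IsLocalization.exist_integer_multiples_of_finite (nonZeroDivisors ℤ)
    (fun i => φ (v i))
  choose v' hv'' using hbi
  have hb0 : (b : ℚ) ≠ 0 := by
    have : b ≠ 0 := nonZeroDivisors.ne_zero hb
    exact_mod_cast this
  have hval : ∀ i, ((v' i : ℤ) : ℚ) = (b : ℚ) * φ (v i) := by
    intro i
    have h1 := hv'' i
    rw [zsmul_eq_mul] at h1
    exact h1
  have hne' : v' ≠ 0 := by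
    intro h0
    have h1 := hval i₀
    rw [h0, Pi.zero_apply, Int.cast_zero] at h1
    rcases mul_eq_zero.1 h1.symm with h2 | h2
    · exact hb0 h2
    · exact hφ h2
  have hsum : ∀ j k, ∑ i, v' i * T i j k = 0 := by
    intro j k
    have h1 : ((∑ i, v' i * T i j k : ℤ) : ℚ) = 0 := by
      push_cast
      have h2 : ∑ i, (v' i : ℚ) * (T i j k : ℚ) = (b : ℚ) * ∑ i, (T i j k : ℚ) * φ (v i) := by
        rw [Finset.mul_sum]
        refine Finset.sum_congr rfl fun i _ => ?_
        rw [hval]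
        ring
      rw [h2, hw, mul_zero]
    exact_mod_cast h1
  obtain ⟨j, k, hjk⟩ := h v' hne'
  apply hjk
  refine ⟨fun x => ∑ i, c₀ i j k x, fun c hc => ?_⟩
  rw [← hsum j k]
  refine Finset.sum_congr rfl fun i _ => ?_
  rw [hTc i j k c]
  intro x
  exact (Finset.single_le_sum (f := fun i => c₀ i j k x) (fun i _ => Nat.zero_le _)
    (Finset.mem_univ i)).trans (hc x)

end Pool.Agent.HDG
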