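import Pool.Agent.HDG.Pf

/-!
# HDG SEMI: semisimplicity at the roots of unity

Let `F = A ^ n`, `n ≥ 1`; `K` is stable under `F`. `pf` for `A`: `θ`, `θ F = l θ`, `l = δ₁ ^ n > 1`; `pf` for `B`
(`H.symm`): `θ'`, `θ' ᵥ* B = δ₂ • θ'`, so `θ' F = m⁻¹ θ'`, `m = δ₂ ^ n > 1`.
(0) `s = T(θ,θ',1) > 0`: `≥ 0` by `nn`; put `v = θ - θ'`: `T(1,1,v) = 0`, `v ≠ 0` (`l ≠ m⁻¹`), so by `lor_neg`
`0 > T(1,v,v) = T(1,θ,θ) + T(1,θ',θ') - 2 s ≥ -2 s`.
(1) `row`: let `v` be a row vector with `v (F - 1) ^ 2 = 0`, `D = v (F - 1)`, so `D F = D`, `v F = v + D`. Claim: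
`T(θ,D,·) = 0`. `T(θ,D,D) = l T(θ,D,D)` by invariance, so `0`. `T(θ,θ',D) = 0`: if `l ≠ m` by invariance, if
`l = m`: `T(θ,θ',v) = T(θ F,θ' F,v F) = T(θ,θ',v) + T(θ,θ',D)`. If `T(θ,θ',θ') > 0` use `lor_perp_ker` with
`c = θ`, `a = θ'`, `v = D`. If `T(θ,θ',θ') = 0` use `lor_iso` with `c = θ`, `a = θ'`, `b = D` (`T(θ,θ',1) = s ≠ 0`):
`T(θ,D,w) = x T(θ,θ',w)` for all `w`. `T(θ,D,w) = l T(θ,D,w F)`, `T(θ,θ',w) = l m⁻¹ T(θ,θ',w F)`; so
`x T(θ,θ',w) = T(θ,D,w) = l T(θ,D,w F) = l x T(θ,θ',w F) = x m T(θ,θ',w)`, `w = 1`, `m ≠ 1`: `x = 0`.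
In the same way `T(θ',D,·) = 0`.
(2) If `D ≠ 0` then `T(1,D,D) < 0`: `T(1,θ + θ',θ + θ') ≥ 2 s > 0`, `T(1,θ + θ',D) = 0`; `lor_perp`, and
if `T(1,D,D) = 0` then `lor_perp_ker` and `lor_nd`.
(3) Fitting decomposition of the row vectors for `F - 1`: `1 = H₁ + H'`, `H₁ (F - 1) ^ k = 0`,
`H' = y (F - 1)` for some `y`. For `D` as in (1) `T(y F,D,D) = T(y,D,D)`, so `T(H',D,D) = 0`,
`T(H₁,D,D) = T(1,D,D)`.
(4) `H₁ F = H₁`: otherwise let `k ≥ 2` be minimal with `H₁ (F - 1) ^ k = 0`, `D = H₁ (F - 1) ^ (k - 1) ≠ 0`; it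
is `v (F - 1)` with `v = H₁ (F - 1) ^ (k - 2)`, `v (F - 1) ^ 2 = 0`. So `T(H₁,D,D) < 0`. With `N = F - 1`,
`H₁ F ^ p = ∑_j binom(p, j) H₁ N ^ j`, `T(H₁ F ^ p,H₁ F ^ p,H₁)` is a polynomial in `p` of degree `2 (k - 1)`
with the leading coefficient `T(D,D,H₁) / ((k - 1)!) ^ 2 ≠ 0`; but it is equal to
`T(H₁,H₁,H₁ B^(n p))`, a polynomial in `p` of degree `≤ k - 1` (`(1 + N)⁻¹ ^ p` on `H₁`): contradiction as
`k ≥ 2`. (Growth: divide by `p ^ (2 (k - 1))`.)
(5) Now let `v` be as in (1) and `D ≠ 0`. `T(H₁,v,D) = T(H₁ F,v F,D F) = T(H₁,v + D,D)`, so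
`T(H₁,D,D) = 0`, contradiction to (2), (3). So `D = 0`: the kernels of `F - 1` and `(F - 1) ^ 2` on row vectors
agree, so `rank (F - 1) = rank ((F - 1) ^ 2)`, and (`Matrix.rank_transpose`) the same for column vectors,
where `ker (F - 1) ⊆ ker ((F - 1) ^ 2)`, equality by dimension.
-/

open Filter Topology Matrix

namespace Pool.Agent.HDG

open Pool.Agent.KST

section core

open Polynomial in
private lemma se_pol1 (k : ℕ) :
    ∑ p ∈ Finset.range (k + 1), C ((-1 : ℝ) ^ (k - p) * (k.choose p : ℝ)) * X ^ p =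
      ((X : ℝ[X]) - 1) ^ k := by
  rw [sub_eq_add_neg, add_pow]
  refine Finset.sum_congr rfl fun p _ => ?_
  rw [C_mul, C_pow, C_neg, C_1]
  simp only [map_natCast]
  ring

open Polynomial in
private lemma se_pol2 (k : ℕ) :
    ∑ p ∈ Finset.range (k + 2), C ((-1 : ℝ) ^ (k + 1 - p) * ((k + 1).choose p : ℝ) * (p : ℝ)) * X ^ p =
      C ((k : ℝ) + 1) * (X * ((X : ℝ[X]) - 1) ^ k) := by
  have h := congrArg derivative (se_pol1 (k + 1))
  rw [derivative_sum] at h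
  have h2 : derivative (((X : ℝ[X]) - 1) ^ (k + 1)) = C ((k : ℝ) + 1) * ((X : ℝ[X]) - 1) ^ k := by
    rw [derivative_pow]
    simp
  rw [h2] at h
  have h3 := congrArg (fun q => X * q) h
  simp only [Finset.mul_sum] at h3
  rw [show C ((k : ℝ) + 1) * (X * ((X : ℝ[X]) - 1) ^ k) =
    X * (C ((k : ℝ) + 1) * ((X : ℝ[X]) - 1) ^ k) by ring, ← h3]
  refine Finset.sum_congr rfl fun p _ => ?_
  rw [derivative_C_mul_X_pow]
  rcases p with _ | p
  · simp
  · rw [Nat.add_sub_cancel, pow_succ]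
    ring

open Polynomial in
private lemma se_pol3 (k : ℕ) :
    ∑ p ∈ Finset.range (k + 1), C ((-1 : ℝ) ^ (k - p) * (k.choose p : ℝ)) * X ^ (k - p) =
      (1 - (X : ℝ[X])) ^ k := by
  rw [sub_eq_add_neg, add_pow]
  refine Finset.sum_congr rfl fun p _ => ?_
  rw [C_mul, C_pow, C_neg, C_1, neg_pow (X : ℝ[X])]
  simp only [map_natCast]
  ring

variable {E : Type*} [AddCommGroup E] [Module ℝ E]

open Polynomial in
private lemma se_aeval (f : Module.End ℝ E) (k : ℕ) (c : ℕ → ℝ) (e : ℕ → ℕ) :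
    aeval f (∑ p ∈ Finset.range k, C (c p) * X ^ e p) =
      ∑ p ∈ Finset.range k, c p • f ^ e p := by
  rw [map_sum]
  refine Finset.sum_congr rfl fun p _ => ?_
  rw [map_mul, aeval_C, map_pow, aeval_X, ← Algebra.smul_def]

private lemma se_end1 (f : Module.End ℝ E) (k : ℕ) :
    ∑ p ∈ Finset.range (k + 1), ((-1 : ℝ) ^ (k - p) * (k.choose p : ℝ)) • f ^ p =
      (f - 1) ^ k := by
  rw [← se_aeval f (k + 1) (fun p => (-1 : ℝ) ^ (k - p) * (k.choose p : ℝ)) (fun p => p),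
    se_pol1 k]
  simp

private lemma se_end2 (f : Module.End ℝ E) (k : ℕ) :
    ∑ p ∈ Finset.range (k + 2),
      ((-1 : ℝ) ^ (k + 1 - p) * ((k + 1).choose p : ℝ) * (p : ℝ)) • f ^ p =
      ((k : ℝ) + 1) • (f * (f - 1) ^ k) := by
  rw [← se_aeval f (k + 2) (fun p => (-1 : ℝ) ^ (k + 1 - p) * ((k + 1).choose p : ℝ) * (p : ℝ))
    (fun p => p), se_pol2 k, map_mul, Polynomial.aeval_C, ← Algebra.smul_def]
  simp

private lemma se_end3 (f : Module.End ℝ E) (k : ℕ) :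
    ∑ p ∈ Finset.range (k + 1), ((-1 : ℝ) ^ (k - p) * (k.choose p : ℝ)) • f ^ (k - p) =
      (1 - f) ^ k := by
  rw [← se_aeval f (k + 1) (fun p => (-1 : ℝ) ^ (k - p) * (k.choose p : ℝ)) (fun p => k - p),
    se_pol3 k]
  simp

private lemma se_pow_inv (τ : E →ₗ[ℝ] E →ₗ[ℝ] E →ₗ[ℝ] ℝ) (f : Module.End ℝ E)
    (hf : ∀ u v w, τ (f u) (f v) (f w) = τ u v w) (p : ℕ) (u v w : E) :
    τ ((f ^ p) u) ((f ^ p) v) ((f ^ p) w) = τ u v w := by
  induction p with
  | zero => simp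
  | succ p ih =>
    rw [pow_succ' f p]
    simp only [Module.End.mul_apply]
    rw [hf, ih]

/-- the key computation (4) -/
private lemma se_key (τ : E →ₗ[ℝ] E →ₗ[ℝ] E →ₗ[ℝ] ℝ) (f : Module.End ℝ E)
    (hf : ∀ u v w, τ (f u) (f v) (f w) = τ u v w) (u : E) (k : ℕ)
    (hk : ((f - 1) ^ (k + 2)) u = 0) :
    τ (((f - 1) ^ (k + 1)) u) (((f - 1) ^ (k + 1)) u) u = 0 := by
  obtain ⟨v, hv⟩ : ∃ v, v = ((f - 1) ^ k) u := ⟨_, rfl⟩
  obtain ⟨D, hD⟩ : ∃ D, D = ((f - 1) ^ (k + 1)) u := ⟨_, rfl⟩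
  have h1 : f v = v + D := by
    rw [hD, hv, pow_succ' _ k, Module.End.mul_apply, LinearMap.sub_apply, Module.End.one_apply]
    abel
  have h2 : f D = D := by
    have h3 : ((f - 1) ^ (k + 2)) u = (f - 1) D := by
      rw [hD, pow_succ' _ (k + 1), Module.End.mul_apply]
    rw [h3, LinearMap.sub_apply, Module.End.one_apply] at hk
    exact sub_eq_zero.1 hk
  have h3 : ∀ p : ℕ, (f ^ p) v = v + (p : ℝ) • D := by
    intro p
    induction p with
    | zero => simp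
    | succ p ih =>
      rw [pow_succ' f p, Module.End.mul_apply, ih, map_add, map_smul, h1, h2]
      push_cast
      rw [add_smul, one_smul]
      abel
  obtain ⟨c, hc⟩ : ∃ c : ℕ → ℝ, c = fun p => (-1 : ℝ) ^ (k + 2 - p) * ((k + 2).choose p : ℝ) :=
    ⟨_, rfl⟩
  -- first evaluation
  have e1 : ∑ p ∈ Finset.range (k + 3), c p * τ ((f ^ p) v) ((f ^ p) u) u =
      ((k : ℝ) + 2) * τ D D u := by
    have a1 : ∀ p, c p * τ ((f ^ p) v) ((f ^ p) u) u =
        τ v (c p • (f ^ p) u) u + τ D ((c p * p) • (f ^ p) u) u := by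
      intro p
      rw [h3 p]
      simp only [map_add, map_smul, LinearMap.add_apply, LinearMap.smul_apply, smul_eq_mul]
      ring
    rw [Finset.sum_congr rfl fun p _ => a1 p, Finset.sum_add_distrib]
    have a2 : ∑ p ∈ Finset.range (k + 3), τ v (c p • (f ^ p) u) u =
        τ v (((f - 1) ^ (k + 2)) u) u := by
      rw [← se_end1 f (k + 2), hc]
      simp only [LinearMap.coe_sum, Finset.sum_apply, map_sum, LinearMap.smul_apply]
    have a3 : ∑ p ∈ Finset.range (k + 3), τ D ((c p * p) • (f ^ p) u) u =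
        τ D ((((k + 1 : ℕ) : ℝ) + 1) • (f (((f - 1) ^ (k + 1)) u))) u := by
      have a4 : (((k + 1 : ℕ) : ℝ) + 1) • (f (((f - 1) ^ (k + 1)) u)) =
          ((((k + 1 : ℕ) : ℝ) + 1) • (f * (f - 1) ^ (k + 1))) u := rfl
      rw [a4, ← se_end2 f (k + 1), hc]
      simp only [LinearMap.coe_sum, Finset.sum_apply, map_sum, LinearMap.smul_apply]
    rw [a2, a3, hk, ← hD, h2]
    simp only [map_zero, LinearMap.zero_apply, zero_add, map_smul, LinearMap.smul_apply,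
      smul_eq_mul]
    push_cast
    ring
  -- second evaluation
  have e2 : ∑ p ∈ Finset.range (k + 3), c p * τ ((f ^ p) v) ((f ^ p) u) u = 0 := by
    have a1 : ∀ p ∈ Finset.range (k + 3), c p * τ ((f ^ p) v) ((f ^ p) u) u =
        τ ((f ^ (k + 2)) v) ((f ^ (k + 2)) u) (c p • (f ^ (k + 2 - p)) u) := by
      intro p hp
      have hp' : p ≤ k + 2 := by
        have := Finset.mem_range.1 hp
        omega
      rw [← se_pow_inv τ f hf (k + 2 - p) ((f ^ p) v) ((f ^ p) u) u, ← Module.End.mul_apply,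
        ← Module.End.mul_apply, ← pow_add, Nat.sub_add_cancel hp', map_smul, smul_eq_mul]
    rw [Finset.sum_congr rfl a1]
    have a2 : ∑ p ∈ Finset.range (k + 3),
        τ ((f ^ (k + 2)) v) ((f ^ (k + 2)) u) (c p • (f ^ (k + 2 - p)) u) =
        τ ((f ^ (k + 2)) v) ((f ^ (k + 2)) u) (((1 - f) ^ (k + 2)) u) := by
      rw [← se_end3 f (k + 2), hc]
      simp only [LinearMap.coe_sum, Finset.sum_apply, map_sum, LinearMap.smul_apply]
    rw [a2]
    have a3 : (1 - f) ^ (k + 2) = (-1 : ℝ) ^ (k + 2) • (f - 1) ^ (k + 2) := by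
      rw [← neg_sub, neg_pow]
      rcases Nat.even_or_odd (k + 2) with h | h
      · rw [h.neg_one_pow, h.neg_one_pow]
        simp
      · rw [h.neg_one_pow, h.neg_one_pow]
        simp
    rw [a3, LinearMap.smul_apply, hk]
    simp
  rw [e1] at e2
  rw [← hD]
  have : (k : ℝ) + 2 ≠ 0 := by positivity
  exact (mul_eq_zero.1 e2).resolve_left this

/-- the abstract theorem -/
private theorem se_core [FiniteDimensional ℝ E] (τ : E →ₗ[ℝ] E →ₗ[ℝ] E →ₗ[ℝ] ℝ)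
    (s₁ : ∀ u v w, τ u v w = τ v u w) (s₂ : ∀ u v w, τ u v w = τ u w v)
    (f : Module.End ℝ E) (hf : ∀ u v w, τ (f u) (f v) (f w) = τ u v w) (e : E)
    (hneg : ∀ v D, f v = v + D → f D = D → D ≠ 0 → τ e D D < 0) :
    ∀ v D, f v = v + D → f D = D → D = 0 := by
  -- Fitting
  obtain ⟨m, hm, hm1⟩ : ∃ m : ℕ, IsCompl (LinearMap.ker ((f - 1) ^ m))
      (LinearMap.range ((f - 1) ^ m)) ∧ 1 ≤ m :=
    ((LinearMap.eventually_isCompl_ker_pow_range_pow (f - 1)).and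
      (eventually_ge_atTop 1)).exists
  obtain ⟨H₁, hH₁, H', hH', hsum⟩ : ∃ a ∈ LinearMap.ker ((f - 1) ^ m),
      ∃ b ∈ LinearMap.range ((f - 1) ^ m), a + b = e := by
    have h1 : e ∈ LinearMap.ker ((f - 1) ^ m) ⊔ LinearMap.range ((f - 1) ^ m) := by
      rw [hm.sup_eq_top]
      exact Submodule.mem_top
    exact Submodule.mem_sup.1 h1
  -- (3)
  obtain ⟨y, hy⟩ : ∃ y, H' = f y - y := by
    obtain ⟨z, hz⟩ := hH'
    obtain ⟨m', rfl⟩ : ∃ m', m = m' + 1 := ⟨m - 1, by omega⟩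
    refine ⟨((f - 1) ^ m') z, ?_⟩
    rw [← hz, pow_succ', Module.End.mul_apply, LinearMap.sub_apply, Module.End.one_apply]
  have h3 : ∀ D, f D = D → τ H₁ D D = τ e D D := by
    intro D hD
    have h4 : τ H' D D = 0 := by
      rw [hy, map_sub, LinearMap.sub_apply, LinearMap.sub_apply]
      have h5 := hf y D D
      rw [hD] at h5
      rw [h5, sub_self]
    rw [← hsum, map_add, LinearMap.add_apply, LinearMap.add_apply, h4, add_zero]
  -- (4)
  have h4 : (f - 1) H₁ = 0 := by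
    by_contra hne
    have hex : ∃ j : ℕ, ((f - 1) ^ j : Module.End ℝ E) H₁ = 0 := ⟨m, hH₁⟩
    classical
    obtain ⟨j, hj, hmin⟩ : ∃ j : ℕ, ((f - 1) ^ j : Module.End ℝ E) H₁ = 0 ∧
        ∀ i < j, ((f - 1) ^ i : Module.End ℝ E) H₁ ≠ 0 :=
      ⟨Nat.find hex, Nat.find_spec hex, fun i hi => Nat.find_min hex hi⟩
    have hj2 : 2 ≤ j := by
      by_contra hlt
      have hj01 : j = 0 ∨ j = 1 := by omega
      rcases hj01 with h | h
      · rw [h, pow_zero, Module.End.one_apply] at hj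
        rw [hj, map_zero] at hne
        exact hne rfl
      · rw [h, pow_one] at hj
        exact hne hj
    obtain ⟨k, rfl⟩ : ∃ k, j = k + 2 := ⟨j - 2, by omega⟩
    have h5 := se_key τ f hf H₁ k hj
    have hD0 := hmin (k + 1) (by omega)
    obtain ⟨D, hD⟩ : ∃ D, D = ((f - 1) ^ (k + 1)) H₁ := ⟨_, rfl⟩
    rw [← hD] at h5 hD0
    have h6 : f (((f - 1) ^ k) H₁) = ((f - 1) ^ k) H₁ + D := by
      rw [hD, pow_succ' _ k, Module.End.mul_apply, LinearMap.sub_apply, Module.End.one_apply]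
      abel
    have h7 : f D = D := by
      have h8 : ((f - 1) ^ (k + 2)) H₁ = (f - 1) D := by
        rw [hD, pow_succ' _ (k + 1), Module.End.mul_apply]
      rw [h8, LinearMap.sub_apply, Module.End.one_apply] at hj
      exact sub_eq_zero.1 hj
    have h8 := hneg _ D h6 h7 hD0
    rw [← h3 D h7, s₁ H₁ D D, s₂ D H₁ D, h5] at h8
    exact lt_irrefl _ h8
  -- (5)
  intro v D hv hD
  by_contra hne
  have h5 : f H₁ = H₁ := by
    rw [LinearMap.sub_apply, Module.End.one_apply] at h4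
    exact sub_eq_zero.1 h4
  have h6 := hf H₁ v D
  rw [h5, hv, hD, map_add, LinearMap.add_apply] at h6
  have h7 : τ H₁ D D = 0 := by linarith
  have h8 := hneg v D hv hD hne
  rw [← h3 D hD, h7] at h8
  exact lt_irrefl _ h8

end core

variable {ι : Type*} [Fintype ι] [DecidableEq ι] {A B : Matrix ι ι ℝ} {t : ι → ι → ι → ℝ}
  {K : Set (ι → ℝ)}

omit [DecidableEq ι] in
private lemma se_add₂ (t : ι → ι → ι → ℝ) (u v v' w : ι → ℝ) :
    Tri t u (v + v') w = Tri t u v w + Tri t u v' w := by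
  unfold Tri
  rw [← Finset.sum_add_distrib]
  refine Finset.sum_congr rfl fun i _ => ?_
  rw [← Finset.sum_add_distrib]
  refine Finset.sum_congr rfl fun j _ => ?_
  rw [← Finset.sum_add_distrib]
  refine Finset.sum_congr rfl fun k _ => ?_
  rw [Pi.add_apply]
  ring

omit [DecidableEq ι] in
private lemma se_add₃ (t : ι → ι → ι → ℝ) (u v w w' : ι → ℝ) :
    Tri t u v (w + w') = Tri t u v w + Tri t u v w' := by
  unfold Tri
  rw [← Finset.sum_add_distrib]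
  refine Finset.sum_congr rfl fun i _ => ?_
  rw [← Finset.sum_add_distrib]
  refine Finset.sum_congr rfl fun j _ => ?_
  rw [← Finset.sum_add_distrib]
  refine Finset.sum_congr rfl fun k _ => ?_
  rw [Pi.add_apply]
  ring

omit [DecidableEq ι] in
private lemma se_smul₂ (t : ι → ι → ι → ℝ) (r : ℝ) (u v w : ι → ℝ) :
    Tri t u (r • v) w = r * Tri t u v w := by
  unfold Tri
  rw [Finset.mul_sum]
  refine Finset.sum_congr rfl fun i _ => ?_
  rw [Finset.mul_sum]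
  refine Finset.sum_congr rfl fun j _ => ?_
  rw [Finset.mul_sum]
  refine Finset.sum_congr rfl fun k _ => ?_
  rw [Pi.smul_apply, smul_eq_mul]
  ring

omit [DecidableEq ι] in
private lemma se_smul₃ (t : ι → ι → ι → ℝ) (r : ℝ) (u v w : ι → ℝ) :
    Tri t u v (r • w) = r * Tri t u v w := by
  unfold Tri
  rw [Finset.mul_sum]
  refine Finset.sum_congr rfl fun i _ => ?_
  rw [Finset.mul_sum]
  refine Finset.sum_congr rfl fun j _ => ?_
  rw [Finset.mul_sum]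
  refine Finset.sum_congr rfl fun k _ => ?_
  rw [Pi.smul_apply, smul_eq_mul]
  ring

/-- the trilinear map -/
private noncomputable def seT (t : ι → ι → ι → ℝ) :
    (ι → ℝ) →ₗ[ℝ] (ι → ℝ) →ₗ[ℝ] (ι → ℝ) →ₗ[ℝ] ℝ where
  toFun u := LinearMap.mk₂ ℝ (fun v w => Tri t u v w) (fun v v' w => se_add₂ t u v v' w)
    (fun r v w => by rw [se_smul₂, smul_eq_mul]) (fun v w w' => se_add₃ t u v w w')
    (fun r v w => by rw [se_smul₃, smul_eq_mul])
  map_add' u u' := by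
    ext v w
    simp only [LinearMap.coe_comp, Function.comp_apply, LinearMap.add_apply, LinearMap.mk₂_apply,
      tri_add₁]
  map_smul' r u := by
    ext v w
    simp only [LinearMap.coe_comp, Function.comp_apply, LinearMap.smul_apply, LinearMap.mk₂_apply,
      tri_smul₁, RingHom.id_apply, smul_eq_mul]

private lemma se_inv (H : Hdg A B t K) (n : ℕ) (u v w : ι → ℝ) :
    Tri t (u ᵥ* (A ^ n)) (v ᵥ* (A ^ n)) (w ᵥ* (A ^ n)) = Tri t u v w := by
  induction n with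
  | zero => simp
  | succ n ih =>
    rw [pow_succ, ← Matrix.vecMul_vecMul, ← Matrix.vecMul_vecMul, ← Matrix.vecMul_vecMul, H.inv, ih]

private lemma se_eig (A : Matrix ι ι ℝ) (θ : ι → ℝ) (l : ℝ) (h : θ ᵥ* A = l • θ) (n : ℕ) :
    θ ᵥ* (A ^ n) = l ^ n • θ := by
  induction n with
  | zero => simp
  | succ n ih =>
    rw [pow_succ, ← Matrix.vecMul_vecMul, ih, Matrix.smul_vecMul, h, smul_smul, pow_succ]

/-- (1) -/
private lemma se_row (H : Hdg A B t K) (n : ℕ) (c a : ι → ℝ) (hc : c ∈ K) (ha : a ∈ K)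
    (p q : ℝ) (hp : p ≠ 1) (hq : q ≠ 1) (hcp : c ᵥ* (A ^ n) = p • c) (haq : a ᵥ* (A ^ n) = q • a)
    (hne : Tri t c a (fun _ => 1) ≠ 0) (v D : ι → ℝ) (hv : v ᵥ* (A ^ n) = v + D)
    (hD : D ᵥ* (A ^ n) = D) (w : ι → ℝ) : Tri t c D w = 0 := by
  have hcDD : Tri t c D D = 0 := by
    have h1 := se_inv H n c D D
    rw [hcp, hD, tri_smul₁] at h1
    have h2 : (p - 1) * Tri t c D D = 0 := by linarith
    exact (mul_eq_zero.1 h2).resolve_left (sub_ne_zero.2 hp)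
  have hcaD : Tri t c a D = 0 := by
    have h1 := se_inv H n c a D
    rw [hcp, haq, hD, tri_smul₁, se_smul₂] at h1
    by_cases hpq : p * q = 1
    · have h2 := se_inv H n c a v
      rw [hcp, haq, hv, tri_smul₁, se_smul₂, se_add₃] at h2
      have h3 : (p * q) * (Tri t c a v + Tri t c a D) = Tri t c a v := by
        rw [mul_assoc]
        exact h2
      rw [hpq] at h3
      linarith
    · have h2 : (p * q - 1) * Tri t c a D = 0 := by
        rw [sub_mul, mul_assoc, one_mul, h1, sub_self]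
      exact (mul_eq_zero.1 h2).resolve_left (sub_ne_zero.2 hpq)
  rcases (H.nn c hc a ha a ha).lt_or_eq with h | h
  · exact lor_perp_ker H c hc a D h hcaD hcDD w
  · obtain ⟨x, hx⟩ := lor_iso H c hc a D h.symm hcDD hcaD ⟨_, hne⟩
    have h1 := se_inv H n c D (fun _ => 1)
    rw [hcp, hD, tri_smul₁, hx, hx] at h1
    have h2 := se_inv H n c a (fun _ => 1)
    rw [hcp, haq, tri_smul₁, se_smul₂] at h2
    have h3 : x * ((q - 1) * Tri t c a (fun _ => 1)) = 0 := by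
      have h4 : q * (p * (x * Tri t c a ((fun _ => 1) ᵥ* (A ^ n)))) =
          q * (x * Tri t c a (fun _ => 1)) := by rw [h1]
      have h5 : q * (p * (x * Tri t c a ((fun _ => 1) ᵥ* (A ^ n)))) =
          x * Tri t c a (fun _ => 1) := by
        rw [← h2]
        ring
      rw [h5] at h4
      linarith
    have h6 : x = 0 := by
      rcases mul_eq_zero.1 h3 with h7 | h7
      · exact h7
      · rcases mul_eq_zero.1 h7 with h8 | h8
        · exact absurd (sub_eq_zero.1 h8) hq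
        · exact absurd h8 hne
    rw [hx, h6, zero_mul]

private lemma se_rowker (H : Hdg A B t K) (δ₁ δ₂ : ℝ) (h₁ : 1 < δ₁) (h₂ : 1 < δ₂)
    (hA : Grt A t δ₁) (hB : Grt B t δ₂) (n : ℕ) (hn : 1 ≤ n) (v D : ι → ℝ)
    (hv : v ᵥ* (A ^ n) = v + D) (hD : D ᵥ* (A ^ n) = D) : D = 0 := by
  obtain ⟨θ, hθK, hθ, hθ1⟩ := pf H δ₁ h₁ hA
  obtain ⟨θ', hθK', hθB, hθ1'⟩ := pf H.symm δ₂ h₂ hB
  have hδ₂ : δ₂ ≠ 0 := by positivity
  have hθ' : θ' ᵥ* A = δ₂⁻¹ • θ' := by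
    have e1 : (θ' ᵥ* B) ᵥ* A = θ' := by
      rw [Matrix.vecMul_vecMul, H.symm.ab, Matrix.vecMul_one]
    rw [hθB, Matrix.smul_vecMul] at e1
    have e2 : δ₂⁻¹ • (δ₂ • (θ' ᵥ* A)) = δ₂⁻¹ • θ' := by rw [e1]
    rw [smul_smul, inv_mul_cancel₀ hδ₂, one_smul] at e2
    exact e2
  have hF := se_eig A θ δ₁ hθ n
  have hF' := se_eig A θ' δ₂⁻¹ hθ' n
  have hn0 : n ≠ 0 := by omega
  have hl : 1 < δ₁ ^ n := one_lt_pow₀ h₁ hn0
  have hm : δ₂⁻¹ ^ n < 1 := pow_lt_one₀ (by positivity) (inv_lt_one_of_one_lt₀ h₂) hn0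
  have s12 := fun u v w => tri_swap₁ t H.s₁ u v w
  have s23 := fun u v w => tri_swap₂ t H.s₂ u v w
  have h1K := hdg_one H
  -- (0)
  have hs : 0 < Tri t θ θ' (fun _ => 1) := by
    have e1 : Tri t (fun _ => 1) (fun _ => 1) (θ + (-1 : ℝ) • θ') = 0 := by
      rw [se_add₃, se_smul₃, s23, s12, hθ1, s23, s12, hθ1']
      norm_num
    have e2 : θ + (-1 : ℝ) • θ' ≠ 0 := by
      intro h
      have e3 : θ = θ' := by
        rw [neg_smul, one_smul, ← sub_eq_add_neg] at h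
        exact sub_eq_zero.1 h
      rw [e3, hF'] at hF
      have e4 : Tri t (δ₂⁻¹ ^ n • θ') (fun _ => 1) (fun _ => 1) =
          Tri t (δ₁ ^ n • θ') (fun _ => 1) (fun _ => 1) := by rw [hF]
      rw [tri_smul₁, tri_smul₁, hθ1'] at e4
      linarith
    have e3 := lor_neg H _ e1 e2
    rw [se_add₂, se_add₃, se_add₃, se_smul₂, se_smul₂, se_smul₃, se_smul₃] at e3
    have e4 := H.nn _ h1K θ hθK θ hθK
    have e5 := H.nn _ h1K θ' hθK' θ' hθK'
    have e6 : Tri t (fun _ => 1) θ θ' = Tri t θ θ' (fun _ => 1) := by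
      rw [s12, s23]
    have e7 : Tri t (fun _ => 1) θ' θ = Tri t θ θ' (fun _ => 1) := by
      rw [s23, e6]
    rw [e6, e7] at e3
    linarith
  have hs' : Tri t θ' θ (fun _ => 1) ≠ 0 := by
    rw [s12]
    exact hs.ne'
  refine se_core (seT t) (fun u v w => s12 u v w) (fun u v w => s23 u v w)
    (Matrix.vecMulLinear (A ^ n)) (fun u v w => se_inv H n u v w) (fun _ => 1) ?_ v D hv hD
  intro v D hv hD hne
  have hv' : v ᵥ* (A ^ n) = v + D := hv
  have hD' : D ᵥ* (A ^ n) = D := hD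
  have g1 := se_row H n θ θ' hθK hθK' (δ₁ ^ n) (δ₂⁻¹ ^ n) hl.ne' hm.ne hF hF' hs.ne' v D hv' hD'
  have g2 := se_row H n θ' θ hθK' hθK (δ₂⁻¹ ^ n) (δ₁ ^ n) hm.ne hl.ne' hF' hF hs' v D hv' hD'
  have he : 0 < Tri t (fun _ => 1) (θ + θ') (θ + θ') := by
    rw [se_add₂, se_add₃, se_add₃]
    have e4 := H.nn _ h1K θ hθK θ hθK
    have e5 := H.nn _ h1K θ' hθK' θ' hθK'
    have e6 : Tri t (fun _ => 1) θ θ' = Tri t θ θ' (fun _ => 1) := by
      rw [s12, s23]
    have e7 : Tri t (fun _ => 1) θ' θ = Tri t θ θ' (fun _ => 1) := by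
      rw [s23, e6]
    rw [e6, e7]
    linarith
  have he0 : Tri t (fun _ => 1) (θ + θ') D = 0 := by
    rw [se_add₂, s12, s23, g1, s12, s23, g2, add_zero]
  have h5 := lor_perp H _ h1K (θ + θ') D he he0
  rcases h5.lt_or_eq with h | h
  · exact h
  · exact absurd (lor_nd H D fun w => lor_perp_ker H _ h1K (θ + θ') D he he0 h w) hne

theorem semi (H : Hdg A B t K) (δ₁ δ₂ : ℝ) (h₁ : 1 < δ₁) (h₂ : 1 < δ₂) (hA : Grt A t δ₁)
    (hB : Grt B t δ₂) (n : ℕ) (hn : 1 ≤ n) (v : ι → ℝ)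
    (hv : ((A ^ n - 1) ^ 2) *ᵥ v = 0) : (A ^ n - 1) *ᵥ v = 0 := by
  obtain ⟨M, hM⟩ : ∃ M, M = A ^ n - 1 := ⟨_, rfl⟩
  rw [← hM] at hv ⊢
  have hrow : ∀ x : ι → ℝ, x ᵥ* (M ^ 2) = 0 → x ᵥ* M = 0 := by
    intro x hx
    refine se_rowker H δ₁ δ₂ h₁ h₂ hA hB n hn x (x ᵥ* M) ?_ ?_
    · rw [hM, Matrix.vecMul_sub, Matrix.vecMul_one]
      abel
    · rw [pow_two, ← Matrix.vecMul_vecMul] at hx
      have e1 : ∀ y : ι → ℝ, y ᵥ* (A ^ n) = y ᵥ* M + y := by
        intro y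
        rw [hM, Matrix.vecMul_sub, Matrix.vecMul_one]
        abel
      rw [e1, hx, zero_add]
  have hk : LinearMap.ker (M ^ 2)ᵀ.mulVecLin = LinearMap.ker Mᵀ.mulVecLin := by
    ext x
    rw [LinearMap.mem_ker, LinearMap.mem_ker, Matrix.mulVecLin_apply, Matrix.mulVecLin_apply,
      Matrix.mulVec_transpose, Matrix.mulVec_transpose]
    refine ⟨hrow x, fun h => ?_⟩
    rw [pow_two, ← Matrix.vecMul_vecMul, h, Matrix.zero_vecMul]
  have hr : (M ^ 2).rank = M.rank := by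
    rw [← Matrix.rank_transpose (M ^ 2), ← Matrix.rank_transpose M]
    have e1 := LinearMap.finrank_range_add_finrank_ker (M ^ 2)ᵀ.mulVecLin
    have e2 := LinearMap.finrank_range_add_finrank_ker Mᵀ.mulVecLin
    rw [hk] at e1
    unfold Matrix.rank
    omega
  have hk2 : LinearMap.ker M.mulVecLin = LinearMap.ker (M ^ 2).mulVecLin := by
    refine Submodule.eq_of_le_of_finrank_eq ?_ ?_
    · intro x hx
      rw [LinearMap.mem_ker, Matrix.mulVecLin_apply] at hx ⊢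
      rw [pow_two, ← Matrix.mulVec_mulVec, hx, Matrix.mulVec_zero]
    · have e1 := LinearMap.finrank_range_add_finrank_ker (M ^ 2).mulVecLin
      have e2 := LinearMap.finrank_range_add_finrank_ker M.mulVecLin
      unfold Matrix.rank at hr
      omega
  have h : v ∈ LinearMap.ker (M ^ 2).mulVecLin := by
    rw [LinearMap.mem_ker, Matrix.mulVecLin_apply]
    exact hv
  rw [← hk2, LinearMap.mem_ker, Matrix.mulVecLin_apply] at h
  exact h

end Pool.Agent.HDG
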