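import Pool.Agent.HDG.Pf

/-!
# HDG SIM: the dynamical degree is a simple dominating eigenvalue

Extend `T` to a complex trilinear form. (1) Let `v : ι → ℂ` be such that
`‖v ᵥ* B ^ n‖ ≤ C (1 + n) ^ C r⁻¹ ^ n` with `√δ < r` (this holds for the elements of the generalized
eigenspaces of `A` (row vectors) for the eigenvalues `z` with `‖z‖ > √δ`, since `B = A⁻¹` acts there with the
eigenvalue `z⁻¹`: `v ᵥ* B ^ n = z ^ (-n) ∑_{j < m} binom(-n, j) z^(-j) v ᵥ* (A - z) ^ j`), and the same for `w`. For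
every `x : ι → ℝ`: `‖x ᵥ* B ^ n‖ ≤ C (1 + n) ^ C δ ^ n` (the eigenvalues of `B` have modulus `≤ δ`, `spec_le`
for `B`), so by invariance `|T(v,w,x)| = |T(v B ^ n,w B ^ n,x B ^ n)| ≤ C' (1 + n) ^ C' (δ / r ^ 2) ^ n → 0`:
`T(v,w,x) = 0`. The same for `v`, `conj w`.
(2) So if `V` is a subspace of `ι → ℂ` of such vectors, then `dim V ≤ 1`: otherwise there is `v ∈ V`, `v ≠ 0`,
with `T(v,1,1) = 0`, `v = a + i b`, `0 = T(v,conj v,1) = T(a,a,1) + T(b,b,1)`, but
`T(a,1,1) = T(b,1,1) = 0` and `a ≠ 0` or `b ≠ 0`: `lor_neg` (and `0` for the zero vector), contradiction.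
(3) `pf`: `θ` is an eigenvector for the eigenvalue `δ > √δ`. If `z ≠ δ` is another eigenvalue with
`‖z‖ > √δ`, `v ᵥ* A = z v`, then `V = span(θ, v)` contradicts (2). If the multiplicity of the root `δ` of the
characteristic polynomial is at least `2`, then the generalized eigenspace for `δ` has dimension at least
`2` (`LinearMap.finrank_maxGenEigenspace_eq` or similar), contradiction to (2). So the roots are
`δ ::ₘ s` with `‖z‖ ≤ √δ < δ` for `z ∈ s`.
-/

open Filter Topology Matrix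

namespace Pool.Agent.HDG

open Pool.Agent.KST

variable {ι : Type*} [Fintype ι] [DecidableEq ι] {A B : Matrix ι ι ℝ} {t : ι → ι → ι → ℝ}
  {K : Set (ι → ℝ)}

/-- Slow growth under the negative powers. -/
def Sl (B : Matrix ι ι ℝ) (δ : ℝ) (p : ι → ℝ) : Prop :=
  ∃ C : ℝ, ∀ (n : ℕ) (i : ι), |(p ᵥ* (B ^ n)) i| ≤ C * (1 + n) * (δ⁻¹) ^ n

theorem sl_add {δ : ℝ} {p q : ι → ℝ} (hp : Sl B δ p) (hq : Sl B δ q) : Sl B δ (p + q) := by
  obtain ⟨C, hC⟩ := hp
  obtain ⟨D, hD⟩ := hq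
  refine ⟨C + D, fun n i => ?_⟩
  rw [add_vecMul, Pi.add_apply]
  have := abs_add_le ((p ᵥ* (B ^ n)) i) ((q ᵥ* (B ^ n)) i)
  have h1 := hC n i
  have h2 := hD n i
  linarith

theorem sl_smul {δ : ℝ} {p : ι → ℝ} (hp : Sl B δ p) (r : ℝ) : Sl B δ (r • p) := by
  obtain ⟨C, hC⟩ := hp
  refine ⟨|r| * C, fun n i => ?_⟩
  rw [smul_vecMul, Pi.smul_apply, smul_eq_mul, abs_mul]
  have h1 := mul_le_mul_of_nonneg_left (hC n i) (abs_nonneg r)
  linarith

theorem sim_inv (H : Hdg A B t K) (n : ℕ) (u v w : ι → ℝ) :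
    Tri t (u ᵥ* (A ^ n)) (v ᵥ* (A ^ n)) (w ᵥ* (A ^ n)) = Tri t u v w := by
  induction n with
  | zero => rw [pow_zero, vecMul_one, vecMul_one, vecMul_one]
  | succ n ih =>
    rw [pow_succ, ← vecMul_vecMul, ← vecMul_vecMul, ← vecMul_vecMul, H.inv, ih]

/-- Slow vectors are isotropic. -/
theorem sl_iso (H : Hdg A B t K) (δ : ℝ) (hδ : 1 < δ) (hB : Grt B t δ) {p q : ι → ℝ}
    (hp : Sl B δ p) (hq : Sl B δ q) : Tri t p q (fun _ => 1) = 0 := by
  have hδ0 : 0 < δ := by linarith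
  obtain ⟨r, hr1, hr2⟩ : ∃ r, δ < r ∧ r < δ ^ 2 := exists_between (by nlinarith)
  have hr0 : 0 < r := by linarith
  obtain ⟨C, hC⟩ := hp
  obtain ⟨D, hD⟩ := hq
  obtain ⟨E, hE0, hE⟩ := bnd_entries (B.map (algebraMap ℝ ℂ)) r hr0
    (fun z hz => (spec_le H.symm δ hδ0 hB z hz).trans_lt hr1)
  obtain ⟨Ct, hCt, hbt⟩ := tri_bound t
  set ρ := r * δ⁻¹ ^ 2 with hρ
  have hρ0 : 0 < ρ := by positivity
  have hρ1 : ρ < 1 := by
    rw [hρ, inv_pow, mul_inv_lt_iff₀ (by positivity), one_mul]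
    exact hr2
  set F := Ct * C * D * (Fintype.card ι * E) with hF
  have h1 : ∀ n : ℕ, |Tri t p q (fun _ => 1)| ≤ F * ((1 + n) ^ 2 * ρ ^ n) := by
    intro n
    rw [← sim_inv H.symm n]
    have h3 : ∀ i, |((fun _ => (1 : ℝ)) ᵥ* (B ^ n)) i| ≤ Fintype.card ι * (E * r ^ n) := by
      intro i
      rw [vecMul, dotProduct]
      refine (Finset.abs_sum_le_sum_abs _ _).trans ?_
      have h2 : ∀ j ∈ (Finset.univ : Finset ι), |1 * (B ^ n) j i| ≤ E * r ^ n := by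
        intro j _
        have := hE n j i
        rw [bnd_map_pow, Complex.norm_real, Real.norm_eq_abs] at this
        rwa [one_mul]
      refine (Finset.sum_le_card_nsmul _ _ _ h2).trans (le_of_eq ?_)
      rw [Finset.card_univ, nsmul_eq_mul]
    refine (hbt _ _ _ _ _ _ (hC n) (hD n) h3).trans (le_of_eq ?_)
    rw [hF, hρ, mul_pow, ← pow_mul, mul_comm 2 n, pow_mul]
    ring
  have h2 : Tendsto (fun n : ℕ => F * ((1 + (n : ℝ)) ^ 2 * ρ ^ n)) atTop (𝓝 0) := by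
    have e1 := tendsto_pow_const_mul_const_pow_of_abs_lt_one 2
      (show |ρ| < 1 by rw [abs_of_pos hρ0]; exact hρ1)
    have e2 := tendsto_pow_const_mul_const_pow_of_abs_lt_one 1
      (show |ρ| < 1 by rw [abs_of_pos hρ0]; exact hρ1)
    have e3 := tendsto_pow_const_mul_const_pow_of_abs_lt_one 0
      (show |ρ| < 1 by rw [abs_of_pos hρ0]; exact hρ1)
    have e4 := ((e1.add (e2.const_mul 2)).add e3).const_mul F
    rw [mul_zero, add_zero, add_zero, mul_zero] at e4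
    refine e4.congr fun n => ?_
    ring
  have h3 : |Tri t p q (fun _ => 1)| ≤ 0 := ge_of_tendsto' h2 h1
  exact abs_nonpos_iff.1 h3

/-- The slow vectors are the multiples of the nef eigenvector. -/
theorem sl_line (H : Hdg A B t K) (δ : ℝ) (hδ : 1 < δ) (hB : Grt B t δ) {θ p : ι → ℝ}
    (hθ : Sl B δ θ) (hθ1 : Tri t θ (fun _ => 1) (fun _ => 1) = 1) (hp : Sl B δ p) :
    ∃ c : ℝ, p = c • θ := by
  set c := Tri t p (fun _ => 1) (fun _ => 1) with hc
  refine ⟨c, ?_⟩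
  set a := p + (-c) • θ with ha
  have hsa : Sl B δ a := sl_add hp (sl_smul hθ _)
  have h1 : Tri t a (fun _ => 1) (fun _ => 1) = 0 := by
    rw [ha, tri_add₁, tri_smul₁, hθ1, ← hc]
    ring
  have h2 : Tri t a a (fun _ => 1) = 0 := sl_iso H δ hδ hB hsa hsa
  have h3 : a = 0 := by
    by_contra hne
    have h4 : Tri t (fun _ => 1) (fun _ => 1) a = 0 := by rw [bnd_rot H]; exact h1
    have h5 := lor_neg H a h4 hne
    have h6 : Tri t (fun _ => 1) a a = Tri t a a (fun _ => 1) := by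
      rw [tri_swap₁ t H.s₁ (fun _ => 1) a a, tri_swap₂ t H.s₂ a (fun _ => 1) a]
    rw [h6, h2] at h5
    exact lt_irrefl _ h5
  have h7 : p = c • θ := by
    rw [ha] at h3
    have : p = -((-c) • θ) := eq_neg_of_add_eq_zero_left h3
    rw [this, neg_smul, neg_neg]
  exact h7

/-- complex version -/
theorem sl_complex (H : Hdg A B t K) (δ : ℝ) (hδ : 1 < δ) (hB : Grt B t δ) {θ : ι → ℝ}
    (hθ : Sl B δ θ) (hθ1 : Tri t θ (fun _ => 1) (fun _ => 1) = 1) (v : ι → ℂ) (C : ℝ)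
    (hv : ∀ (n : ℕ) (i : ι), ‖(v ᵥ* ((B.map (algebraMap ℝ ℂ)) ^ n)) i‖ ≤
      C * (1 + n) * (δ⁻¹) ^ n) :
    ∃ c : ℂ, v = c • fun i => (θ i : ℂ) := by
  have hre : ∀ (n : ℕ) (i : ι), ((fun j => (v j).re) ᵥ* (B ^ n)) i =
      ((v ᵥ* ((B.map (algebraMap ℝ ℂ)) ^ n)) i).re := by
    intro n i
    simp only [vecMul, dotProduct, Complex.re_sum]
    refine Finset.sum_congr rfl fun j _ => ?_
    rw [bnd_map_pow, Complex.re_mul_ofReal]
  have him : ∀ (n : ℕ) (i : ι), ((fun j => (v j).im) ᵥ* (B ^ n)) i =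
      ((v ᵥ* ((B.map (algebraMap ℝ ℂ)) ^ n)) i).im := by
    intro n i
    simp only [vecMul, dotProduct, Complex.im_sum]
    refine Finset.sum_congr rfl fun j _ => ?_
    rw [bnd_map_pow, Complex.im_mul_ofReal]
  have h1 : Sl B δ (fun j => (v j).re) := ⟨C, fun n i => by
    rw [hre]; exact (Complex.abs_re_le_norm _).trans (hv n i)⟩
  have h2 : Sl B δ (fun j => (v j).im) := ⟨C, fun n i => by
    rw [him]; exact (Complex.abs_im_le_norm _).trans (hv n i)⟩
  obtain ⟨c1, hc1⟩ := sl_line H δ hδ hB hθ hθ1 h1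
  obtain ⟨c2, hc2⟩ := sl_line H δ hδ hB hθ hθ1 h2
  refine ⟨⟨c1, c2⟩, funext fun i => ?_⟩
  have e1 := congrFun hc1 i
  have e2 := congrFun hc2 i
  rw [Pi.smul_apply, smul_eq_mul] at e1 e2
  rw [Pi.smul_apply, smul_eq_mul]
  apply Complex.ext
  · rw [Complex.re_mul_ofReal]; exact e1
  · rw [Complex.im_mul_ofReal]; exact e2

theorem sim (H : Hdg A B t K) (δ : ℝ) (hδ : 1 < δ) (hA : Grt A t δ) (hB : Grt B t δ) :
    ∃ s : Multiset ℂ, (A.map (algebraMap ℝ ℂ)).charpoly.roots = (δ : ℂ) ::ₘ s ∧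
      ∀ z ∈ s, ‖z‖ < δ := by
  have hδ0 : 0 < δ := by linarith
  obtain ⟨θ, hθK, hθA, hθ1⟩ := pf H δ hδ hA
  set M := A.map (algebraMap ℝ ℂ) with hM
  set N := B.map (algebraMap ℝ ℂ) with hN
  have hMN : M * N = 1 := by
    rw [hM, hN, ← Matrix.map_mul, H.ab]
    exact Matrix.map_one _ (map_zero _) (map_one _)
  set Θ : ι → ℂ := fun i => (θ i : ℂ) with hΘ
  have hθ0 : θ ≠ 0 := by
    intro h
    have h1 : Tri t (0 : ι → ℝ) (fun _ => 1) (fun _ => 1) = 0 := by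
      unfold Tri; simp
    rw [h, h1] at hθ1
    exact zero_ne_one hθ1
  have hΘ0 : Θ ≠ 0 := by
    intro h
    exact hθ0 (funext fun i => by
      have h1 := congrFun h i
      rw [hΘ] at h1
      exact Complex.ofReal_eq_zero.1 h1)
  have hΘM : Θ ᵥ* M = (δ : ℂ) • Θ := by
    funext i
    have h1 := congrFun hθA i
    rw [Pi.smul_apply, smul_eq_mul] at h1 ⊢
    rw [hΘ]
    simp only
    rw [← Complex.ofReal_mul, ← h1]
    simp only [vecMul, dotProduct, Complex.ofReal_sum, Complex.ofReal_mul]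
    rfl
  have hback : ∀ (v : ι → ℂ) (w : ι → ℂ), v ᵥ* M = w → v = w ᵥ* N := by
    intro v w h
    rw [← h, vecMul_vecMul, hMN, vecMul_one]
  have hδC : (δ : ℂ) ≠ 0 := by exact_mod_cast hδ0.ne'
  have hΘN : Θ ᵥ* N = (δ : ℂ)⁻¹ • Θ := by
    have h1 := hback _ _ hΘM
    rw [smul_vecMul] at h1
    have h2 : (δ : ℂ)⁻¹ • ((δ : ℂ) • (Θ ᵥ* N)) = Θ ᵥ* N := by
      rw [smul_smul, inv_mul_cancel₀ hδC, one_smul]
    rw [← h1] at h2
    exact h2.symm
  have hΘNn : ∀ n : ℕ, Θ ᵥ* (N ^ n) = ((δ : ℂ)⁻¹) ^ n • Θ := fun n => bnd_eig_pow hΘN n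
  have hθSl : Sl B δ θ := by
    refine ⟨∑ i, |θ i|, fun n i => ?_⟩
    have h1 := congrFun (hΘNn n) i
    have h2 : (((θ ᵥ* (B ^ n)) i : ℝ) : ℂ) = (Θ ᵥ* (N ^ n)) i := by
      simp only [vecMul, dotProduct, Complex.ofReal_sum, Complex.ofReal_mul]
      refine Finset.sum_congr rfl fun j _ => ?_
      rw [hN, bnd_map_pow]
    have h3 : |(θ ᵥ* (B ^ n)) i| = ‖(Θ ᵥ* (N ^ n)) i‖ := by
      rw [← h2, Complex.norm_real, Real.norm_eq_abs]
    rw [h3, h1, Pi.smul_apply, smul_eq_mul, norm_mul, norm_pow, norm_inv, Complex.norm_real,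
      Real.norm_eq_abs, abs_of_pos hδ0]
    have h4 : ‖Θ i‖ ≤ ∑ i, |θ i| := by
      rw [hΘ]
      simp only
      rw [Complex.norm_real, Real.norm_eq_abs]
      exact Finset.single_le_sum (f := fun i => |θ i|) (fun i _ => abs_nonneg _)
        (Finset.mem_univ i)
    have h5 : 0 ≤ δ⁻¹ ^ n := by positivity
    have h6 : 0 ≤ ∑ i, |θ i| := Finset.sum_nonneg fun i _ => abs_nonneg _
    have h7 : (0 : ℝ) ≤ n := Nat.cast_nonneg n
    calc δ⁻¹ ^ n * ‖Θ i‖ ≤ δ⁻¹ ^ n * ∑ i, |θ i| := mul_le_mul_of_nonneg_left h4 h5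
      _ ≤ (∑ i, |θ i|) * (1 + n) * δ⁻¹ ^ n := by nlinarith [mul_nonneg (mul_nonneg h6 h7) h5]
  -- key: v M = z v + c Θ, |z| = δ implies v in the line
  have key : ∀ (v : ι → ℂ) (z c : ℂ), ‖z‖ = δ → (c = 0 ∨ z = δ) → v ᵥ* M = z • v + c • Θ →
      ∃ c : ℂ, v = c • Θ := by
    intro v z c hz hcz hv
    have hz0 : z ≠ 0 := by
      intro h
      rw [h, norm_zero] at hz
      linarith
    have h1 : v ᵥ* N = z⁻¹ • v - (z⁻¹ * (δ : ℂ)⁻¹ * c) • Θ := by
      have h2 := hback _ _ hv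
      rw [add_vecMul, smul_vecMul, smul_vecMul, hΘN] at h2
      have h3 : z • (v ᵥ* N) = v - (c * (δ : ℂ)⁻¹) • Θ := by
        rw [eq_sub_iff_add_eq, ← smul_smul]
        exact h2.symm
      have h4 : v ᵥ* N = z⁻¹ • (z • (v ᵥ* N)) := by
        rw [smul_smul, inv_mul_cancel₀ hz0, one_smul]
      rw [h4, h3, smul_sub, smul_smul]
      congr 2
      ring
    have h2 : ∀ n : ℕ, v ᵥ* (N ^ n) = z⁻¹ ^ n • v -
        (n * (z⁻¹ ^ n * (δ : ℂ)⁻¹ * c)) • Θ := by
      intro n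
      induction n with
      | zero => simp
      | succ n ih =>
        rw [pow_succ, ← vecMul_vecMul, ih, sub_vecMul, smul_vecMul, smul_vecMul, h1, hΘN,
          smul_sub, smul_smul, smul_smul, smul_smul]
        rcases hcz with h | h
        · rw [h]; simp [pow_succ]
        · rw [h]
          push_cast
          rw [sub_sub, ← add_smul]
          congr 2
          ring
    refine sl_complex H δ hδ hB hθSl hθ1 v (∑ i, ‖v i‖ + ‖c‖ * ∑ i, |θ i|) fun n i => ?_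
    rw [← hN, h2 n, Pi.sub_apply, Pi.smul_apply, Pi.smul_apply, smul_eq_mul, smul_eq_mul]
    have h5 : 0 ≤ δ⁻¹ ^ n := by positivity
    have h7 : (0 : ℝ) ≤ n := Nat.cast_nonneg n
    have h8 : ‖v i‖ ≤ ∑ i, ‖v i‖ := Finset.single_le_sum (f := fun i => ‖v i‖)
      (fun i _ => norm_nonneg _) (Finset.mem_univ i)
    have h9 : ‖Θ i‖ ≤ ∑ i, |θ i| := by
      rw [hΘ]
      simp only
      rw [Complex.norm_real, Real.norm_eq_abs]
      exact Finset.single_le_sum (f := fun i => |θ i|) (fun i _ => abs_nonneg _)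
        (Finset.mem_univ i)
    have h10 : δ⁻¹ ≤ 1 := inv_le_one_of_one_le₀ hδ.le
    refine (norm_sub_le _ _).trans ?_
    rw [norm_mul, norm_mul, norm_mul, norm_mul, norm_mul, norm_pow, norm_inv, norm_inv, hz,
      Complex.norm_real, Real.norm_eq_abs, abs_of_pos hδ0, Complex.norm_natCast]
    have a1 : δ⁻¹ ^ n * ‖v i‖ ≤ δ⁻¹ ^ n * ∑ i, ‖v i‖ := mul_le_mul_of_nonneg_left h8 h5
    have a2 : n * (δ⁻¹ ^ n * δ⁻¹ * ‖c‖) * ‖Θ i‖ ≤ n * (δ⁻¹ ^ n * 1 * ‖c‖) * ∑ i, |θ i| := by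
      gcongr
    have a3 : 0 ≤ ∑ i, ‖v i‖ := Finset.sum_nonneg fun i _ => norm_nonneg _
    have a4 : 0 ≤ ‖c‖ * ∑ i, |θ i| :=
      mul_nonneg (norm_nonneg _) (Finset.sum_nonneg fun i _ => abs_nonneg _)
    have a5 := mul_nonneg (mul_nonneg a3 h7) h5
    have a6 := mul_nonneg a4 h5
    nlinarith
  -- δ is a root
  have hroot : (δ : ℂ) ∈ M.charpoly.roots := by
    rw [Polynomial.mem_roots M.charpoly_monic.ne_zero, Polynomial.IsRoot.def,
      Matrix.eval_charpoly]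
    refine exists_vecMul_eq_zero_iff.1 ⟨Θ, hΘ0, ?_⟩
    rw [vecMul_sub, hΘM, sub_eq_zero]
    funext i
    rw [scalar_apply, vecMul_diagonal, Pi.smul_apply, smul_eq_mul, mul_comm]
  -- roots of modulus δ
  have huniq : ∀ z ∈ M.charpoly.roots, ‖z‖ = δ → z = δ := by
    intro z hz hzn
    obtain ⟨v, hv0, hv⟩ := bnd_eig hz
    obtain ⟨c, hc⟩ := key v z 0 hzn (Or.inl rfl) (by rw [hv, zero_smul, add_zero])
    have h1 : (δ : ℂ) • v = z • v := by
      rw [← hv]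
      nth_rewrite 1 [hc]
      rw [smul_comm, ← hΘM, ← smul_vecMul, ← hc]
    obtain ⟨i, hi⟩ : ∃ i, v i ≠ 0 := by
      by_contra h
      push Not at h
      exact hv0 (funext h)
    have h2 := congrFun h1 i
    rw [Pi.smul_apply, Pi.smul_apply, smul_eq_mul, smul_eq_mul] at h2
    exact (mul_right_cancel₀ hi h2).symm
  -- multiplicity one
  have hmult : M.charpoly.roots.count (δ : ℂ) ≤ 1 := by
    by_contra hcon
    push Not at hcon
    rw [Polynomial.count_roots] at hcon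
    set φ : Module.End ℂ (ι → ℂ) := Matrix.toLin' Mᵀ with hφ
    have hφv : ∀ v, φ v = v ᵥ* M := fun v => by
      rw [hφ, Matrix.toLin'_apply, mulVec_transpose]
    have h1 := LinearMap.finrank_maxGenEigenspace_eq φ (δ : ℂ)
    have h2 : φ.charpoly = M.charpoly := by
      rw [hφ, Matrix.charpoly_toLin', Matrix.charpoly_transpose]
    rw [h2] at h1
    have h3 : ∃ v ∈ φ.maxGenEigenspace (δ : ℂ), v ∉ Submodule.span ℂ {Θ} := by
      by_contra h
      push Not at h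
      have h4 : Module.finrank ℂ (φ.maxGenEigenspace (δ : ℂ)) ≤
          Module.finrank ℂ (Submodule.span ℂ {Θ}) := Submodule.finrank_mono h
      have h5 := finrank_span_singleton (K := ℂ) hΘ0
      omega
    obtain ⟨v, hv1, hv2⟩ := h3
    rw [Module.End.mem_maxGenEigenspace] at hv1
    obtain ⟨k, hk⟩ := hv1
    have hex : ∃ k : ℕ, ((φ - (δ : ℂ) • (1 : Module.End ℂ (ι → ℂ))) ^ k) v ∈
        Submodule.span ℂ {Θ} := ⟨k, by rw [hk]; exact Submodule.zero_mem _⟩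
    classical
    set j := Nat.find hex with hj
    have hj1 := Nat.find_spec hex
    have hj0 : j ≠ 0 := by
      intro h
      rw [← hj, h, pow_zero] at hj1
      exact hv2 hj1
    obtain ⟨l, hl⟩ := Nat.exists_eq_succ_of_ne_zero hj0
    have hl1 := Nat.find_min hex (show l < Nat.find hex by rw [← hj, hl]; exact Nat.lt_succ_self l)
    rw [← hj, hl, Nat.succ_eq_add_one, pow_succ', Module.End.mul_apply] at hj1
    set v' := ((φ - (δ : ℂ) • (1 : Module.End ℂ (ι → ℂ))) ^ l) v with hv'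
    obtain ⟨c, hc⟩ := Submodule.mem_span_singleton.1 hj1
    rw [LinearMap.sub_apply, LinearMap.smul_apply, Module.End.one_apply, hφv] at hc
    obtain ⟨c', hc'⟩ := key v' δ c
      (by rw [Complex.norm_real, Real.norm_eq_abs, abs_of_pos hδ0]) (Or.inr rfl)
      (by rw [hc]; abel)
    exact hl1 (Submodule.mem_span_singleton.2 ⟨c', hc'.symm⟩)
  obtain ⟨s, hs⟩ := Multiset.exists_cons_of_mem hroot
  refine ⟨s, hs, fun z hz => ?_⟩
  have hzr : z ∈ M.charpoly.roots := by rw [hs]; exact Multiset.mem_cons_of_mem hz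
  refine lt_of_le_of_ne (spec_le H δ hδ0 hA z hzr) fun h => ?_
  have h1 := huniq z hzr h
  rw [h1] at hz
  rw [hs, Multiset.count_cons_self] at hmult
  have h2 := Multiset.one_le_count_iff_mem.2 hz
  omega

end Pool.Agent.HDG
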