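import Pool.Agent.HDG.Thr
import Pool.Agent.HDG.Cone
import Pool.Agent.HDG.Nnd
import Pool.Agent.HDG.Dyd
import Pool.Agent.HDG.Sim
import Pool.Agent.HDG.Semi
import Pool.Agent.KST.Main3

/-!
# HDG: the Kawaguchi-Silverman conjecture for automorphisms of threefolds

The case of equal dynamical degrees.
-/

set_option autoImplicit false

open MvPolynomial Filter Topology Matrix
open scoped LinearAlgebra.Projectivization

namespace Pool.Agent.HDG

open Pool.Agent.Helper90.KSC Pool.Agent.Helper63.SAND Pool.Agent.Helper63.WH Pool.Agent.PW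
  Pool.Agent.LLX Pool.Agent.LLC Pool.Agent.KST

section lin

variable {ι : Type*} [Fintype ι] [DecidableEq ι]

/-- The real matrix with the same entries. -/
abbrev rm (A : Matrix ι ι ℤ) : Matrix ι ι ℝ := A.map (Int.cast : ℤ → ℝ)

theorem rm_pow (A : Matrix ι ι ℤ) (n : ℕ) : (rm A) ^ n = rm (A ^ n) :=
  ((Int.castRingHom ℝ).mapMatrix.map_pow A n).symm

theorem om_vec (A : Matrix ι ι ℤ) (n : ℕ) : om A n = (fun _ => (1 : ℝ)) ᵥ* (rm A) ^ n := by
  rw [rm_pow]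
  funext i
  simp only [om, Matrix.vecMul, dotProduct, Matrix.map_apply, one_mul]

theorem rm_roots (A : Matrix ι ι ℤ) :
    ((rm A).map (algebraMap ℝ ℂ)).charpoly = A.charpoly.map (Int.castRingHom ℂ) := by
  have h : (rm A).map (algebraMap ℝ ℂ) = A.map (Int.castRingHom ℂ) := by
    ext i j
    simp
  rw [h, Matrix.charpoly_map]

theorem int_semi (A : Matrix ι ι ℤ) (n : ℕ)
    (h : ∀ v : ι → ℝ, (((rm A) ^ n - 1) ^ 2) *ᵥ v = 0 → ((rm A) ^ n - 1) *ᵥ v = 0)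
    (v : ι → ℤ) (hv : ((A ^ n - 1) ^ 2).mulVec v = 0) : (A ^ n - 1).mulVec v = 0 := by
  have e1 : (rm A) ^ n - 1 = rm (A ^ n - 1) := by
    rw [rm_pow]
    ext i j
    simp [rm, Matrix.one_apply, Matrix.sub_apply]
  have e2 : ∀ (M : Matrix ι ι ℤ) (w : ι → ℤ), rm M *ᵥ (fun i => (w i : ℝ)) =
      fun i => ((M.mulVec w i : ℤ) : ℝ) := by
    intro M w
    funext i
    simp [Matrix.mulVec, dotProduct]
  have h1 := h (fun i => (v i : ℝ)) (by
    rw [e1, rm_pow, e2, hv]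
    funext i
    simp)
  rw [e1, e2] at h1
  funext i
  have := congrFun h1 i
  simpa using this

end lin

variable {E : Type*} [Field E] [CharZero E] [Algebra.IsAlgebraic ℚ E] [IsAlgClosed E]
  {ι : Type} [Fintype ι] [DecidableEq ι] {N : ι → ℕ}

omit [Algebra.IsAlgebraic ℚ E] in
theorem grt_of (X : Set (PPt E N)) (hXi : Irred X) (f : PPt E N → PPt E N)
    (hf : Set.MapsTo f X X) (hlf : LocallyByForms X f) (A : Matrix ι ι ℤ)
    (t : ι → ι → ι → ℝ) (hcub : ∀ n, Cub (hm (Lf X f n)) (pt A t n)) (δ : ℝ)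
    (hδ : DynDeg3 X f δ) : Grt (rm A) t δ := by
  obtain ⟨q, hq, hlim⟩ := hδ
  refine hlim.congr' ?_
  filter_upwards [eventually_ge_atTop 1] with n hn
  rw [dyd X hXi f hf hlf A t n hn (hcub n) (q n) (hq n), ← om_vec, bst_om_zero]

omit [Algebra.IsAlgebraic ℚ E] [IsAlgClosed E] in
theorem gr3_of (X : Set (PPt E N)) (f : PPt E N → PPt E N) (A : Matrix ι ι ℤ)
    (t : ι → ι → ι → ℝ) (hcub : ∀ n, Cub (hm (Lf X f n)) (pt A t n)) (δ : ℝ)
    (hδ : Grt (rm A) t δ) (hnn : ∀ n : ℕ, 0 ≤ Tri t (om A n) (om A 0) (om A 0)) :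
    Gr3 X f A δ := by
  intro t' hcub'
  have ht : t = t' := t_unique X f f A A t t' (hcub 0) (hcub' 0)
  subst ht
  refine ⟨1, zero_le_one, fun ρ hρ hρδ => ?_⟩
  have h1 : ∀ᶠ n : ℕ in atTop, ρ < (Tri t ((fun _ => 1) ᵥ* (rm A ^ n)) (fun _ => 1) (fun _ => 1)) ^
    ((1 : ℝ) / n) := (tendsto_order.1 hδ).1 ρ hρδ
  filter_upwards [h1, eventually_gt_atTop 0] with n hn hn0
  rw [← om_vec, ← bst_om_zero A] at hn
  have hn0' : (0 : ℝ) < n := by exact_mod_cast hn0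
  have h2 := Real.rpow_le_rpow hρ.le hn.le hn0'.le
  rw [← Real.rpow_mul (hnn n), one_div_mul_cancel hn0'.ne', Real.rpow_one,
    Real.rpow_natCast] at h2
  linarith [hnn n]

/-- The Kawaguchi-Silverman conjecture for automorphisms of threefolds. -/
theorem main4 (X : Set (PPt E N)) (hX : ZClosed X) (hXi : Irred X) (e₀ : ℕ) (he₀ : 1 ≤ e₀)
    (hdeg : HasDegree X 3 e₀) (hsm : SmoothDim X 3) (hni : NumInd X) (f g : PPt E N → PPt E N)
    (hf : Set.MapsTo f X X) (hg : Set.MapsTo g X X) (hfg : ∀ x ∈ X, f (g x) = x)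
    (hgf : ∀ x ∈ X, g (f x) = x) (hlf : LocallyByForms X f) (hlg : LocallyByForms X g)
    (A B : Matrix ι ι ℤ) (hAB : A * B = 1) (hA : LinActsBy X f A)
    (r₀ m₁ : ℕ) (hr₀ : 1 ≤ r₀)
    (Gc : (Fin 4 → SIx N) × (Fin m₁ → SIx N) → MvPolynomial (SIx N) E)
    (hGc : AntiCan (fun x : X => seg (x : PPt E N)) 3 r₀ m₁ Gc)
    (hG0 : ∃ I, ∃ x ∈ X, eval (seg x) (Gc I) ≠ 0) (δ : ℝ) (hδ : 1 < δ)
    (hδf : DynDeg3 X f δ) (hδg : DynDeg3 X g δ) (x : PPt E N) (hx : x ∈ X)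
    (hd : DenseOrbit X f x) : AbsArithDegree f x δ := by
  classical
  have hB : LinActsBy X g B := lin_inv X f g hf hg hfg hgf A B hAB hA
  have hBA : B * A = 1 := mul_eq_one_comm.1 hAB
  obtain ⟨t, hs₁, hs₂, hinv, h1t, hcub⟩ := trib X hXi e₀ hdeg f g hf hg hfg hgf hlf hlg A hA
  obtain ⟨t', hs₁', hs₂', hinv', h1t', hcub'⟩ :=
    trib X hXi e₀ hdeg g f hg hf hgf hfg hlg hlf B hB
  have ht : t = t' := t_unique X f g A B t t' (hcub 0) (hcub' 0)
  subst ht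
  haveI : Nonempty X := hXi.1.to_subtype
  haveI : Infinite E := CharZero.infinite E
  have hirm := fun n => irm_Lf X f hf hlf X (Set.Subset.refl X) hXi n
  have hev := fun n => evp_Lf X f hf hlf hXi e₀ hdeg n
  have hnn : ∀ (n : ℕ) (a b c : Fin (n + 1) × ι → ℕ),
      0 ≤ Tri t (cls A (rv a)) (cls A (rv b)) (cls A (rv c)) := by
    intro n a b c
    have h := tri_nn (Lf X f n) (hirm n) (pt A t n) (hcub n) a b c
    rwa [tri_cls] at h
  have hkt : ∀ (n : ℕ) (a b c : Fin (n + 1) × ι → ℕ),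
      Tri t (cls A (rv a)) (cls A (rv a)) (cls A (rv c)) *
        Tri t (cls A (rv b)) (cls A (rv b)) (cls A (rv c)) ≤
      Tri t (cls A (rv a)) (cls A (rv b)) (cls A (rv c)) ^ 2 := by
    intro n a b c
    have h := thr (Lf X f n) (hirm n) (pt A t n) (hcub n) (hev n) a b c
    rwa [tri_cls, tri_cls, tri_cls] at h
  have hpos : 0 < Tri t (fun _ => 1) (fun _ => 1) (fun _ => 1) := by
    rw [h1t]
    exact_mod_cast he₀
  have H : Hdg (rm A) (rm B) t (closure (Cn A B)) :=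
    cone A B hAB t hs₁ hs₂ hinv hnn hkt hpos fun v hv => nnd X f A t (hcub 0) (hev 0) hni v hv
  have hgA : Grt (rm A) t δ := grt_of X hXi f hf hlf A t hcub δ hδf
  have hgB : Grt (rm B) t δ := grt_of X hXi g hg hlg B t hcub' δ hδg
  obtain ⟨s, hs, hsδ⟩ := sim H δ hδ hgA hgB
  obtain ⟨s', hs', hsδ'⟩ := sim H.symm δ hδ hgB hgA
  rw [rm_roots] at hs hs'
  have hG : Gr3 X f A δ := gr3_of X f A t hcub δ hgA fun n => geo_nonneg X hXi f hf hlf A t hcub n 0 0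
  have hG' : Gr3 X g B δ :=
    gr3_of X g B t hcub' δ hgB fun n => geo_nonneg X hXi g hg hlg B t hcub' n 0 0
  have hAr : ∀ z ∈ (A.charpoly.map (Int.castRingHom ℂ)).roots, ‖z‖ ≤ δ := by
    intro z hz
    rw [hs] at hz
    rcases Multiset.mem_cons.1 hz with rfl | hz
    · rw [Complex.norm_real, Real.norm_eq_abs, abs_of_pos (by linarith)]
    · exact (hsδ z hz).le
  obtain ⟨z, -, -, hz, hzδ⟩ := main3 X hX hXi e₀ he₀ hdeg hsm f g hf hg hfg hgf hlf hlg A B hAB hA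
    (fun n hn v hv => int_semi A n (fun v hv => semi H δ δ hδ hδ hgA hgB n hn v hv) v hv)
    r₀ m₁ hr₀ Gc hGc hG0 δ δ hδ hAr hG' (Or.inr ⟨rfl, ⟨s, hs, hsδ⟩, ⟨s', hs', hsδ'⟩, hG⟩) x hx hd
  rw [hzδ rfl] at hz
  exact hz

end Pool.Agent.HDG
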