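import Pool.Agent.KST.Nzx

/-!
# HDG PENCIL: existence of pencils

`rm_ne` gives `P`; `nzx` for `U = Rm L h₀`, `ψ = subtype`, gives `S`, `c₁`. Add `⊥` to `S` (it is not `⊤`
as `Rm L h₀ ≠ 0`). As `E` is infinite there is `u` outside of all the subspaces
(`Subspace.biUnion_ne_univ_of_top_notMem`, see `geo_pencil` in KST/Geo.lean).
-/

namespace Pool.Agent.HDG

open Pool.Agent.KST

variable {E 𝒜 B : Type*} [Field E] [CommRing 𝒜] [Algebra E 𝒜] [Fintype B] [DecidableEq B]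

theorem pencil [Infinite E] [Nontrivial 𝒜] (L : B → Submodule E 𝒜) (hL : Irm L) (h₀ : B → ℕ) :
    ∃ (P P' : 𝒜) (c₁ : B → ℕ), P ∈ Rm L h₀ ∧ P' ∈ Rm L h₀ ∧ P ≠ 0 ∧ P' ≠ 0 ∧
      NZ L h₀ P P' c₁ := by
  classical
  obtain ⟨P, hP, hP0⟩ := rm_ne L hL h₀
  have hfin : Module.Finite E (Rm L h₀) := Module.Finite.iff_fg.2 (rm_fg L hL.fg h₀)
  obtain ⟨S, c₁, hS, hnz⟩ := nzx L hL h₀ P hP (Rm L h₀).subtype (Submodule.range_subtype _)
  have hbot : (⊥ : Submodule E (Rm L h₀)) ≠ ⊤ := by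
    intro h
    have h1 : (⟨P, hP⟩ : Rm L h₀) ∈ (⊥ : Submodule E (Rm L h₀)) := by
      rw [h]
      exact Submodule.mem_top
    rw [Submodule.mem_bot] at h1
    exact hP0 (congrArg Subtype.val h1)
  have hcov : ⋃ T ∈ insert ⊥ S, (T : Set (Rm L h₀)) ≠ Set.univ := by
    apply Subspace.biUnion_ne_univ_of_top_notMem
    intro htop
    rcases Finset.mem_insert.1 htop with h | h
    · exact hbot h.symm
    · exact hS _ h rfl
  obtain ⟨u, hu⟩ := (Set.ne_univ_iff_exists_notMem _).1 hcov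
  have hu' : ∀ T ∈ insert ⊥ S, u ∉ T := by
    intro T hT huT
    exact hu (Set.mem_iUnion₂.2 ⟨T, hT, huT⟩)
  refine ⟨P, u.1, c₁, hP, u.2, hP0, ?_, hnz u fun T hT => hu' T (Finset.mem_insert_of_mem hT)⟩
  intro h
  apply hu' ⊥ (Finset.mem_insert_self _ _)
  rw [Submodule.mem_bot]
  exact Subtype.ext h

end Pool.Agent.HDG
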