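import Pool.Agent.HDG.Bnd
import Pool.Agent.KST.Exa

/-!
# HDG PF: the nef eigenvector

Let `T n = T(1 ᵥ* A ^ n,1,1) ≥ 0`, `S N = ∑_{n < N} δ⁻¹ ^ n • (1 ᵥ* A ^ n) ∈ K`,
`s N = T(S N,1,1) = ∑_{n < N} δ ^ (-n) T n`, `s N ≥ c N → ∞` (`spec_ge`), `s (N + 1) - s N = δ ^ (-N) T N`. For
every `ε > 0` there are arbitrarily large `N` with `s (N + 1) - s N ≤ ε s N` and `1 ≤ ε s N`: otherwise
`s (N + 1) ≥ (1 + ε) s N` for all large `N`, `s N ≥ c' (1 + ε) ^ N`, but `T n ≤ C (δ (1 + η)) ^ n` for every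
`η > 0` (`Grt`), so `s N ≤ C N (1 + η) ^ N`, contradiction for `η < ε / 2`. So there is a sequence `N k → ∞` with
`(δ ^ (-N k) T (N k) + 1) / s (N k) → 0`. `θ k = (s (N k))⁻¹ • S (N k) ∈ K`, `T(θ k,1,1) = 1`; bounded
(`bnd_K`), so a subsequence converges to `θ ∈ K` with `T(θ,1,1) = 1`.
`S N ᵥ* A = δ • (S N - 1 + δ⁻¹ ^ N • (1 ᵥ* A ^ N))`, so
`θ k ᵥ* A - δ • θ k = (s (N k))⁻¹ • (δ⁻¹ ^ (N k - 1) • (1 ᵥ* A ^ N k) - δ • 1) → 0` by `bnd`
(`|1 ᵥ* A ^ N| ≤ C T N`). So `θ ᵥ* A = δ • θ`.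
-/

open Filter Topology Matrix

namespace Pool.Agent.HDG

open Pool.Agent.KST

variable {ι : Type*} [Fintype ι] [DecidableEq ι] {A B : Matrix ι ι ℝ} {t : ι → ι → ι → ℝ}
  {K : Set (ι → ℝ)}

omit [DecidableEq ι] in
private theorem pf_lim (t : ι → ι → ι → ℝ) (θ : ℕ → ι → ℝ) (θ₀ o : ι → ℝ)
    (h : Tendsto θ atTop (𝓝 θ₀)) :
    Tendsto (fun k => Tri t (θ k) o o) atTop (𝓝 (Tri t θ₀ o o)) := by
  have hc : Continuous fun u : ι → ℝ => Tri t u o o := by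
    unfold Tri
    fun_prop
  exact (hc.tendsto θ₀).comp h

theorem pf (H : Hdg A B t K) (δ : ℝ) (hδ : 1 < δ) (hg : Grt A t δ) :
    ∃ θ ∈ K, θ ᵥ* A = δ • θ ∧ Tri t θ (fun _ => 1) (fun _ => 1) = 1 := by
  classical
  obtain ⟨C, hC0, hC⟩ := bnd_K H
  obtain ⟨C', hC'0, hC'⟩ := bnd H
  obtain ⟨c, hc, hcge⟩ := spec_ge H δ hδ hg
  unfold Grt at hg
  obtain ⟨o, ho⟩ : ∃ o : ι → ℝ, o = fun _ => 1 := ⟨_, rfl⟩
  have hoK1 : o ∈ K := by rw [ho]; exact hdg_one H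
  rw [← ho] at hC hC' hcge hg ⊢
  obtain ⟨T, hT⟩ : ∃ T : ℕ → ℝ, T = fun n => Tri t (o ᵥ* (A ^ n)) o o := ⟨_, rfl⟩
  have hTn : ∀ n, Tri t (o ᵥ* (A ^ n)) o o = T n := fun n => by rw [hT]
  simp only [hTn] at hC' hcge hg
  have hδ0 : 0 < δ := by linarith
  have hoK : ∀ n, o ᵥ* (A ^ n) ∈ K := by
    intro n
    induction n with
    | zero => rw [pow_zero, Matrix.vecMul_one]; exact hoK1
    | succ n ih => rw [pow_succ, ← Matrix.vecMul_vecMul]; exact H.ma _ ih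
  have hT0 : ∀ n, 0 ≤ T n := fun n => by
    rw [← hTn]
    exact H.nn _ (hoK n) _ hoK1 _ hoK1
  obtain ⟨q, hq⟩ : ∃ q : ℕ → ℝ, q = fun n => (δ⁻¹) ^ n * T n := ⟨_, rfl⟩
  have hqn : ∀ n, q n = (δ⁻¹) ^ n * T n := fun n => by rw [hq]
  have hqc : ∀ n, c ≤ q n := by
    intro n
    have h1 := hcge n
    rw [hqn, inv_pow, ← div_eq_inv_mul, le_div_iff₀ (pow_pos hδ0 n)]
    exact h1
  have hq0 : ∀ n, 0 ≤ q n := fun n => hc.le.trans (hqc n)
  obtain ⟨s, hs⟩ : ∃ s : ℕ → ℝ, s = fun N => ∑ n ∈ Finset.range N, q n := ⟨_, rfl⟩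
  have hsN : ∀ N, s N = ∑ n ∈ Finset.range N, q n := fun n => by rw [hs]
  have hs1 : ∀ N, s (N + 1) = s N + q N := fun N => by rw [hsN, hsN, Finset.sum_range_succ]
  have hsc : ∀ N : ℕ, c * N ≤ s N := by
    intro N
    induction N with
    | zero => rw [hsN]; simp
    | succ N ih =>
      rw [hs1]
      push_cast
      have := hqc N
      linarith
  -- slow growth
  have key : ∀ ε : ℝ, 0 < ε → ∀ N₀ : ℕ, ∃ N, N₀ ≤ N ∧ q N ≤ ε * s N := by
    intro ε hε N₀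
    by_contra hcon
    push Not at hcon
    have hN1 : 0 < s (max N₀ 1) := by
      have h1 := hsc (max N₀ 1)
      have h2 : (1 : ℝ) ≤ ((max N₀ 1 : ℕ) : ℝ) := by exact_mod_cast le_max_right N₀ 1
      nlinarith
    obtain ⟨N₁, hN₁⟩ : ∃ N₁, N₁ = max N₀ 1 := ⟨_, rfl⟩
    rw [← hN₁] at hN1
    have hN01 : N₀ ≤ N₁ := by rw [hN₁]; exact le_max_left _ _
    have hgr : ∀ m : ℕ, (1 + ε) ^ m * s N₁ ≤ s (N₁ + m) := by
      intro m
      induction m with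
      | zero => simp
      | succ m ih =>
        have h1 := hcon (N₁ + m) (by omega)
        rw [← add_assoc, hs1, pow_succ]
        have h2 : (1 + ε) ^ m * (1 + ε) * s N₁ = ((1 + ε) ^ m * s N₁) * (1 + ε) := by ring
        rw [h2]
        nlinarith
    have hTup : ∀ᶠ n : ℕ in atTop, q n ≤ (1 + ε / 2) ^ n := by
      have hlt : δ < δ * (1 + ε / 2) := by nlinarith
      filter_upwards [hg.eventually (gt_mem_nhds hlt), eventually_ge_atTop 1] with n hn1 hn2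
      have hn0 : n ≠ 0 := by omega
      have h1 := pow_le_pow_left₀ (Real.rpow_nonneg (hT0 n) _) hn1.le n
      rw [one_div, Real.rpow_inv_natCast_pow (hT0 n) hn0, mul_pow] at h1
      rw [hqn, inv_pow, ← div_eq_inv_mul, div_le_iff₀ (pow_pos hδ0 n)]
      linarith
    have hev := ev_lt (t := 1 + ε / 2) (a := 1 + ε) (by linarith) (by linarith)
      ((1 + ε) ^ N₁ / (ε * s N₁))
    obtain ⟨n, ⟨hn1, hn2⟩, hn3⟩ := ((hTup.and hev).and (eventually_ge_atTop N₁)).exists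
    obtain ⟨m, rfl⟩ : ∃ m, n = N₁ + m := ⟨n - N₁, by omega⟩
    have h1 := hcon (N₁ + m) (by omega)
    have h2 := hgr m
    have hes : 0 < ε * s N₁ := mul_pos hε hN1
    rw [div_mul_eq_mul_div, div_lt_iff₀ hes, pow_add (1 + ε)] at hn2
    have h3 : (0 : ℝ) < (1 + ε) ^ N₁ := by positivity
    have h4 : (1 + ε / 2) ^ (N₁ + m) < (1 + ε) ^ m * (ε * s N₁) := by
      refine lt_of_mul_lt_mul_left ?_ h3.le
      linarith
    have h5 : (1 + ε) ^ m * (ε * s N₁) ≤ ε * s (N₁ + m) := by nlinarith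
    linarith
  have hseq : ∀ k : ℕ, ∃ N, q N ≤ (1 / ((k : ℝ) + 1)) * s N ∧ (k : ℝ) + 1 ≤ s N := by
    intro k
    obtain ⟨N₀, hN₀⟩ := exists_nat_ge (((k : ℝ) + 1) / c)
    obtain ⟨N, hN, hqN⟩ := key (1 / ((k : ℝ) + 1)) (by positivity) N₀
    refine ⟨N, hqN, ?_⟩
    have h1 := hsc N
    rw [div_le_iff₀ hc] at hN₀
    have h2 : (N₀ : ℝ) ≤ N := by exact_mod_cast hN
    nlinarith
  choose N hN1 hN2 using hseq
  have hsp : ∀ k, 0 < s (N k) := fun k => by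
    have h1 := hN2 k
    have h2 : (0 : ℝ) ≤ k := Nat.cast_nonneg k
    linarith
  obtain ⟨S, hS⟩ : ∃ S : ℕ → ι → ℝ, S = fun N => ∑ n ∈ Finset.range N, (δ⁻¹) ^ n • (o ᵥ* (A ^ n)) :=
    ⟨_, rfl⟩
  have hSN : ∀ N, S N = ∑ n ∈ Finset.range N, (δ⁻¹) ^ n • (o ᵥ* (A ^ n)) := fun n => by rw [hS]
  have hSK : ∀ N, S N ∈ K := by
    intro N
    induction N with
    | zero =>
      have h1 := H.smul o hoK1 0 le_rfl
      rw [hSN]
      simpa using h1
    | succ N ih =>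
      rw [hSN, Finset.sum_range_succ, ← hSN]
      exact H.add _ ih _ (H.smul _ (hoK N) _ (by positivity))
  have hST : ∀ N, Tri t (S N) o o = s N := by
    intro N
    rw [hSN, tri_sum₁, hsN]
    refine Finset.sum_congr rfl fun n _ => ?_
    rw [tri_smul₁, hTn, hqn]
  obtain ⟨θ, hθ⟩ : ∃ θ : ℕ → ι → ℝ, θ = fun k => (s (N k))⁻¹ • S (N k) := ⟨_, rfl⟩
  have hθk : ∀ k, θ k = (s (N k))⁻¹ • S (N k) := fun k => by rw [hθ]
  have hθK : ∀ k, θ k ∈ K := fun k => by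
    rw [hθk]
    exact H.smul _ (hSK _) _ (inv_nonneg.2 (hsp k).le)
  have hθT : ∀ k, Tri t (θ k) o o = 1 := fun k => by
    rw [hθk, tri_smul₁, hST, inv_mul_cancel₀ (hsp k).ne']
  have hθb : ∀ k i, |θ k i| ≤ C := by
    intro k i
    have h1 := hC (θ k) (hθK k) i
    have h2 : Tri t o o (θ k) = 1 := by
      rw [← hθT k, tri_swap₂ t H.s₂ o o, tri_swap₁ t H.s₁ o (θ k)]
    rw [h2, mul_one] at h1
    exact h1
  obtain ⟨θ₀, -, φ, hφ, hlim⟩ := tendsto_subseq_of_bounded (s := Metric.closedBall (0 : ι → ℝ) C)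
    Metric.isBounded_closedBall (x := θ) (fun k => by
      rw [mem_closedBall_zero_iff, pi_norm_le_iff_of_nonneg hC0]
      exact hθb k)
  have hdiff : ∀ k j, |(θ k ᵥ* A - δ • θ k) j| ≤ δ * (Fintype.card ι * C' + 1) * (1 / ((k : ℝ) + 1)) := by
    intro k j
    have e1 : ∀ M, S M ᵥ* A - δ • S M = δ • ((δ⁻¹) ^ M • (o ᵥ* (A ^ M))) - δ • o := by
      intro M
      induction M with
      | zero => rw [hSN]; simp
      | succ M ih =>
        have h1 : S (M + 1) = S M + (δ⁻¹) ^ M • (o ᵥ* (A ^ M)) := by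
          rw [hSN, hSN, Finset.sum_range_succ]
        have h2 : S (M + 1) ᵥ* A - δ • S (M + 1) = (S M ᵥ* A - δ • S M) +
            ((δ⁻¹) ^ M • (o ᵥ* (A ^ (M + 1))) - δ • ((δ⁻¹) ^ M • (o ᵥ* (A ^ M)))) := by
          rw [h1, Matrix.add_vecMul, Matrix.smul_vecMul, Matrix.vecMul_vecMul, ← pow_succ, smul_add]
          abel
        have h3 : δ • ((δ⁻¹) ^ (M + 1) • (o ᵥ* (A ^ (M + 1)))) = (δ⁻¹) ^ M • (o ᵥ* (A ^ (M + 1))) := by
          rw [smul_smul, pow_succ]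
          congr 1
          field_simp
        rw [h2, ih, h3]
        abel
    have e2 : θ k ᵥ* A - δ • θ k = (s (N k))⁻¹ • (S (N k) ᵥ* A - δ • S (N k)) := by
      rw [hθk, Matrix.smul_vecMul, smul_sub, smul_comm δ]
    have hb1 : |(o ᵥ* (A ^ (N k))) j| ≤ Fintype.card ι * C' * T (N k) := by
      have h1 : (o ᵥ* (A ^ (N k))) j = ∑ i, (A ^ (N k)) i j := by
        rw [ho]
        simp [Matrix.vecMul, dotProduct]
      rw [h1]
      refine (Finset.abs_sum_le_sum_abs _ _).trans ?_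
      refine (Finset.sum_le_sum fun i _ => hC' (N k) i j).trans ?_
      rw [Finset.sum_const, Finset.card_univ, nsmul_eq_mul, mul_assoc]
    rw [e2, e1, Pi.smul_apply, Pi.sub_apply, Pi.smul_apply, Pi.smul_apply, Pi.smul_apply, smul_eq_mul,
      smul_eq_mul, smul_eq_mul, smul_eq_mul, abs_mul, abs_of_nonneg (inv_nonneg.2 (hsp k).le)]
    have ho1 : o j = 1 := by rw [ho]
    have h4 : |δ * (δ⁻¹ ^ N k * (o ᵥ* A ^ N k) j) - δ * o j| ≤
        δ * (Fintype.card ι * C' * q (N k)) + δ := by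
      refine (abs_sub _ _).trans ?_
      rw [ho1, mul_one, abs_of_pos hδ0, abs_mul, abs_mul, abs_of_pos hδ0,
        abs_of_nonneg (by positivity : 0 ≤ δ⁻¹ ^ N k)]
      refine add_le_add ?_ le_rfl
      refine mul_le_mul_of_nonneg_left ?_ hδ0.le
      calc δ⁻¹ ^ N k * |(o ᵥ* A ^ N k) j| ≤ δ⁻¹ ^ N k * (Fintype.card ι * C' * T (N k)) :=
            mul_le_mul_of_nonneg_left hb1 (by positivity)
        _ = Fintype.card ι * C' * q (N k) := by rw [hqn]; ring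
    have hk : (0 : ℝ) < (k : ℝ) + 1 := by positivity
    have h5 : (s (N k))⁻¹ ≤ 1 / ((k : ℝ) + 1) := by
      rw [one_div]
      exact inv_anti₀ hk (hN2 k)
    have h6 : (s (N k))⁻¹ * q (N k) ≤ 1 / ((k : ℝ) + 1) := by
      rw [inv_mul_le_iff₀ (hsp k), mul_comm]
      exact hN1 k
    calc (s (N k))⁻¹ * |δ * (δ⁻¹ ^ N k * (o ᵥ* A ^ N k) j) - δ * o j|
        ≤ (s (N k))⁻¹ * (δ * (Fintype.card ι * C' * q (N k)) + δ) :=
          mul_le_mul_of_nonneg_left h4 (inv_nonneg.2 (hsp k).le)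
      _ = δ * (Fintype.card ι * C') * ((s (N k))⁻¹ * q (N k)) + δ * (s (N k))⁻¹ := by ring
      _ ≤ δ * (Fintype.card ι * C') * (1 / ((k : ℝ) + 1)) + δ * (1 / ((k : ℝ) + 1)) :=
          add_le_add (mul_le_mul_of_nonneg_left h6 (by positivity))
            (mul_le_mul_of_nonneg_left h5 hδ0.le)
      _ = _ := by ring
  have hcoord : ∀ i, Tendsto (fun k => θ (φ k) i) atTop (𝓝 (θ₀ i)) := fun i =>
    (tendsto_pi_nhds.1 hlim) i
  refine ⟨θ₀, ?_, ?_, ?_⟩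
  · exact H.cl.mem_of_tendsto hlim (Eventually.of_forall fun k => hθK (φ k))
  · have h0 : θ₀ ᵥ* A - δ • θ₀ = 0 := by
      funext j
      have h1 : Tendsto (fun k => (θ (φ k) ᵥ* A - δ • θ (φ k)) j) atTop
          (𝓝 ((θ₀ ᵥ* A - δ • θ₀) j)) := by
        simp only [Pi.sub_apply, Pi.smul_apply, Matrix.vecMul, dotProduct, smul_eq_mul]
        exact (tendsto_finsetSum _ fun i _ => (hcoord i).mul_const _).sub ((hcoord j).const_mul δ)
      have h2 : Tendsto (fun k => (θ (φ k) ᵥ* A - δ • θ (φ k)) j) atTop (𝓝 0) := by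
        refine squeeze_zero_norm (a := fun k => δ * (Fintype.card ι * C' + 1) *
          (1 / ((φ k : ℝ) + 1))) (fun k => ?_) ?_
        · rw [Real.norm_eq_abs]
          exact hdiff (φ k) j
        · have h3 : Tendsto (fun k : ℕ => δ * (Fintype.card ι * C' + 1) * (1 / ((k : ℝ) + 1))) atTop
              (𝓝 (δ * (Fintype.card ι * C' + 1) * 0)) :=
            (tendsto_one_div_add_atTop_nhds_zero_nat (𝕜 := ℝ)).const_mul _
          rw [mul_zero] at h3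
          exact h3.comp hφ.tendsto_atTop
      exact tendsto_nhds_unique h1 h2
    exact sub_eq_zero.1 h0
  · have h1 := pf_lim t (fun k => θ (φ k)) θ₀ o hlim
    have h3 : Tendsto (fun k => Tri t (θ (φ k)) o o) atTop (𝓝 1) := by
      simp only [hθT]
      exact tendsto_const_nhds
    exact tendsto_nhds_unique h1 h3

end Pool.Agent.HDG
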