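import Pool.Agent.HDG.Defs
import Pool.Agent.KST.Evc

/-!
# HDG THIRD: the third differences

`EvP.dl` three times: `EvP 1 (Dl w (Dl v (Dl u h)))`; so this function `r` satisfies
`Dl (single b 1) r c = 0` for all `b` and all large `c`: it is constant, `= r₀`, for `c ≥ c₀` (a common bound;
every `c ≥ c₀` is reached from `c₀` by steps `single b 1`). By `Cub.c₃`
`Dl v (Dl u h) c = Tri t (rv c) (rv u) (rv v) + O(1)` for all large `c`; take the difference for
`c = c₀ + p • w`: `Dl v (Dl u h) (c₀ + p • w) = Dl v (Dl u h) c₀ + p r₀` and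
`Tri t (rv (c₀ + p • w)) (rv u) (rv v) = Tri t (rv c₀) .. + p Tri t (rv w) (rv u) (rv v)`; divide by
`p → ∞`: `r₀ = Tri t (rv w) (rv u) (rv v)`; `tri_swap₁`, `tri_swap₂`.
`cub_mono_nonneg`: if `h (c) ≤ h (c + a)` for all large `c`, then `0 ≤ Tri t (rv c) (rv c) (rv a)`: `Cub.c₂` for
`p • c + c₀`, `p → ∞`.
-/

namespace Pool.Agent.HDG

open Pool.Agent.KST

variable {B : Type*} [Fintype B] [DecidableEq B]

private lemma hd_ind {P : (B → ℕ) → Prop} (c₀ : B → ℕ) (h0 : P c₀)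
    (hs : ∀ c, c₀ ≤ c → ∀ b, P c → P (c + Pi.single b 1)) : ∀ c, c₀ ≤ c → P c := by
  have key : ∀ (n : ℕ) (c : B → ℕ), c₀ ≤ c → ∑ b, c b = n → P c := by
    intro n
    induction n using Nat.strong_induction_on with
    | _ n ih =>
      intro c hc hn
      by_cases he : c = c₀
      · rw [he]
        exact h0
      · obtain ⟨b, hb⟩ : ∃ b, c₀ b < c b := by
          by_contra hcon
          push Not at hcon
          exact he (le_antisymm hcon hc)
        have h1 : c = Function.update c b (c b - 1) + Pi.single b 1 := by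
          funext x
          by_cases hx : x = b
          · subst hx
            rw [Pi.add_apply, Function.update_self, Pi.single_eq_same]
            omega
          · rw [Pi.add_apply, Function.update_of_ne hx, Pi.single_eq_of_ne hx, add_zero]
        have h2 : c₀ ≤ Function.update c b (c b - 1) := by
          intro x
          by_cases hx : x = b
          · subst hx
            rw [Function.update_self]
            exact Nat.le_sub_one_of_lt hb
          · rw [Function.update_of_ne hx]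
            exact hc x
        have h3 : ∑ x, Function.update c b (c b - 1) x < n := by
          rw [← hn]
          apply Finset.sum_lt_sum
          · intro x _
            by_cases hx : x = b
            · subst hx
              rw [Function.update_self]
              omega
            · rw [Function.update_of_ne hx]
          · refine ⟨b, Finset.mem_univ b, ?_⟩
            rw [Function.update_self]
            omega
        rw [h1]
        exact hs _ h2 b (ih _ h3 _ h2 rfl)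
  exact fun c hc => key _ c hc rfl

private lemma hd_const {h : (B → ℕ) → ℤ} (H : EvP 1 h) :
    ∃ (t : ℤ) (c₀ : B → ℕ), ∀ c, c₀ ≤ c → h c = t := by
  have H' : ∀ b, ∃ c₀ : B → ℕ, ∀ c, c₀ ≤ c → Dl (Pi.single b 1) h c = 0 := fun b => H b
  choose c0 hc0 using H'
  refine ⟨h (Finset.univ.sup c0), Finset.univ.sup c0, ?_⟩
  refine hd_ind (P := fun c => h c = h (Finset.univ.sup c0)) _ rfl ?_
  intro c hc b hP
  have h1 := hc0 b c ((Finset.le_sup (f := c0) (Finset.mem_univ b)).trans hc)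
  have h2 : h (c + Pi.single b 1) - h c = 0 := h1
  rw [← hP]
  linarith

omit [DecidableEq B] in
private lemma hd_add1 (t : B → B → B → ℝ) (u u' v w : B → ℝ) :
    Tri t (u + u') v w = Tri t u v w + Tri t u' v w := by
  unfold Tri
  simp only [← Finset.sum_add_distrib, Pi.add_apply]
  refine Finset.sum_congr rfl fun i _ => Finset.sum_congr rfl fun j _ =>
    Finset.sum_congr rfl fun k _ => by ring

omit [DecidableEq B] in
private lemma hd_add2 (t : B → B → B → ℝ) (u v v' w : B → ℝ) :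
    Tri t u (v + v') w = Tri t u v w + Tri t u v' w := by
  unfold Tri
  simp only [← Finset.sum_add_distrib, Pi.add_apply]
  refine Finset.sum_congr rfl fun i _ => Finset.sum_congr rfl fun j _ =>
    Finset.sum_congr rfl fun k _ => by ring

omit [DecidableEq B] in
private lemma hd_smul1 (t : B → B → B → ℝ) (r : ℝ) (u v w : B → ℝ) :
    Tri t (r • u) v w = r * Tri t u v w := by
  unfold Tri
  simp only [Finset.mul_sum, Pi.smul_apply, smul_eq_mul]
  refine Finset.sum_congr rfl fun i _ => Finset.sum_congr rfl fun j _ =>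
    Finset.sum_congr rfl fun k _ => by ring

omit [DecidableEq B] in
private lemma hd_smul2 (t : B → B → B → ℝ) (r : ℝ) (u v w : B → ℝ) :
    Tri t u (r • v) w = r * Tri t u v w := by
  unfold Tri
  simp only [Finset.mul_sum, Pi.smul_apply, smul_eq_mul]
  refine Finset.sum_congr rfl fun i _ => Finset.sum_congr rfl fun j _ =>
    Finset.sum_congr rfl fun k _ => by ring

omit [DecidableEq B] in
private lemma hd_swap12 {t : B → B → B → ℝ} (h : ∀ i j k, t i j k = t j i k) (u v w : B → ℝ) :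
    Tri t u v w = Tri t v u w := by
  unfold Tri
  rw [Finset.sum_comm]
  refine Finset.sum_congr rfl fun i _ => Finset.sum_congr rfl fun j _ =>
    Finset.sum_congr rfl fun k _ => ?_
  rw [h j i k]
  ring

omit [DecidableEq B] in
private lemma hd_swap23 {t : B → B → B → ℝ} (h : ∀ i j k, t i j k = t i k j) (u v w : B → ℝ) :
    Tri t u v w = Tri t u w v := by
  unfold Tri
  refine Finset.sum_congr rfl fun i _ => ?_
  rw [Finset.sum_comm]
  refine Finset.sum_congr rfl fun j _ => Finset.sum_congr rfl fun k _ => ?_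
  rw [h i k j]
  ring

omit [Fintype B] [DecidableEq B] in
private lemma hd_rv (p : ℕ) (c d : B → ℕ) : rv (p • c + d) = (p : ℝ) • rv c + rv d := by
  funext b
  show (((p • c + d) b : ℕ) : ℝ) = (p : ℝ) * (c b : ℝ) + (d b : ℝ)
  rw [Pi.add_apply, Pi.smul_apply, smul_eq_mul]
  push_cast
  rfl

private lemma hd_arch {x K : ℝ} (h : ∀ p : ℕ, 1 ≤ p → (p : ℝ) * x ≤ K) : x ≤ 0 := by
  by_contra hx
  push Not at hx
  obtain ⟨n, hn⟩ := exists_nat_gt (K / x)
  have h1 := h (n + 1) (by omega)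
  rw [div_lt_iff₀ hx] at hn
  push_cast at h1
  nlinarith

theorem third (h : (B → ℕ) → ℤ) (H : EvP 4 h) (t : B → B → B → ℝ) (ht : Cub h t)
    (u v w : B → ℕ) : ∃ c₀ : B → ℕ, ∀ c, c₀ ≤ c →
      ((Dl w (Dl v (Dl u h)) c : ℤ) : ℝ) = Tri t (rv u) (rv v) (rv w) := by
  obtain ⟨t0, c1, h1⟩ := hd_const (EvP.dl w (EvP.dl v (EvP.dl u H)))
  obtain ⟨C, c2, h2⟩ := ht.c₃ u v
  obtain ⟨g, hg⟩ : ∃ g, g = Dl v (Dl u h) := ⟨_, rfl⟩
  rw [← hg] at h1 h2
  obtain ⟨c₀, hc₀⟩ : ∃ c₀, c₀ = c1 ⊔ c2 := ⟨_, rfl⟩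
  have hc1 : c1 ≤ c₀ := by rw [hc₀]; exact le_sup_left
  have hc2 : c2 ≤ c₀ := by rw [hc₀]; exact le_sup_right
  have hle : ∀ p : ℕ, c₀ ≤ p • w + c₀ := fun p => le_add_of_nonneg_left (zero_le)
  have h3 : ∀ p : ℕ, g (p • w + c₀) = g c₀ + p * t0 := by
    intro p
    induction p with
    | zero => simp
    | succ p ih =>
      have h4 : g (p • w + c₀ + w) - g (p • w + c₀) = t0 := h1 _ (hc1.trans (hle p))
      have h5 : (p + 1) • w + c₀ = p • w + c₀ + w := by
        rw [add_smul, one_smul]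
        abel
      rw [h5]
      push_cast
      linarith
  have h4 : ∀ p : ℕ, Tri t (rv (p • w + c₀)) (rv u) (rv v) =
      p * Tri t (rv w) (rv u) (rv v) + Tri t (rv c₀) (rv u) (rv v) := by
    intro p
    rw [hd_rv, hd_add1, hd_smul1]
  have h5 : ∀ p : ℕ, |(g c₀ : ℝ) + p * (t0 : ℝ) - (p * Tri t (rv w) (rv u) (rv v) +
      Tri t (rv c₀) (rv u) (rv v))| ≤ C := by
    intro p
    have h6 := h2 (p • w + c₀) (hc2.trans (hle p))
    rw [h3, h4] at h6
    push_cast at h6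
    exact h6
  have h6 : (t0 : ℝ) = Tri t (rv w) (rv u) (rv v) := by
    obtain ⟨T, hT⟩ : ∃ T, T = Tri t (rv w) (rv u) (rv v) := ⟨_, rfl⟩
    rw [← hT] at h5 ⊢
    apply le_antisymm
    · have h7 : (t0 : ℝ) - T ≤ 0 := by
        apply hd_arch (K := C - g c₀ + Tri t (rv c₀) (rv u) (rv v))
        intro p _
        have h8 := (abs_le.1 (h5 p)).2
        linarith
      linarith
    · have h7 : T - (t0 : ℝ) ≤ 0 := by
        apply hd_arch (K := C + g c₀ - Tri t (rv c₀) (rv u) (rv v))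
        intro p _
        have h8 := (abs_le.1 (h5 p)).1
        linarith
      linarith
  refine ⟨c1, fun c hc => ?_⟩
  rw [← hg, h1 c hc, h6, hd_swap12 ht.s₁, hd_swap23 ht.s₂]

private lemma hd_ray (h : (B → ℕ) → ℤ) (t : B → B → B → ℝ) (ht : Cub h t) (a : B → ℕ)
    (c₀ : B → ℕ) (c : B → ℕ) : ∃ (c₃ : B → ℕ) (K : ℝ), c₀ ≤ c₃ ∧ ∀ p : ℕ, 1 ≤ p →
      |2 * ((Dl a h (p • c + c₃) : ℤ) : ℝ) - (p : ℝ) ^ 2 * Tri t (rv c) (rv c) (rv a)| ≤ p * K := by
  obtain ⟨C, c1, h1⟩ := ht.c₂ a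
  obtain ⟨c₃, hc₃⟩ : ∃ c₃, c₃ = c₀ ⊔ c1 := ⟨_, rfl⟩
  have hc0 : c₀ ≤ c₃ := by rw [hc₃]; exact le_sup_left
  have hc1 : c1 ≤ c₃ := by rw [hc₃]; exact le_sup_right
  obtain ⟨U, hU⟩ : ∃ U, U = Tri t (rv c) (rv c₃) (rv a) + Tri t (rv c₃) (rv c) (rv a) := ⟨_, rfl⟩
  obtain ⟨V, hV⟩ : ∃ V, V = Tri t (rv c₃) (rv c₃) (rv a) := ⟨_, rfl⟩
  obtain ⟨S, hS⟩ : ∃ S : ℝ, S = ∑ b, (c b : ℝ) := ⟨_, rfl⟩
  obtain ⟨S3, hS3⟩ : ∃ S3 : ℝ, S3 = ∑ b, (c₃ b : ℝ) := ⟨_, rfl⟩
  have hS0 : 0 ≤ S := by rw [hS]; exact Finset.sum_nonneg fun b _ => Nat.cast_nonneg _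
  have hS30 : 0 ≤ S3 := by rw [hS3]; exact Finset.sum_nonneg fun b _ => Nat.cast_nonneg _
  refine ⟨c₃, |U| + |V| + |C| * (1 + S + S3), hc0, fun p hp => ?_⟩
  have hp1 : (1 : ℝ) ≤ p := by exact_mod_cast hp
  have h2 := h1 (p • c + c₃) (hc1.trans (le_add_of_nonneg_left zero_le))
  have h3 : Tri t (rv (p • c + c₃)) (rv (p • c + c₃)) (rv a) =
      (p : ℝ) ^ 2 * Tri t (rv c) (rv c) (rv a) + p * U + V := by
    rw [hd_rv, hd_add1, hd_add2, hd_add2, hd_smul1, hd_smul1, hd_smul2, hd_smul2, hU, hV]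
    ring
  have h4 : ∑ b, (((p • c + c₃) b : ℕ) : ℝ) = p * S + S3 := by
    rw [hS, hS3, Finset.mul_sum, ← Finset.sum_add_distrib]
    refine Finset.sum_congr rfl fun b _ => ?_
    simp only [Pi.add_apply, Pi.smul_apply, smul_eq_mul]
    push_cast
    rfl
  rw [h3, h4] at h2
  obtain ⟨D, hD⟩ : ∃ D : ℝ, D = 2 * ((Dl a h (p • c + c₃) : ℤ) : ℝ) := ⟨_, rfl⟩
  obtain ⟨T, hT⟩ : ∃ T : ℝ, T = Tri t (rv c) (rv c) (rv a) := ⟨_, rfl⟩
  rw [← hD, ← hT] at h2 ⊢
  have h5 : D - (p : ℝ) ^ 2 * T = (D - ((p : ℝ) ^ 2 * T + p * U + V)) + (p * U + V) := by ring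
  have h6 : |(p : ℝ) * U + V| ≤ p * (|U| + |V|) := by
    refine (abs_add_le _ _).trans ?_
    rw [abs_mul, abs_of_nonneg (by linarith : (0 : ℝ) ≤ p), mul_add]
    have h7 : |V| ≤ p * |V| := le_mul_of_one_le_left (abs_nonneg _) hp1
    linarith
  have h7 : C * (1 + (p * S + S3)) ≤ p * (|C| * (1 + S + S3)) := by
    have h8 : 1 + ((p : ℝ) * S + S3) ≤ p * (1 + S + S3) := by nlinarith
    have h9 : 0 ≤ 1 + ((p : ℝ) * S + S3) := by positivity
    calc C * (1 + (p * S + S3)) ≤ |C| * (1 + (p * S + S3)) :=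
          mul_le_mul_of_nonneg_right (le_abs_self C) h9
      _ ≤ |C| * (p * (1 + S + S3)) := mul_le_mul_of_nonneg_left h8 (abs_nonneg _)
      _ = _ := by ring
  rw [h5]
  refine (abs_add_le _ _).trans ?_
  rw [mul_add]
  linarith

theorem cub_le_nonpos (h : (B → ℕ) → ℤ) (t : B → B → B → ℝ) (ht : Cub h t) (a : B → ℕ)
    (c₀ : B → ℕ) (hle : ∀ c, c₀ ≤ c → h (c + a) ≤ h c) (c : B → ℕ) :
    Tri t (rv c) (rv c) (rv a) ≤ 0 := by
  obtain ⟨c₃, K, h1, h2⟩ := hd_ray h t ht a c₀ c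
  apply hd_arch (K := K)
  intro p hp
  have hp1 : (1 : ℝ) ≤ p := by exact_mod_cast hp
  have h3 := (abs_le.1 (h2 p hp)).1
  have h4 : ((Dl a h (p • c + c₃) : ℤ) : ℝ) ≤ 0 := by
    have h5 : Dl a h (p • c + c₃) ≤ 0 := by
      have := hle (p • c + c₃) (h1.trans (le_add_of_nonneg_left zero_le))
      unfold Dl
      linarith
    exact_mod_cast h5
  have h6 : (p : ℝ) * ((p : ℝ) * Tri t (rv c) (rv c) (rv a)) ≤ p * K := by nlinarith
  exact le_of_mul_le_mul_left h6 (by linarith)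

theorem cub_mono_nonneg (h : (B → ℕ) → ℤ) (t : B → B → B → ℝ) (ht : Cub h t) (a : B → ℕ)
    (c₀ : B → ℕ) (hle : ∀ c, c₀ ≤ c → h c ≤ h (c + a)) (c : B → ℕ) :
    0 ≤ Tri t (rv c) (rv c) (rv a) := by
  obtain ⟨c₃, K, h1, h2⟩ := hd_ray h t ht a c₀ c
  have h0 : -Tri t (rv c) (rv c) (rv a) ≤ 0 := by
    apply hd_arch (K := K)
    intro p hp
    have hp1 : (1 : ℝ) ≤ p := by exact_mod_cast hp
    have h3 := (abs_le.1 (h2 p hp)).2
    have h4 : 0 ≤ ((Dl a h (p • c + c₃) : ℤ) : ℝ) := by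
      have h5 : 0 ≤ Dl a h (p • c + c₃) := by
        have := hle (p • c + c₃) (h1.trans (le_add_of_nonneg_left zero_le))
        unfold Dl
        linarith
      exact_mod_cast h5
    have h6 : (p : ℝ) * ((p : ℝ) * -Tri t (rv c) (rv c) (rv a)) ≤ p * K := by nlinarith
    exact le_of_mul_le_mul_left h6 (by linarith)
  linarith

end Pool.Agent.HDG
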