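import Pool.Agent.HDG.Two
import Pool.Agent.HDG.Emb
import Pool.Agent.HDG.Third
import Pool.Agent.KST.Ktb

/-!
# HDG THR: the inequality in dimension three

By `emb` we may replace `𝒜` by a field `K` (`hm` does not change, so `Cub` and `EvP` neither): `funext`.
`pencil` for `c`: `P = κ, P' = κ', c₁`. If `h (d - c) < h d` for some `d ≥ c₁`, then `λ = -κ / κ'` is
transcendental over `E` (`exd_tr`). `F = E(λ)`, `L' = fun b => ex F (L b)`, `hm L' d = h d - h (d - c)` for
`d ≥ c₁` (`exd`), so (`third`) `Dl v (Dl u (hm L')) d = Dl v (Dl u (Dl c h)) (d - c)` is for large `d` equal to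
the integer `q u v` with `(q u v : ℝ) = Tri t (rv c) (rv u) (rv v)` (define `q u v` as the value, by
choice): `Qd (hm L') q`. `two` (`F` is infinite). Otherwise `h d ≤ h (d - c)` for all `d ≥ c₁`:
`cub_le_nonpos` and `cub_mono_nonneg` (`hm_mono`) give `Tri t (rv a) (rv a) (rv c) = 0`; the left hand side
is `0`.
`tri_nn`: `q_nonneg` (KST/Ktb) with `pencil` for `c`.
-/

universe u v w

namespace Pool.Agent.HDG

open Pool.Agent.KST

theorem tri_nn {E : Type u} {𝒜 : Type v} {B : Type w} [Field E] [Infinite E] [CommRing 𝒜]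
    [Algebra E 𝒜] [Fintype B] [DecidableEq B] [Nontrivial 𝒜] (L : B → Submodule E 𝒜)
    (hL : Irm L) (t : B → B → B → ℝ) (ht : Cub (hm L) t) (a b c : B → ℕ) :
    0 ≤ Tri t (rv a) (rv b) (rv c) := by
  obtain ⟨P, P', c₁, hP, hP', h0, -, hnz⟩ := pencil L hL c
  exact q_nonneg L hL t ht c P P' hP hP' h0 c₁ hnz a b

theorem thr {E : Type u} {𝒜 : Type v} {B : Type w} [Field E] [Infinite E] [CommRing 𝒜]
    [Algebra E 𝒜] [Fintype B] [DecidableEq B] [Nontrivial 𝒜] (L : B → Submodule E 𝒜)
    (hL : Irm L) (t : B → B → B → ℝ) (ht : Cub (hm L) t) (hev : EvP 4 (hm L)) (a b c : B → ℕ) :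
    Tri t (rv a) (rv a) (rv c) * Tri t (rv b) (rv b) (rv c) ≤
      Tri t (rv a) (rv b) (rv c) ^ 2 := by
  have hnn := tri_nn L hL t ht a a c
  obtain ⟨K, hK, hA, L', hL', hmL⟩ := emb L hL
  have hfun : hm L' = hm L := funext hmL
  rw [← hfun] at ht hev
  obtain ⟨P, P', c₁, hP, hP', h0, h0', hnz⟩ := pencil L' hL' c
  have hcc : c ≤ c₁ := hnz.1
  by_cases hcase : ∃ d, c₁ ≤ d ∧ hm L' (d - c) < hm L' d
  · obtain ⟨d, hd, hlt⟩ := hcase
    have htr := exd_tr L' hL' c P P' hP hP' h0 h0' c₁ hnz d hd hlt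
    have hex := exd L' hL' c P P' hP hP' h0 h0' c₁ hnz htr
    set F := IntermediateField.adjoin E {-P / P'} with hF
    haveI : Infinite F := Infinite.of_injective (algebraMap E F) (algebraMap E F).injective
    have hirm := irm_ex F L' hL'
    choose c₀ hc₀ using fun u v => third (hm L') hev t ht c u v
    have hqr : ∀ u v, ((Dl v (Dl u (Dl c (hm L'))) (c₀ u v) : ℤ) : ℝ) =
        Tri t (rv c) (rv u) (rv v) := fun u v => hc₀ u v _ le_rfl
    have hQ : Qd (hm fun b => ex F (L' b))
        (fun u v => Dl v (Dl u (Dl c (hm L'))) (c₀ u v)) := by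
      intro u v
      refine ⟨c₁ + c₀ u v, fun e he => ?_⟩
      have he1 : c₁ ≤ e := by
        intro i
        have h1 : c₁ i + c₀ u v i ≤ e i := he i
        show c₁ i ≤ e i
        omega
      have he2 : c₀ u v ≤ e - c := by
        intro i
        have h1 : c₁ i + c₀ u v i ≤ e i := he i
        have h2 : c i ≤ c₁ i := hcc i
        show c₀ u v i ≤ e i - c i
        omega
      have hval : ∀ x : B → ℕ, hm (fun b => ex F (L' b)) (e + x) = Dl c (hm L') (e - c + x) := by
        intro x
        rw [hex (e + x) (le_trans he1 (by intro i; simp))]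
        have a1 : e - c + x + c = e + x := by
          funext i
          have h2 : c i ≤ c₁ i := hcc i
          have h3 : c₁ i ≤ e i := he1 i
          simp only [Pi.add_apply, Pi.sub_apply]
          omega
        have a2 : e + x - c = e - c + x := by
          funext i
          have h2 : c i ≤ c₁ i := hcc i
          have h3 : c₁ i ≤ e i := he1 i
          simp only [Pi.add_apply, Pi.sub_apply]
          omega
        unfold Dl
        rw [a1, a2]
      have hval0 := hval 0
      rw [add_zero, add_zero] at hval0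
      have h3 : Dl v (Dl u (hm fun b => ex F (L' b))) e = Dl v (Dl u (Dl c (hm L'))) (e - c) := by
        have b1 : ∀ (g : (B → ℕ) → ℤ) (y : B → ℕ),
            Dl v (Dl u g) y = (g (y + (v + u)) - g (y + v)) - (g (y + u) - g y) := by
          intro g y
          unfold Dl
          rw [add_assoc]
        rw [b1, b1, hval, hval, hval, hval0]
      rw [h3]
      have h4 := hc₀ u v (e - c) he2
      have h5 := hqr u v
      exact_mod_cast h4.trans h5.symm
    have h6 := two (fun b => ex F (L' b)) hirm _ hQ a b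
    have h7 : (((Dl a (Dl a (Dl c (hm L'))) (c₀ a a) : ℤ) : ℝ)) *
        ((Dl b (Dl b (Dl c (hm L'))) (c₀ b b) : ℤ) : ℝ) ≤
        ((Dl b (Dl a (Dl c (hm L'))) (c₀ a b) : ℤ) : ℝ) ^ 2 := by
      exact_mod_cast h6
    rw [hqr, hqr, hqr] at h7
    have s1 : ∀ u v, Tri t (rv c) (rv u) (rv v) = Tri t (rv u) (rv v) (rv c) := by
      intro u v
      rw [tri_swap₁ t ht.s₁ (rv c) (rv u), tri_swap₂ t ht.s₂ (rv u) (rv c)]
    rw [s1, s1, s1] at h7
    exact h7
  · push Not at hcase
    have h1 := cub_le_nonpos (hm L') t ht c c₁ (fun d hd => by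
      have h2 := hcase (d + c) (le_trans hd (by intro i; simp))
      have h3 : d + c - c = d := by
        funext i
        simp
      rw [h3] at h2
      exact h2) a
    have h2 : Tri t (rv a) (rv a) (rv c) = 0 := le_antisymm h1 hnn
    rw [h2, zero_mul]
    positivity

end Pool.Agent.HDG
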