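import Pool.Agent.HDG.Jen
import Pool.Agent.HDG.Pencil

/-!
# HDG TWO: the inequality on a surface

`qd_nonneg`: for `c ≥ c₀` (`c₀` for `b, b`): `Dl b h (c + p b) = Dl b h c + p q(b,b)`, so
`h (c + p b) = h c + p Dl b h c + p (p - 1) / 2 q(b,b)`. It is `≥ 0` for all `p`, so `q(b,b) ≥ 0`.

`two`: let `D = q(a,a)`, `n = q(a,b)`, `h = hm L`. `q(a,a), q(b,b) ≥ 0`; we may assume `D ≥ 1`. `pencil` for `a`:
`α, α', c₁`. `ψ = -α / α'` is transcendental (`exd_tr`: `h (c + p a) - h (c + p a - a)` is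
`Dl a h (c + (p - 1) a) = Dl a h c + (p - 1) D > 0` for `c ≥ c₁ + c₀`, `p` large). `F = k(ψ)`,
`L' = fun b => ex F (L b)`, `h' = hm L'`; `h' c = Dl a h (c - a)` for `c ≥ c₁` (`exd`; `a ≤ c₁`). So for all `c`
larger than some `c₀'`: `Dl a h' c = q(a,a) = D`, `Dl b h' c = q(a,b) = n`. `pencil` for `L'`, `a` (`F` is
infinite): `γ, γ', c₁'`. Let `c₂ ≥ c₁, c₁' , c₀' + a, c₀(b,b)` and a common bound for everything
(`NZ L' a γ γ' c₂` follows from `c₁' ≤ c₂`). `hlin`: `h' c - h' (c - a) = D` for `c ≥ c₂`.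
For `p : ℕ` let `W = Rm L (p • b + c₂)`, and for `i : ℕ` `W i = gr W ψ i`, an `F`-space. For `G` with
`CI W ((X - C ψ) ^ i * G)` and `Y ∈ Rm L (c₂ + i • a)` the polynomial `(X - C ψ) ^ i * (G * C Y)` has
coefficients in `Rm L (p • b + c₂ + c₂ + i • a)`, so (`pfac`) `G * C Y = C (α' ^ i) * H`,
`CI (Rm L (p • b + c₂ + c₂)) H`; at `ψ`: `G(ψ) Y = α' ^ i H(ψ)`, `H(ψ) ∈ ex F (Rm L (p • b + c₂ + c₂))`. So
(`rm_ex`, spans) for all `w ∈ W i`, `y ∈ Rm L' (c₂ + i • a)` there is `v ∈ Rm L' (p • b + c₂ + c₂)` with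
`w y = α' ^ i v`. By `jen` (base field `F`, `W = W i`, `z = α' ^ i`, `c' = c₂ + i • a`,
`c'' = p • b + c₂ + c₂`, finitely generated by `gr_le`): if `W i ≠ ⊥`
`finrank F (W i) ≤ h' (p • b + 3 c₂) - h' c₂ - h' (c₂ + i • a) + 2 D = p n - i D + C`,
`C = h' (3 c₂) - 2 h' c₂ + 2 D` independent of `p, i`. So for `W i ≠ ⊥`: `i D ≤ p n + C`. With `lc_top` (`J`),
`gfl` and `J D ≤ M := p n + C` (`W J ≠ ⊥`; so `M ≥ 0`):
`hm L (p • b + c₂) ≤ ∑_{i ≤ J} max (M - i D) 0`, all the terms are `M - i D ≥ 0`, the sum is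
`(J + 1) (2 M - J D) / 2`, and `2 D * sum = (J D + D) (2 M - J D) ≤ (M + D / 2) ^ 2`
(arithmetic-geometric mean inequality). As
`hm L (p • b + c₂) = h c₂ + p Dl b h c₂ + p (p - 1) / 2 q(b,b)`, divide by `p ^ 2` and let `p → ∞`:
`D q(b,b) ≤ n ^ 2`.
-/

open Polynomial

namespace Pool.Agent.HDG

open Pool.Agent.KST

private theorem quad_aux (X A B : ℤ) (h : ∀ p : ℕ, X * (p : ℤ) ^ 2 ≤ A * p + B) : X ≤ 0 := by
  by_contra hX
  push Not at hX
  have h1 := h (A.natAbs + B.natAbs + 1)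
  have hp : ((A.natAbs + B.natAbs + 1 : ℕ) : ℤ) = |A| + |B| + 1 := by
    push_cast
    rfl
  rw [hp] at h1
  have h2 := le_abs_self A
  have h3 := le_abs_self B
  have h4 := abs_nonneg A
  have h5 := abs_nonneg B
  obtain ⟨s, hs⟩ : ∃ s, s = |A| + |B| + 1 := ⟨_, rfl⟩
  rw [← hs] at h1
  have h6 : s ^ 2 ≤ X * s ^ 2 := by nlinarith [sq_nonneg s]
  have h7 : A * s ≤ |A| * s := mul_le_mul_of_nonneg_right h2 (by omega)
  have h8 : |B| * 1 ≤ |B| * s := mul_le_mul_of_nonneg_left (by omega) h5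
  have h9 : s ^ 2 = |A| * s + |B| * s + s := by
    rw [sq]
    nth_rewrite 1 [hs]
    ring
  linarith

section dl

variable {B : Type*}

private theorem dl_iter (f : (B → ℕ) → ℤ) (a c₀ : B → ℕ) (t : ℤ)
    (h : ∀ c, c₀ ≤ c → Dl a f c = t) (c : B → ℕ) (hc : c₀ ≤ c) (p : ℕ) :
    f (c + p • a) = f c + p * t := by
  induction p with
  | zero => simp
  | succ p ih =>
    have h1 := h (c + p • a) (hc.trans (fun b => Nat.le_add_right _ _))
    unfold Dl at h1
    rw [succ_nsmul, ← add_assoc]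
    push_cast
    linarith

private theorem dl_quad (f : (B → ℕ) → ℤ) (a c₀ : B → ℕ) (t : ℤ)
    (h : ∀ c, c₀ ≤ c → Dl a (Dl a f) c = t) (c : B → ℕ) (hc : c₀ ≤ c) (p : ℕ) :
    2 * f (c + p • a) = 2 * f c + 2 * p * Dl a f c + p * (p - 1) * t := by
  induction p with
  | zero => simp
  | succ p ih =>
    have h1 := dl_iter (Dl a f) a c₀ t h c hc p
    have h2 : Dl a f (c + p • a) = f (c + p • a + a) - f (c + p • a) := rfl
    rw [succ_nsmul, ← add_assoc]
    have h3 : f (c + p • a + a) = f (c + p • a) + (Dl a f c + p * t) := by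
      rw [← h1, h2]
      ring
    rw [h3]
    push_cast
    linarith

end dl

variable {k K B : Type*} [Field k] [Field K] [Algebra k K] [Fintype B] [DecidableEq B]

omit [Fintype B] [DecidableEq B] in
theorem qd_nonneg (h : (B → ℕ) → ℤ) (hh : ∀ c, 0 ≤ h c) (q : (B → ℕ) → (B → ℕ) → ℤ)
    (hq : Qd h q) (b : B → ℕ) : 0 ≤ q b b := by
  obtain ⟨c₀, hc₀⟩ := hq b b
  have h1 := dl_quad h b c₀ (q b b) hc₀ c₀ le_rfl
  have h2 := quad_aux (-q b b) (2 * Dl b h c₀ - q b b) (2 * h c₀) (fun p => by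
    have h3 := h1 p
    have h4 := hh (c₀ + p • b)
    nlinarith)
  linarith

private theorem gr_mul (L : B → Submodule k K) (a : B → ℕ) (α α' : K) (hα : α ∈ Rm L a)
    (hα' : α' ∈ Rm L a) (h0 : α ≠ 0) (h0' : α' ≠ 0) (c₁ : B → ℕ) (hnz : NZ L a α α' c₁)
    (i : ℕ) (c c' : B → ℕ) (hc : c₁ ≤ c + c') :
    ∀ w ∈ gr (Rm L c) (-α / α') i,
      ∀ y ∈ Rm (fun b => ex (IntermediateField.adjoin k {-α / α'}) (L b)) (c' + i • a),
      ∃ v ∈ Rm (fun b => ex (IntermediateField.adjoin k {-α / α'}) (L b)) (c + c'),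
        w * y = α' ^ i * v := by
  intro w hw y hy
  rw [rm_ex] at hy ⊢
  have hz : α' ^ i ≠ 0 := pow_ne_zero _ h0'
  have hle : gr (Rm L c) (-α / α') i *
      ex (IntermediateField.adjoin k {-α / α'}) (Rm L (c' + i • a)) ≤
      (ex (IntermediateField.adjoin k {-α / α'}) (Rm L (c + c'))).comap
        (LinearMap.mulLeft (IntermediateField.adjoin k {-α / α'}) ((α' ^ i)⁻¹)) := by
    unfold gr
    unfold ex
    rw [Submodule.span_mul_span, Submodule.span_le]
    rintro _ ⟨_, ⟨G, hG, rfl⟩, y, hy, rfl⟩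
    obtain ⟨H, hH, hGH⟩ := pfac L a α α' hα hα' h0 h0' c₁ hnz i (c + c') hc (G * C y) (by
      intro n
      have h1 : (X - C (-α / α')) ^ i * (G * C y) = ((X - C (-α / α')) ^ i * G) * C y := by ring
      rw [h1, coeff_mul_C]
      have h2 := rm_mul_mem L (hG n) hy
      rwa [← add_assoc] at h2)
    have h1 := congrArg (eval (-α / α')) hGH
    rw [eval_mul, eval_C, eval_mul, eval_C] at h1
    change (α' ^ i)⁻¹ * (eval (-α / α') G * y) ∈
      Submodule.span (IntermediateField.adjoin k {-α / α'}) ((Rm L (c + c') : Submodule k K) : Set K)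
    rw [h1, inv_mul_cancel_left₀ hz, eval_eq_sum_range]
    refine sum_mem fun n _ => ?_
    have h3 : -α / α' ∈ IntermediateField.adjoin k {-α / α'} :=
      IntermediateField.mem_adjoin_simple_self k _
    have h2 : H.coeff n * (-α / α') ^ n =
        (⟨(-α / α') ^ n, pow_mem h3 n⟩ : IntermediateField.adjoin k {-α / α'}) • H.coeff n := by
      rw [mul_comm]
      rfl
    rw [h2]
    exact Submodule.smul_mem _ _ (Submodule.subset_span (hH n))
  have h1 := hle (Submodule.mul_mem_mul hw hy)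
  refine ⟨(α' ^ i)⁻¹ * (w * y), h1, ?_⟩
  rw [mul_inv_cancel_left₀ hz]

omit [Fintype B] [DecidableEq B] in
private theorem le_addr (u v : B → ℕ) : u ≤ u + v := fun _ => Nat.le_add_right _ _

private theorem sum_aux (J : ℕ) (M D : ℤ) :
    2 * ∑ i ∈ Finset.range (J + 1), (M - i * D) = (J + 1) * (2 * M - J * D) := by
  induction J with
  | zero => simp
  | succ J ih =>
    rw [Finset.sum_range_succ, mul_add, ih]
    push_cast
    ring

theorem two [Infinite k] (L : B → Submodule k K) (hL : Irm L) (q : (B → ℕ) → (B → ℕ) → ℤ)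
    (hq : Qd (hm L) q) (a b : B → ℕ) : q a a * q b b ≤ q a b ^ 2 := by
  have hh : ∀ c, 0 ≤ hm L c := fun c => Int.natCast_nonneg _
  have hqa := qd_nonneg (hm L) hh q hq a
  obtain ⟨D, hD⟩ : ∃ D : ℕ, q a a = D := ⟨(q a a).toNat, (Int.toNat_of_nonneg hqa).symm⟩
  rcases Nat.eq_zero_or_pos D with hD0 | hD1
  · rw [hD, hD0, Nat.cast_zero, zero_mul]
    exact sq_nonneg _
  obtain ⟨α, α', c₁, hα, hα', h0, h0', hnz⟩ := pencil L hL a
  obtain ⟨caa, hcaa⟩ := hq a a
  obtain ⟨cab, hcab⟩ := hq a b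
  obtain ⟨cbb, hcbb⟩ := hq b b
  -- `ψ` is transcendental
  have hψ : Transcendental k (-α / α') := by
    obtain ⟨p, hp⟩ : ∃ p : ℕ, 0 < Dl a (hm L) (c₁ + caa) + p * (D : ℤ) := by
      refine ⟨(Dl a (hm L) (c₁ + caa)).natAbs + 1, ?_⟩
      have h1 : (1 : ℤ) ≤ D := by exact_mod_cast hD1
      have h2 := neg_abs_le (Dl a (hm L) (c₁ + caa))
      have h3 := abs_nonneg (Dl a (hm L) (c₁ + caa))
      have h4 : (((Dl a (hm L) (c₁ + caa)).natAbs + 1 : ℕ) : ℤ) =
          |Dl a (hm L) (c₁ + caa)| + 1 := by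
        push_cast
        rfl
      rw [h4]
      nlinarith
    have h1 := dl_iter (Dl a (hm L)) a caa (q a a) hcaa (c₁ + caa) (by
      rw [add_comm]
      exact le_addr _ _) p
    rw [hD] at h1
    refine exd_tr L hL a α α' hα hα' h0 h0' c₁ hnz (c₁ + caa + p • a + a) ?_ ?_
    · rw [add_assoc, add_assoc]
      exact le_addr _ _
    · rw [add_tsub_cancel_right]
      have h2 : Dl a (hm L) (c₁ + caa + p • a) =
        hm L (c₁ + caa + p • a + a) - hm L (c₁ + caa + p • a) := rfl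
      linarith
  -- the new family
  obtain ⟨L', hL'⟩ : ∃ L' : B → Submodule (IntermediateField.adjoin k {-α / α'}) K,
      L' = fun b => ex (IntermediateField.adjoin k {-α / α'}) (L b) := ⟨_, rfl⟩
  have hexd : ∀ c, c₁ ≤ c → hm L' c = hm L c - hm L (c - a) := by
    intro c hc
    rw [hL']
    exact exd L hL a α α' hα hα' h0 h0' c₁ hnz hψ c hc
  have hexd2 : ∀ c, c₁ ≤ c → hm L' c = Dl a (hm L) (c - a) := by
    intro c hc
    rw [hexd c hc]
    unfold Dl
    rw [tsub_add_cancel_of_le (hnz.1.trans hc)]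
  have hirm : Irm L' := by
    rw [hL']
    exact irm_ex _ L hL
  have hinfF : Infinite (IntermediateField.adjoin k {-α / α'}) :=
    Infinite.of_injective (algebraMap k _) (algebraMap k _).injective
  obtain ⟨γ, γ', c₁', hγ, hγ', hγ0, hγ0', hnz'⟩ := pencil L' hirm a
  -- the differences of the new Hilbert function
  have hdl : ∀ (e : B → ℕ) (ce : B → ℕ), (∀ c, ce ≤ c → Dl e (Dl a (hm L)) c = q a e) →
      ∀ c, c₁ + ce + a ≤ c → Dl e (hm L') c = q a e := by
    intro e ce hce c hc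
    have h1 : c₁ ≤ c := (le_addr _ _).trans ((le_addr _ _).trans hc)
    have h2 : a ≤ c := hnz.1.trans h1
    have h3 : ce ≤ c - a := by
      intro x
      have h4 := hc x
      have h5 : a x ≤ c x := h2 x
      simp only [Pi.add_apply, Pi.sub_apply] at h4 ⊢
      omega
    have h6 : c + e - a = c - a + e := by
      funext x
      have h5 : a x ≤ c x := h2 x
      simp only [Pi.add_apply, Pi.sub_apply]
      omega
    rw [← hce _ h3]
    unfold Dl
    rw [hexd2 c h1, hexd2 (c + e) (h1.trans (le_addr _ _)), h6]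
    rfl
  obtain ⟨c₂, hc₂⟩ : ∃ c₂ : B → ℕ, c₂ = c₁ + c₁' + caa + cab + cbb + a + a := ⟨_, rfl⟩
  have hc₁ : c₁ ≤ c₂ := by
    intro x
    rw [hc₂]
    simp only [Pi.add_apply]
    omega
  have hc₁' : c₁' ≤ c₂ := by
    intro x
    rw [hc₂]
    simp only [Pi.add_apply]
    omega
  have hcbb' : cbb ≤ c₂ := by
    intro x
    rw [hc₂]
    simp only [Pi.add_apply]
    omega
  have hnz₂ : NZ L' a γ γ' c₂ := ⟨hnz'.1.trans hc₁', fun c hc => hnz'.2 c (hc₁'.trans hc)⟩
  have hlin : ∀ c, c₂ ≤ c → hm L' c - hm L' (c - a) = D := by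
    intro c hc
    have h1 : a ≤ c := hnz.1.trans (hc₁.trans hc)
    have h2 := hdl a caa hcaa (c - a) (by
      intro x
      have h4 := hc x
      have h5 : a x ≤ c x := h1 x
      rw [hc₂] at h4
      simp only [Pi.add_apply, Pi.sub_apply] at h4 ⊢
      omega)
    unfold Dl at h2
    rw [tsub_add_cancel_of_le h1, hD] at h2
    exact h2
  have haa : ∀ (i : ℕ), hm L' (c₂ + i • a) = hm L' c₂ + i * D := by
    intro i
    rw [← hD]
    refine dl_iter (hm L') a (c₁ + caa + a) (q a a) (hdl a caa hcaa) c₂ ?_ i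
    intro x
    rw [hc₂]
    simp only [Pi.add_apply]
    omega
  have hab : ∀ (p : ℕ), hm L' (c₂ + c₂ + c₂ + p • b) = hm L' (c₂ + c₂ + c₂) + p * q a b := by
    intro p
    refine dl_iter (hm L') b (c₁ + cab + a) (q a b) (hdl b cab hcab) (c₂ + c₂ + c₂) ?_ p
    intro x
    rw [hc₂]
    simp only [Pi.add_apply]
    omega
  obtain ⟨Cc, hCc⟩ : ∃ Cc : ℤ, Cc = hm L' (c₂ + c₂ + c₂) - 2 * hm L' c₂ + 2 * D := ⟨_, rfl⟩
  -- the pieces of the filtration
  have hfgR : ∀ c, (Rm L c).FG := rm_fg L hL.fg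
  have hgrfg : ∀ (c : B → ℕ) (i : ℕ), (gr (Rm L c) (-α / α') i).FG := by
    intro c i
    have h1 : (ex (IntermediateField.adjoin k {-α / α'}) (Rm L c)).FG := by
      rw [← rm_ex, ← hL']
      exact rm_fg L' hirm.fg c
    exact h1.of_le (gr_le _ _ _)
  have hpiece : ∀ (p i : ℕ), gr (Rm L (c₂ + p • b)) (-α / α') i ≠ ⊥ →
      (Module.finrank (IntermediateField.adjoin k {-α / α'})
        (gr (Rm L (c₂ + p • b)) (-α / α') i) : ℤ) ≤ p * q a b + Cc - i * D := by
    intro p i hne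
    have h1 := gr_mul L a α α' hα hα' h0 h0' c₁ hnz i (c₂ + p • b) c₂
      (hc₁.trans ((le_addr _ _).trans (le_addr _ _)))
    rw [← hL'] at h1
    have h2 := jen L' hirm a γ γ' hγ hγ' hγ0 hγ0' c₂ hnz₂ D hD1 hlin _
      (hgrfg (c₂ + p • b) i) hne (α' ^ i) (pow_ne_zero _ h0') (c₂ + i • a) (c₂ + p • b + c₂)
      (le_addr _ _) ((le_addr _ _).trans (le_addr _ _)) h1
    have h3 : c₂ + p • b + c₂ + c₂ = c₂ + c₂ + c₂ + p • b := by ring
    rw [h3, hab, haa] at h2
    rw [hCc]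
    linarith
  -- the main inequality
  have hmain : ∀ p : ℕ, 8 * (D : ℤ) * hm L (c₂ + p • b) ≤
      (2 * (p * q a b + Cc) + D) ^ 2 := by
    intro p
    rcases eq_or_ne (Rm L (c₂ + p • b)) ⊥ with hW | hW
    · have h1 : hm L (c₂ + p • b) = 0 := by
        unfold hm
        rw [hW, finrank_bot]
        rfl
      rw [h1, mul_zero]
      exact sq_nonneg _
    · obtain ⟨J, ⟨w, hw, hw0⟩, hJ⟩ := lc_top (-α / α') hψ _ (hfgR (c₂ + p • b)) hW
      have h1 := gfl (-α / α') hψ _ (hfgR (c₂ + p • b)) J hJ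
      have h2 : gr (Rm L (c₂ + p • b)) (-α / α') J ≠ ⊥ := by
        intro h
        have h3 : w ∈ gr (Rm L (c₂ + p • b)) (-α / α') J := Submodule.subset_span hw
        rw [h, Submodule.mem_bot] at h3
        exact hw0 h3
      have h3 := hpiece p J h2
      have h4 : (0 : ℤ) ≤ p * q a b + Cc - J * D := (Int.natCast_nonneg _).trans h3
      have h5 : ∀ i ∈ Finset.range (J + 1),
          (Module.finrank (IntermediateField.adjoin k {-α / α'})
            (gr (Rm L (c₂ + p • b)) (-α / α') i) : ℤ) ≤ p * q a b + Cc - i * D := by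
        intro i hi
        rcases eq_or_ne (gr (Rm L (c₂ + p • b)) (-α / α') i) ⊥ with h6 | h6
        · rw [h6, finrank_bot]
          have h7 : (i : ℤ) ≤ J := by
            exact_mod_cast Nat.lt_succ_iff.1 (Finset.mem_range.1 hi)
          have h8 : (i : ℤ) * D ≤ J * D := mul_le_mul_of_nonneg_right h7 (Int.natCast_nonneg _)
          push_cast
          linarith
        · exact hpiece p i h6
      have h6 : hm L (c₂ + p • b) ≤ ∑ i ∈ Finset.range (J + 1), (p * q a b + Cc - i * D) := by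
        have h7 : hm L (c₂ + p • b) ≤ ((∑ i ∈ Finset.range (J + 1),
          Module.finrank (IntermediateField.adjoin k {-α / α'})
            (gr (Rm L (c₂ + p • b)) (-α / α') i) : ℕ) : ℤ) := by
          unfold hm
          exact_mod_cast h1
        refine h7.trans ?_
        rw [Nat.cast_sum]
        exact Finset.sum_le_sum h5
      have h7 := sum_aux J (p * q a b + Cc) D
      have h8 : 2 * hm L (c₂ + p • b) ≤ (J + 1) * (2 * (p * q a b + Cc) - J * D) := by
        rw [← h7]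
        linarith
      have h9 : (D : ℤ) * (2 * hm L (c₂ + p • b)) ≤
          D * ((J + 1) * (2 * (p * q a b + Cc) - J * D)) :=
        mul_le_mul_of_nonneg_left h8 (Int.natCast_nonneg _)
      nlinarith [sq_nonneg ((J * D + D : ℤ) - (2 * (p * q a b + Cc) - J * D))]
  have hquad := dl_quad (hm L) b cbb (q b b) hcbb c₂ hcbb'
  rw [hD]
  have hfin := quad_aux (4 * (D * q b b - q a b ^ 2))
    (4 * D * q b b + 4 * q a b * (2 * Cc + D) - 8 * D * Dl b (hm L) c₂)
    ((2 * Cc + D) ^ 2 - 8 * D * hm L c₂) (fun p => by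
      have h1 := hmain p
      have h2 : 8 * (D : ℤ) * hm L (c₂ + p • b) = 4 * D * (2 * hm L (c₂ + p • b)) := by ring
      rw [h2, hquad p] at h1
      linarith)
  linarith

end Pool.Agent.HDG
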